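import Mathlib
import Pool.Agent.Helper403_SK.Stmts

set_option autoImplicit false

/-!
# The upper bound: statements of the jobs
-/

namespace Pool.Agent.Helper403.SK

open Cardinal Set Pool.Agent.Helper669.Forcing Pool.Agent.Helper669.K

/-- Terms for functions from `κ` to `κ` in the extension: `Val s ξ γ` is the set of conditions
which decide that the value of `s` at `ξ` is `γ`. -/
structure Terms (κ : Cardinal.{0}) (P : Type) [Preorder P] (Λ : Type)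
    (X : Λ → κ.ord.ToType → Set P) where
  T : Type
  card : #T ≤ plusOmega κ
  Val : T → κ.ord.ToType → κ.ord.ToType → Set P
  down : ∀ s ξ γ, Down (Val s ξ γ)
  fn : ∀ s ξ γ γ' q, q ∈ Val s ξ γ → q ∈ Val s ξ γ' → γ = γ'
  dense : ∀ s ξ q, ∃ q' ≤ q, ∃ γ, q' ∈ Val s ξ γ
  /-- the identity -/
  idt : T
  val_idt : ∀ ξ q, q ∈ Val idt ξ ξ
  /-- constant functions -/
  cst : κ.ord.ToType → T
  val_cst : ∀ c ξ q, q ∈ Val (cst c) ξ c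
  /-- the image of the second function under an injection of the first one into its
  cardinality -/
  hh : T → T → T
  hh_lt : ∀ s s' ξ γ γ' δ q, q ∈ Val s ξ γ → q ∈ Val s' ξ γ' → γ' < γ → q ∈ Val (hh s s') ξ δ →
    #(Iio δ) < #(Iio γ)
  hh_inj : ∀ s s' s'' ξ γ γ' γ'' δ q, q ∈ Val s ξ γ → q ∈ Val s' ξ γ' → q ∈ Val s'' ξ γ'' →
    γ' < γ → γ'' < γ → q ∈ Val (hh s s') ξ δ → q ∈ Val (hh s s'') ξ δ → γ' = γ''
  /-- the conditions which force that the power set of `γ` has size at most `|γ|^{+n}` -/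
  NN : κ.ord.ToType → ℕ → Set P
  NN_down : ∀ γ n, Down (NN γ n)
  NN_dense : ∀ γ, ℵ₀ ≤ #(Iio γ) → ∀ q, ∃ q' ≤ q, ∃ n, q' ∈ NN γ n
  NN_fn : ∀ γ, ℵ₀ ≤ #(Iio γ) → ∀ q n n', q ∈ NN γ n → q ∈ NN γ n' → n = n'
  /-- the code of `X i ∩ s ξ` -/
  code : Λ → T → T
  code_lt : ∀ i s ξ γ c n q, ℵ₀ ≤ #(Iio γ) → q ∈ Val s ξ γ → q ∈ NN γ n →
    q ∈ Val (code i s) ξ c → #(Iio c) < plus #(Iio γ) n
  code_inj : ∀ i j s ξ γ c q, ℵ₀ ≤ #(Iio γ) → q ∈ Val s ξ γ → q ∈ Val (code i s) ξ c →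
    q ∈ Val (code j s) ξ c → ∀ β < γ, ∀ r ≤ q, r ∈ meets (X i β) ↔ r ∈ meets (X j β)

/-- job A1: there are terms -/
def StmtA1 : Prop := ∀ (κ : Cardinal.{0}), κ.IsInaccessible → ∀ (P : Type) [Preorder P],
  PowSmall κ P → ∀ (Λ : Type) (X : Λ → κ.ord.ToType → Set P), #Λ = plusOmega κ →
  Nonempty (Terms κ P Λ X)

/-- job A3: the combinatorial core, CLAIM(k) of the paper proof. `C` are the constants. -/
def StmtA3 : Prop := ∀ (κ : Cardinal.{0}), ℵ₀ ≤ κ → ∀ (P : Type) [Preorder P], CC P κ →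
  ∀ (T C : Type) (cst : C → T) (EQ LT : T → T → Set P) (Bd : ℕ → T → Set P) (hh : T → T → T)
  (q1 : P), #C ≤ κ → (∀ s s', Down (EQ s s')) → (∀ s s', Down (LT s s')) →
  (∀ k s, Down (Bd k s)) →
  (∀ s s', ∀ q ≤ q1, ∃ q' ≤ q, q' ∈ LT s s' ∨ q' ∈ EQ s s' ∨ q' ∈ LT s' s) →
  (∀ s, ∀ q ≤ q1, q ∈ Bd 0 s → ∃ q' ≤ q, ∃ c, q' ∈ EQ s (cst c)) →
  (∀ s s' c, ∀ q ≤ q1, q ∈ EQ s (cst c) → q ∈ EQ s' (cst c) → q ∈ EQ s s') →
  (∀ s s', ∀ q ≤ q1, q ∈ EQ s s' → q ∈ EQ s' s) →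
  (∀ k s s', ∀ q ≤ q1, q ∈ LT s' s → q ∈ Bd (k + 1) s → q ∈ Bd k (hh s s')) →
  (∀ s s' s'', ∀ q ≤ q1, q ∈ LT s' s → q ∈ LT s'' s → q ∈ EQ (hh s s') (hh s s'') →
    q ∈ EQ s' s'') →
  ∀ (k : ℕ) (I : Type) (r : I → P) (s : I → T), #I = plus κ (k + 1) → (∀ i, r i ≤ q1) →
    (∀ i, r i ∈ Bd k (s i)) → ∃ i j, i ≠ j ∧ ∃ r', r' ≤ r i ∧ r' ≤ r j ∧ r' ∈ EQ (s i) (s j)

/-- job A2: the upper bound from the terms and the core -/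
def StmtA2 : Prop := StmtA3 → ∀ (κ : Cardinal.{0}), κ.IsInaccessible → ∀ (P : Type) [Preorder P],
  DirClosed ℵ₁ P → (∀ q : P, q ∈ StaysRegular P κ) → CC P κ →
  ∀ (Λ : Type) (X : Λ → κ.ord.ToType → Set P), #Λ = plusOmega κ → Distinct X →
  Terms κ P Λ X → ∀ q : P, q ∈ SplittingFamily P κ (plusOmega κ)

theorem partA_of (h1 : StmtA1) (h2 : StmtA2) (h3 : StmtA3) : StmtA := by
  intro κ hκ P _ hσ hreg hcc hpow Λ X hΛ hX q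
  obtain ⟨T⟩ := h1 κ hκ P hpow Λ X hΛ
  exact h2 h3 κ hκ P hσ hreg hcc Λ X hΛ hX T q

end Pool.Agent.Helper403.SK
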