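import Mathlib
import Pool.Agent.Helper403_SK.BDefs
import Pool.Agent.Helper403_SK.Stmts

set_option autoImplicit false

/-!
# The iteration of Mathias forcings with small ultrafilters: statements of the jobs
-/

namespace Pool.Agent.Helper403.SK

open Cardinal Set Pool.Agent.Helper669.Forcing Pool.Agent.Helper669.K

section

variable {κ : Cardinal.{0}} {L R I : Type} [LinearOrder L] [Preorder R]

theorem relW_congr {W W' : Wg κ L R I} {ξ : L} (h : ∀ η < ξ, W η = W' η)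
    {p' p : BC κ L R I} (hp : Cond.res ξ p = p) (hp' : Cond.res ξ p' = p') :
    relW W p' p = relW W' p' p := by
  ext r
  have key : ∀ (V V' : Wg κ L R I), (∀ η < ξ, V η = V' η) → r ∈ relW V p' p → r ∈ relW V' p' p := by
    intro V V' hV hr
    refine ⟨hr.1, fun η β t ht => ⟨(hr.2 η β t ht).1, fun i hi h1 h2 => ?_⟩⟩
    rcases lt_or_ge η ξ with hlt | hge
    · rw [← hV η hlt]
      exact (hr.2 η β t ht).2 i hi h1 h2
    · exact absurd (Cond.lt_of_resE hp hi) (not_lt.2 hge)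
  exact ⟨key W W' h, key W' W fun η hη => (h η hη).symm⟩

theorem cut_of_lt (W : Wg κ L R I) {ξ η : L} (h : η < ξ) : cut W ξ η = W η := if_pos h

theorem cut_of_le (W : Wg κ L R I) {ξ η : L} (h : ξ ≤ η) : cut W ξ η = fun _ _ => Set.univ :=
  if_neg (not_lt.2 h)

theorem goodW_cut {W : Wg κ L R I} {ξ : L} (h : ∀ η < ξ, GoodW W η) (η : L) :
    GoodW (cut W ξ) η := by
  rcases lt_or_ge η ξ with hlt | hge
  · refine ⟨fun i β t t' p p' ht h1 h2 => ?_, fun i β t p h1 => ?_⟩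
    · rw [cut_of_lt W hlt] at h2 ⊢
      rw [relW_congr (W' := W) (ξ := η) (fun ζ hζ => cut_of_lt W (hζ.trans hlt))
        (Cond.res_res le_rfl _) (Cond.res_res le_rfl _)] at h1
      exact (h η hlt).mono i β t t' p p' ht h1 h2
    · rw [cut_of_lt W hlt] at h1 ⊢
      exact (h η hlt).loc i β t p h1
  · refine ⟨fun i β t t' p p' _ _ _ => ?_, fun i β t p _ => ?_⟩
    · rw [cut_of_le W hge]
      trivial
    · rw [cut_of_le W hge]
      trivial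

/-- the part of the name `c` given by conditions in `S` -/
def cutName {N : NOrd R (BC κ L R I)} (S : Set (BC κ L R I))
    (c : κ.ord.ToType → Set (R × BC κ L R I)) : κ.ord.ToType → Set (Two (N.sub S)) :=
  fun β => {y | (y.1, y.2.1) ∈ c β}

/-- `c` and `β` are on the same side of the ultrafilter -/
def AA {N : NOrd R (BC κ L R I)} {S : Set (BC κ L R I)}
    (U : (κ.ord.ToType → Set (Two (N.sub S))) → Set (Two (N.sub S)))
    (c : κ.ord.ToType → Set (R × BC κ L R I)) (β : κ.ord.ToType) : Set (Two (N.sub S)) :=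
  fand (meets (U (cutName S c))) (meets (cutName (N := N) S c β)) ∪
    fand (fnot (meets (U (cutName S c)))) (fnot (meets (cutName (N := N) S c β)))

/-- elements of the small forcing as elements of the large one -/
def up {N : NOrd R (BC κ L R I)} {S : Set (BC κ L R I)} (Y : Set (Two (N.sub S))) :
    Set (Two N) := (fun y : Two (N.sub S) => (y.1, y.2.1)) '' Y

/-- the iteration -/
structure BSys (κ : Cardinal.{0}) (L R I : Type) [LinearOrder L] [Preorder R]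
    (e : I → κ.ord.ToType → Set (R × BC κ L R I)) (b : L → Set (BC κ L R I)) where
  W : Wg κ L R I
  good : ∀ ξ, GoodW W ξ
  inr : ∀ ξ β0 β x, x ∈ W ξ (Sum.inr β0) β ↔ β ≠ β0
  inl : ∀ ξ, GoodSub (NW (cut W ξ) (goodW_cut fun η _ => good η)) ξ (b ξ) →
    ∃ U : (κ.ord.ToType → Set (Two ((NW (cut W ξ) (goodW_cut fun η _ => good η)).sub (b ξ)))) →
      Set (Two ((NW (cut W ξ) (goodW_cut fun η _ => good η)).sub (b ξ))),
      (∀ q, q ∈ IsMeasure κ U) ∧ ∀ i β (t : R) (p : BC κ L R I), Cond.res ξ p = p →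
        ((t, p) ∈ W ξ (Sum.inl i) β ↔
          ((t, p) : Two (NW (cut W ξ) (goodW_cut fun η _ => good η))) ∈ meets (up (AA U (e i) β)))
  bad : ∀ ξ, ¬ GoodSub (NW (cut W ξ) (goodW_cut fun η _ => good η)) ξ (b ξ) →
    ∀ i β x, x ∈ W ξ (Sum.inl i) β

end

/-- `κ` stays measurable after small closed named orders -/
def Meas (κ : Cardinal.{0}) (R : Type) [Preorder R] : Prop :=
  ∀ (Θ : Type) (N : NOrd R Θ) (n : ℕ), NClosed κ N → #Θ ≤ plus κ n →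
    ∃ U : (κ.ord.ToType → Set (Two N)) → Set (Two N), ∀ q : Two N, q ∈ IsMeasure κ U

/-- job B1: the recursion -/
def StmtB1 : Prop := ∀ (κ : Cardinal.{0}) (L R I : Type) [LinearOrder L] [WellFoundedLT L]
  [Preorder R], Meas κ R → ∀ (e : I → κ.ord.ToType → Set (R × BC κ L R I))
  (b : L → Set (BC κ L R I)), Nonempty (BSys κ L R I e b)

/-- job B2a: closedness -/
def StmtB2a : Prop := ∀ (κ : Cardinal.{0}) (L R I : Type) [LinearOrder L] [WellFoundedLT L]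
  [Preorder R], κ.IsInaccessible → CCS R κ → ∀ (W : Wg κ L R I) (hW : ∀ ξ, GoodW W ξ)
  (D : Set (R × BC κ L R I)), #D < κ → ForcedDirected (NW W hW) D →
  ∃ m, (∀ a ∈ D, a.1 ∈ relW W m a.2) ∧ ∀ ξ, (∀ a ∈ D, Cond.res ξ a.2 = a.2) → Cond.res ξ m = m

/-- job B2b: chain condition -/
def StmtB2b : Prop := ∀ (κ : Cardinal.{0}) (L R I : Type) [LinearOrder L] [WellFoundedLT L]
  [Preorder R], κ.IsInaccessible → #R ≤ κ → ∀ (W : Wg κ L R I) (hW : ∀ ξ, GoodW W ξ),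
  CC (Two (NW W hW)) κ

/-- job B2c: amalgamation -/
def StmtB2c : Prop := ∀ (κ : Cardinal.{0}) (L R I : Type) [LinearOrder L] [WellFoundedLT L]
  [Preorder R] (hκ : ℵ₀ ≤ κ) (W : Wg κ L R I) (_ : ∀ ξ, GoodW W ξ) (ξ : L) (z p : BC κ L R I)
  (t : R) (T : Set (κ.ord.ToType × R)) (hT : T.Finite), Cond.res ξ z = z →
  t ∈ relW W z (Cond.res ξ p) →
  (∀ x ∈ T, x.2 = t ∧ ∀ i, (ξ, i) ∈ p.E → (t, z) ∈ W ξ i x.1) →
  t ∈ relW W (amal hκ z p ξ T hT) p ∧ t ∈ relW W (amal hκ z p ξ T hT) z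

/-- job B2d: from the forcing cut at `ξ` to larger forcings -/
def StmtB2d : Prop := ∀ (κ : Cardinal.{0}) (L R I : Type) [LinearOrder L] [WellFoundedLT L]
  [Preorder R], ℵ₀ ≤ κ → ∀ (W W' : Wg κ L R I) (hW : ∀ ξ, GoodW W ξ) (hW' : ∀ ξ, GoodW W' ξ) (ξ : L),
  (∀ η < ξ, W η = W' η) →
  (∀ (Y : Set (R × BC κ L R I)), (∀ y ∈ Y, Cond.res ξ y.2 = y.2) → ∀ (t : R) (p : BC κ L R I),
    Cond.res ξ p = p → (((t, p) : Two (NW W hW)) ∈ meets (P := Two (NW W hW)) Y ↔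
      ((t, p) : Two (NW W' hW')) ∈ meets (P := Two (NW W' hW')) Y)) ∧
  ∀ ξ' ≤ ξ, ∀ S, GoodSub (NW W hW) ξ' S → GoodSub (NW W' hW') ξ S

/-- job B3: adding elements -/
def StmtB3 : Prop := ∀ (κ : Cardinal.{0}) (L R I : Type) [LinearOrder L] [WellFoundedLT L]
  [Preorder R] (hκ : κ.IsInaccessible), ∀ (e : I → κ.ord.ToType → Set (R × BC κ L R I))
  (b : L → Set (BC κ L R I)) (S : BSys κ L R I e b) (r : R) (p : BC κ L R I) (ξ : L)
  (B : Set κ.ord.ToType), #B < κ → ∃ r1 ≤ r, ∃ z, Cond.res ξ z = z ∧ ∃ β, β ∉ B ∧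
    r1 ∈ relW S.W (amal hκ.1.le z p ξ {(β, r1)} (Set.finite_singleton _)) p

/-- job B4: closing off -/
def StmtB4 : Prop := ∀ (κ : Cardinal.{0}) (L R I : Type) [LinearOrder L] [WellFoundedLT L]
  [Preorder R], κ.IsInaccessible → GCH → #R ≤ κ → Nonempty R → CCS R κ → ∀ (W : Wg κ L R I)
  (hW : ∀ ξ, GoodW W ξ) (ξ : L) (S0 : Set (BC κ L R I)) (n : ℕ), (∀ p ∈ S0, Cond.res ξ p = p) →
  #S0 ≤ plus κ n → ∃ S, S0 ⊆ S ∧ GoodSub (NW W hW) ξ S

/-- job B5: the lower bound -/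
def StmtB5 : Prop := ∀ (κ : Cardinal.{0}) (L R I : Type) [LinearOrder L] [WellFoundedLT L]
  [Preorder R], κ.IsInaccessible → GCH → GoodPrep κ R →
  ∀ (e : I → κ.ord.ToType → Set (R × BC κ L R I)) (b : L → Set (BC κ L R I)) (S : BSys κ L R I e b),
  (∀ q, q ∈ StaysRegular (Two (NW S.W S.good)) κ) → CC (Two (NW S.W S.good)) κ →
  (∀ c : κ.ord.ToType → Set (R × BC κ L R I), (∀ β, #(c β) ≤ κ) → ∃ i, e i = c) →
  (∀ X : Set (BC κ L R I), (∃ n, #X ≤ plus κ n) → ∀ ξ, ∃ η, ξ ≤ η ∧ b η = X) →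
  (∀ T : Set L, (∃ n, #T ≤ plus κ n) → ∃ γ, ∀ α ∈ T, α < γ) →
  ∀ μ < plusOmega κ, ∀ q : Two (NW S.W S.good), q ∈ fnot (SplittingFamily _ κ μ)

/-- job B6: different generic sets -/
def StmtB6 : Prop := ∀ (κ : Cardinal.{0}) (L R I : Type) [LinearOrder L] [WellFoundedLT L]
  [Preorder R], κ.IsInaccessible →
  ∀ (e : I → κ.ord.ToType → Set (R × BC κ L R I)) (b : L → Set (BC κ L R I)) (S : BSys κ L R I e b),
  Distinct (P := Two (NW S.W S.good)) (Λ := L) fun ξ β =>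
    {x | ∃ u, (ξ, (β, u)) ∈ x.2.s ∧ x.1 ≤ u}

/-- job B7: the index sets -/
def StmtB7 : Prop := ∀ (κ : Cardinal.{0}), κ.IsInaccessible → ∀ (R : Type), #R ≤ κ →
  ∃ (L : Type) (_ : LinearOrder L) (_ : WellFoundedLT L) (I : Type)
    (e : I → κ.ord.ToType → Set (R × BC κ L R I)) (b : L → Set (BC κ L R I)),
    (∀ c : κ.ord.ToType → Set (R × BC κ L R I), (∀ β, #(c β) ≤ κ) → ∃ i, e i = c) ∧
    (∀ X : Set (BC κ L R I), (∃ n, #X ≤ plus κ n) → ∀ ξ, ∃ η, ξ ≤ η ∧ b η = X) ∧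
    (∀ T : Set L, (∃ n, #T ≤ plus κ n) → ∃ γ, ∀ α ∈ T, α < γ) ∧ plusOmega κ ≤ #L

theorem partB_of (h0 : Stmt0) (h1 : StmtB1) (h2a : StmtB2a) (h2b : StmtB2b) (h5 : StmtB5)
    (h6 : StmtB6) (h7 : StmtB7) : StmtB := by
  intro κ hκ hG R _ hR
  obtain ⟨L, _, _, I, e, b, he, hb, hL, hsz⟩ := h7 κ hκ R hR.size
  obtain ⟨S⟩ := h1 κ L R I hR.meas e b
  have hcl : NClosed κ (NW S.W S.good) := fun D hD hdir => by
    obtain ⟨m, hm, _⟩ := h2a κ L R I hκ hR.cc S.W S.good D hD hdir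
    exact ⟨m, hm⟩
  have hcc := h2b κ L R I hκ hR.size S.W S.good
  have hreg := h0 κ hκ R _ (NW S.W S.good) hR.cc hcl
  refine ⟨BC κ L R I, NW S.W S.good, ⟨emp κ hκ.pos L R I⟩, hcl, hcc, ?_,
    h5 κ L R I hκ hG hR e b S hreg hcc he hb hL⟩
  obtain ⟨Λ, hΛ⟩ : ∃ Λ : Set L, #Λ = plusOmega κ := Cardinal.le_mk_iff_exists_set.1 hsz
  refine ⟨Λ, fun ξ β => {x | ∃ u, (ξ.1, (β, u)) ∈ x.2.s ∧ x.1 ≤ u}, hΛ, fun i j hij q => ?_⟩
  exact h6 κ L R I hκ e b S i.1 j.1 (fun h => hij (Subtype.ext h)) q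

end Pool.Agent.Helper403.SK
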