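import Mathlib
import Pool.Agent.Helper403_SK.AStmts
import Pool.Agent.Helper403_SK.BStmts
import Pool.Agent.Helper403_SK.CDefs

set_option autoImplicit false

/-!
# The jobs and the final theorem derived from them
-/

namespace Pool.Agent.Helper403.SK

open Cardinal Set Pool.Agent.Helper669.Forcing Pool.Agent.Helper669.K Pool.Agent.W873.Tp

/-- all jobs give the main theorem -/
theorem final_of (j0 : Stmt0) (jcard : StmtCard)
    (jA1 : StmtA1) (jA2 : StmtA2) (jA3 : StmtA3)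
    (jB1 : StmtB1) (jB2a : StmtB2a) (jB2b : StmtB2b) (jB2c : StmtB2c) (jB2d : StmtB2c → StmtB2d)
    (jB3 : StmtB2c → StmtB2d → StmtB3) (jB4 : StmtB2a → StmtB2b → StmtB2c → StmtB4)
    (jB5 : StmtB2c → StmtB2d → StmtB3 → StmtB4 → StmtB5) (jB6 : StmtB2c → StmtB3 → StmtB6)
    (jB7 : StmtB7)
    (jC0 : StmtC0) (jC1 : StmtC1) (jC2 : StmtC1 → StmtC2) (jC3 : StmtC3)
    (jC4 : StmtC1 → StmtC2 → StmtC4) (jC5a : StmtC5a) (jC5b : StmtC5b) (jC6 : StmtC6)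
    (κ : Cardinal.{0}) (hκ : IsSupercompact κ) (hG : GCH) :
    ∃ (P : Type) (_ : Preorder P), Nonempty P ∧ ∀ p : P, p ∈ StaysRegular P κ ∧
      p ∈ PreservesFrom P κ ∧ p ∈ SplittingNumberIs P κ (plusOmega κ) := by
  have b2d := jB2d jB2c
  have b3 := jB3 jB2c b2d
  have b4 := jB4 jB2a jB2b jB2c
  have c2 := jC2 jC1
  have c4 := jC4 jC1 c2
  have c5 := jC5b jC1 c2 jC3 jC5a
  refine main_of j0 (partA_of jA1 jA2 jA3)
    (partB_of j0 jB1 jB2a jB2b (jB5 jB2c b2d b3 b4) (jB6 jB2c b3) jB7) ?_ jcard ?_ κ hκ hG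
  · intro κ hκ hG
    exact partC_of jC0 jC3 c4 c5 jC6 κ hκ hG
  · intro κ hκ
    exact Pool.Agent.W873.Vi.inacc hκ

end Pool.Agent.Helper403.SK
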