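import Mathlib
import Pool.Agent.Helper403_SK.Stmts
import Pool.Agent.Helper669.KA2
import Pool.Agent.W873.Vi.Card

set_option autoImplicit false

/-!
# Job 0: regularity is preserved
-/

namespace Pool.Agent.Helper403.SK

open Cardinal Set Pool.Agent.Helper669.Forcing Pool.Agent.Helper669.K

namespace T0

variable {κ : Cardinal.{0}} {R : Type} [Preorder R] {Θ : Type} {N : NOrd R Θ}

/-- pairwise incompatible sets are small -/
theorem mk_lt_of_antichain (hcc : CCS R κ) {M : Set R}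
    (hM : M.Pairwise fun a b => ¬ ∃ r, r ≤ a ∧ r ≤ b) : #M < κ := by
  by_contra hcon
  obtain ⟨i, j, hij, r, hri, hrj⟩ := hcc M (fun x => x.1) (not_lt.1 hcon)
  exact hM i.2 j.2 (fun h => hij (Subtype.ext h)) ⟨r, hri, hrj⟩

/-- the pairs in step 1 -/
structure Pr (N : NOrd R Θ) (Δ : Set (Two N)) (r : R) (x : Θ) where
  T : Set R
  y : Θ
  le : ∀ t ∈ T, t ≤ r
  anti : T.Pairwise fun a b => ¬ ∃ r, r ≤ a ∧ r ≤ b
  rel : r ∈ N.rel y x
  mem : ∀ t ∈ T, ((t, y) : Two N) ∈ Δ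

/-- step 1 -/
theorem step1 (hκ : κ.IsInaccessible) (hcc : CCS R κ) (hN : NClosed κ N) (Δ : Set (Two N))
    (hdown : Down Δ) (r : R) (x : Θ)
    (hdense : ∀ p : Two N, p ≤ (r, x) → ∃ p' ≤ p, p' ∈ Δ) :
    ∃ y, r ∈ N.rel y x ∧ ∀ t ≤ r, ∃ t' ≤ t, ((t', y) : Two N) ∈ Δ := by
  classical
  let lt : Pr N Δ r x → Pr N Δ r x → Prop := fun a b => a.T ⊂ b.T ∧ r ∈ N.rel b.y a.y
  let le : Pr N Δ r x → Pr N Δ r x → Prop := fun a b => a = b ∨ lt a b
  have hlt : ∀ a b c, lt a b → lt b c → lt a c := fun a b c h h' =>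
    ⟨h.1.trans h'.1, N.trans _ _ _ _ h'.2 h.2⟩
  obtain ⟨M, hM⟩ := exists_maximal_of_chains_bounded (r := le) (by
    intro C hC
    by_cases hne : C.Nonempty
    swap
    · refine ⟨⟨∅, x, fun t ht => ht.elim, fun t ht => ht.elim, N.refl _ _, fun t ht => ht.elim⟩,
        fun a ha => absurd ⟨a, ha⟩ hne⟩
    by_cases hmax : ∃ b ∈ C, ∀ a ∈ C, le a b
    · obtain ⟨b, hb, h⟩ := hmax
      exact ⟨b, h⟩
    have hstep : ∀ a ∈ C, ∃ b ∈ C, lt a b := by
      intro a ha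
      by_contra hcon
      refine hmax ⟨a, ha, fun b hb => ?_⟩
      by_cases hab : b = a
      · exact Or.inl hab
      · rcases hC hb ha hab with h | h
        · exact h
        · rcases h with h | h
          · exact absurd h.symm hab
          · exact absurd ⟨b, hb, h⟩ hcon
    have hcomp : ∀ a ∈ C, ∀ b ∈ C, a.T ⊆ b.T ∧ r ∈ N.rel b.y a.y ∨
        b.T ⊆ a.T ∧ r ∈ N.rel a.y b.y := by
      intro a ha b hb
      by_cases hab : a = b
      · subst hab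
        exact Or.inl ⟨subset_rfl, N.refl _ _⟩
      · rcases hC ha hb hab with h | h
        · rcases h with h | h
          · exact absurd h hab
          · exact Or.inl ⟨h.1.subset, h.2⟩
        · rcases h with h | h
          · exact absurd h.symm hab
          · exact Or.inr ⟨h.1.subset, h.2⟩
    let Ts : Set R := {t | ∃ a ∈ C, t ∈ a.T}
    have hTanti : Ts.Pairwise fun a b => ¬ ∃ r, r ≤ a ∧ r ≤ b := by
      rintro t ⟨a, ha, hta⟩ s ⟨b, hb, hsb⟩ hts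
      rcases hcomp a ha b hb with h | h
      · exact b.anti (h.1 hta) hsb hts
      · exact a.anti hta (h.1 hsb) hts
    have hTs : #Ts < κ := mk_lt_of_antichain hcc hTanti
    have hCs : #C < κ := by
      refine lt_of_le_of_lt ?_ (hκ.isStrongPrelimit hTs)
      rw [← mk_set]
      refine mk_le_of_injective (f := fun a : C => {t : Ts | t.1 ∈ a.1.T}) ?_
      intro a b hab
      by_contra hne'
      have hab' : a.1.T = b.1.T := by
        have key : ∀ a b : C, {t : Ts | t.1 ∈ a.1.T} = {t : Ts | t.1 ∈ b.1.T} → a.1.T ⊆ b.1.T := by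
          intro a b h t ht
          have h1 : (⟨t, a.1, a.2, ht⟩ : Ts) ∈ {t : Ts | t.1 ∈ a.1.T} := ht
          rw [h] at h1
          exact h1
        exact (key a b hab).antisymm (key b a hab.symm)
      rcases hC a.2 b.2 (fun h => hne' (Subtype.ext h)) with h | h
      · rcases h with h | h
        · exact hne' (Subtype.ext h)
        · exact h.1.ne hab'
      · rcases h with h | h
        · exact hne' (Subtype.ext h.symm)
        · exact h.1.ne hab'.symm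
    obtain ⟨m, hm⟩ := hN ((fun a : Pr N Δ r x => (r, a.y)) '' C) (mk_image_le.trans_lt hCs) (by
      rintro _ ⟨a, ha, rfl⟩ _ ⟨b, hb, rfl⟩ t ht _
      rcases hcomp a ha b hb with h | h
      · exact ⟨t, le_rfl, _, ⟨b, hb, rfl⟩, ht, N.down _ _ _ h.2 _ ht, N.refl _ _⟩
      · exact ⟨t, le_rfl, _, ⟨a, ha, rfl⟩, ht, N.refl _ _, N.down _ _ _ h.2 _ ht⟩)
    have hm' : ∀ a ∈ C, r ∈ N.rel m a.y := fun a ha => hm _ ⟨a, ha, rfl⟩
    obtain ⟨a0, ha0⟩ := hne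
    refine ⟨⟨Ts, m, ?_, hTanti, N.trans _ _ _ _ (hm' a0 ha0) a0.rel, ?_⟩, fun a ha => Or.inr ?_⟩
    · rintro t ⟨a, ha, hta⟩
      exact a.le t hta
    · rintro t ⟨a, ha, hta⟩
      exact hdown _ (a.mem t hta) _ ⟨le_rfl, N.down _ _ _ (hm' a ha) _ (a.le t hta)⟩
    · obtain ⟨b, hb, hab⟩ := hstep a ha
      refine ⟨?_, hm' a ha⟩
      exact hab.1.trans_subset fun t ht => ⟨b, hb, ht⟩) (by
    rintro a b c (rfl | h) (rfl | h')
    · exact Or.inl rfl
    · exact Or.inr h'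
    · exact Or.inr h
    · exact Or.inr (hlt _ _ _ h h'))
  refine ⟨M.y, M.rel, fun t ht => ?_⟩
  by_cases hcom : ∃ t1 ∈ M.T, ∃ t2, t2 ≤ t ∧ t2 ≤ t1
  · obtain ⟨t1, h1, t2, h2, h3⟩ := hcom
    exact ⟨t2, h2, hdown _ (M.mem t1 h1) _ ⟨h3, N.refl _ _⟩⟩
  exfalso
  obtain ⟨⟨t0, z⟩, h1, h2⟩ := hdense (t, M.y) ⟨ht, N.down _ _ _ M.rel _ ht⟩
  have ht0 : t0 ≤ t := h1.1
  have hz : t0 ∈ N.rel z M.y := h1.2
  obtain ⟨m, hm⟩ := hN {(r, M.y), (t0, z)} (by
      refine lt_of_le_of_lt (mk_insert_le) ?_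
      rw [mk_singleton]
      exact (add_lt_aleph0 one_lt_aleph0 one_lt_aleph0).trans hκ.1) (by
      intro a ha b hb s hsa hsb
      rcases ha with rfl | ha
      · rcases hb with rfl | hb
        · exact ⟨s, le_rfl, _, Or.inl rfl, hsa, N.refl _ _, N.refl _ _⟩
        · rw [mem_singleton_iff] at hb
          subst hb
          exact ⟨s, le_rfl, _, Or.inr rfl, hsb, N.down _ _ _ hz _ hsb, N.refl _ _⟩
      · rw [mem_singleton_iff] at ha
        subst ha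
        rcases hb with rfl | hb
        · exact ⟨s, le_rfl, _, Or.inr rfl, hsa, N.refl _ _, N.down _ _ _ hz _ hsa⟩
        · rw [mem_singleton_iff] at hb
          subst hb
          exact ⟨s, le_rfl, _, Or.inr rfl, hsb, N.refl _ _, N.refl _ _⟩)
  have hm1 : r ∈ N.rel m M.y := hm _ (Or.inl rfl)
  have hm2 : t0 ∈ N.rel m z := hm _ (Or.inr rfl)
  have hinc : ∀ s ∈ M.T, ¬ ∃ u, u ≤ t0 ∧ u ≤ s := fun s hs ⟨u, h3, h4⟩ =>
    hcom ⟨s, hs, u, h3.trans ht0, h4⟩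
  let M' : Pr N Δ r x := ⟨insert t0 M.T, m, by
      rintro s (rfl | hs)
      · exact ht0.trans ht
      · exact M.le s hs, by
      rw [Set.pairwise_insert]
      refine ⟨M.anti, fun b hb _ => ⟨hinc b hb, ?_⟩⟩
      rintro ⟨u, h3, h4⟩
      exact hinc b hb ⟨u, h4, h3⟩, N.trans _ _ _ _ hm1 M.rel, by
      rintro s (rfl | hs)
      · exact hdown _ h2 _ ⟨le_rfl, hm2⟩
      · exact hdown _ (M.mem s hs) _ ⟨le_rfl, N.down _ _ _ hm1 _ (M.le s hs)⟩⟩
  have hMM' : lt M M' := by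
    refine ⟨⟨Set.subset_insert _ _, fun h => ?_⟩, hm1⟩
    exact hinc t0 (h (Set.mem_insert _ _)) ⟨t0, le_rfl, le_rfl⟩
  rcases hM M' (Or.inr hMM') with h | h
  · have h3 := hMM'.1.ne
    rw [h] at h3
    exact h3 rfl
  · exact h.1.not_subset hMM'.1.subset

/-- the elements of `Θ` below `x`, as seen by `r` -/
def Below (N : NOrd R Θ) (r : R) (x : Θ) : Type := {y : Θ // r ∈ N.rel y x}

instance (r : R) (x : Θ) : Preorder (Below N r x) where
  le a b := r ∈ N.rel a.1 b.1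
  le_refl a := N.refl _ _
  le_trans a b c h h' := N.trans _ _ _ _ h h'

theorem dirClosed_below (hN : NClosed κ N) (r : R) (x : Θ) : DirClosed κ (Below N r x) := by
  intro D hD hne hdir
  obtain ⟨m, hm⟩ := hN ((fun a : Below N r x => (r, a.1)) '' D) (mk_image_le.trans_lt hD) (by
    rintro _ ⟨a, ha, rfl⟩ _ ⟨b, hb, rfl⟩ t ht _
    obtain ⟨c, hc, h1, h2⟩ := hdir a ha b hb
    exact ⟨t, le_rfl, _, ⟨c, hc, rfl⟩, ht, N.down _ _ _ h1 _ ht, N.down _ _ _ h2 _ ht⟩)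
  obtain ⟨a, ha⟩ := hne
  exact ⟨⟨m, N.trans _ _ _ _ (hm _ ⟨a, ha, rfl⟩) a.2⟩, fun b hb => hm _ ⟨b, hb, rfl⟩⟩

/-- step 2 -/
theorem step2 (hκ : κ.IsInaccessible) (hcc : CCS R κ) (hN : NClosed κ N) {J : Type} (hJ : #J < κ)
    (Δ : J → Set (Two N)) (hdown : ∀ i, Down (Δ i)) (r : R) (x : Θ)
    (hdense : ∀ i, ∀ p : Two N, p ≤ (r, x) → ∃ p' ≤ p, p' ∈ Δ i) :
    ∃ y, r ∈ N.rel y x ∧ ∀ i, ∀ t ≤ r, ∃ t' ≤ t, ((t', y) : Two N) ∈ Δ i := by
  obtain ⟨y, _, hy⟩ := exists_forall_mem hκ.1.le (dirClosed_below hN r x) hJ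
    (fun i => {y : Below N r x | ∀ t ≤ r, ∃ t' ≤ t, ((t', y.1) : Two N) ∈ Δ i})
    (by
      intro i y hy y' hy' t ht
      obtain ⟨t', h1, h2⟩ := hy t ht
      exact ⟨t', h1, hdown i _ h2 _ ⟨le_rfl, N.down _ _ _ hy' _ (h1.trans ht)⟩⟩)
    (by
      intro i y
      obtain ⟨y', h1, h2⟩ := step1 hκ hcc hN (Δ i) (hdown i) r y.1 (fun p hp =>
        hdense i p (hp.trans ⟨le_rfl, y.2⟩))
      exact ⟨⟨y', N.trans _ _ _ _ h1 y.2⟩, h1, h2⟩)
    ⟨x, N.refl _ _⟩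
  exact ⟨y.1, y.2, hy⟩

end T0

/-- job 0 -/
theorem job0 : Stmt0 := by
  classical
  intro κ hκ R _ Θ N hcc hN q ν hν F
  rw [mem_fimp]
  rintro ⟨r, x⟩ _ hF
  have hdown : ∀ a : ν.out, Down {p : Two N | ∃ c, p ∈ meets (F a c)} := by
    rintro a p ⟨c, hc⟩ p' hp'
    exact ⟨c, down_meets _ _ hc _ hp'⟩
  obtain ⟨y, hy, hy'⟩ := T0.step2 hκ hcc hN (J := ν.out) (by rw [mk_out]; exact hν)
    (fun a => {p : Two N | ∃ c, p ∈ meets (F a c)}) hdown r x (fun a p hp => by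
      obtain ⟨p', hp', c, hc⟩ := mem_fex.1 (hF.1 a) p hp
      exact ⟨p', hp', c, hc⟩)
  choose M hM1 hM2 hM3 using fun a : ν.out =>
    h400_antichain {t : R | t ≤ r ∧ ∃ c, ((t, y) : Two N) ∈ meets (F a c)}
  have : Nonempty κ.ord.ToType := by
    rw [← mk_ne_zero_iff, mk_ord_toType]
    exact hκ.ne_zero
  choose! c hc using fun (a : ν.out) (t : R) (ht : t ∈ M a) => (hM1 a ht).2
  obtain ⟨b, hb⟩ := Pool.Agent.W873.Vi.bddK hκ.isRegular (⋃ a, c a '' M a) (by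
    refine Pool.Agent.W873.Vi.lt_iUnion hκ.isRegular (by rw [mk_out]; exact hν) _ fun a => ?_
    exact mk_image_le.trans_lt (T0.mk_lt_of_antichain hcc (hM2 a)))
  refine ⟨(r, y), ⟨le_rfl, hy⟩, mem_fex_of_mem b ?_ ?_⟩
  · exact down_fall fun x => down_fall fun y => down_fimp _ _
  · intro a d
    refine mem_fimp.2 ?_
    intro s hs hm
    refine ⟨s, le_rfl, ?_⟩
    obtain ⟨t', ht', h1⟩ := hy' a s.1 hs.1
    obtain ⟨m, hm1, u, hu1, hu2⟩ := hM3 a t' ⟨ht'.trans hs.1, h1⟩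
    have h2 : @LE.le (Two N) _ (u, s.2) s := ⟨hu1.trans ht', N.refl _ _⟩
    have h3 : @LE.le (Two N) _ (u, s.2) (m, y) := ⟨hu2, N.down _ _ _ hs.2 _ (hu1.trans ht')⟩
    have h4 : ((u, s.2) : Two N) ∈ IsFun F := down_IsFun F _ hF _ (h2.trans
      (hs.trans ⟨le_rfl, hy⟩))
    have h5 : d = c a m := IsFun.unique (P := Two N) h4 (down_meets _ _ hm _ h2)
      (down_meets (P := Two N) _ _ (hc a m hm1) _ h3)
    refine mem_fground.2 ?_
    rw [h5]
    exact hb _ (Set.mem_iUnion.2 ⟨a, m, hm1, rfl⟩)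

end Pool.Agent.Helper403.SK
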