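import Mathlib
import Pool.Agent.Helper403_SK.AStmts
import Pool.Agent.Helper669.KA2

set_option autoImplicit false

/-!
# The terms (job A1)
-/

namespace Pool.Agent.Helper403.SK.TA1

open Cardinal Set Pool.Agent.Helper669.Forcing Pool.Agent.Helper669.K Pool.Agent.Helper403.SK

section

variable {κ : Cardinal.{0}}

theorem exists_small_inj (γ : κ.ord.ToType) : ∃ g : Iio γ → κ.ord.ToType,
    Function.Injective g ∧ ∀ x, #(Iio (g x)) < #(Iio γ) := by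
  have h1 : (#(Iio γ)).ord ≤ κ.ord := ord_le_ord.2 (mk_Iio_toType_ord_lt γ).le
  have h2 : #(Iio γ) = #(#(Iio γ)).ord.ToType := (mk_ord_toType _).symm
  obtain ⟨e⟩ := Cardinal.eq.1 h2
  refine ⟨fun x => Ordinal.initialSegToType h1 (e x), ?_, fun x => ?_⟩
  · exact (Ordinal.initialSegToType h1).injective.comp e.injective
  · rw [← InitialSeg.image_Iio]
    exact mk_image_le.trans_lt (mk_Iio_toType_ord_lt _)

open Classical in
/-- `H γ γ'` is the image of `γ'` under an injection of the predecessors of `γ` into its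
cardinality -/
noncomputable def H (γ γ' : κ.ord.ToType) : κ.ord.ToType :=
  if h : γ' < γ then (exists_small_inj γ).choose ⟨γ', h⟩ else γ

theorem H_lt {γ γ' : κ.ord.ToType} (h : γ' < γ) : #(Iio (H γ γ')) < #(Iio γ) := by
  rw [H, dif_pos h]
  exact (exists_small_inj γ).choose_spec.2 _

theorem H_inj {γ γ' γ'' : κ.ord.ToType} (h : γ' < γ) (h' : γ'' < γ) (he : H γ γ' = H γ γ'') :
    γ' = γ'' := by
  rw [H, H, dif_pos h, dif_pos h'] at he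
  exact Subtype.ext_iff.1 ((exists_small_inj γ).choose_spec.1 he)

/-- labels of the terms -/
abbrev Lab (κ : Cardinal.{0}) (Λ : Type) : Type := Option κ.ord.ToType ⊕ Option Λ

/-- number of children -/
def Ch {Λ : Type} : Lab κ Λ → Type
  | Sum.inl _ => Empty
  | Sum.inr none => Bool
  | Sum.inr (some _) => Unit

variable {P : Type} [Preorder P] {Λ : Type}

/-- the conditions which decide the value of a term -/
def Val (Cd : Λ → κ.ord.ToType → κ.ord.ToType → Set P) :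
    WType (Ch (κ := κ) (Λ := Λ)) → κ.ord.ToType → κ.ord.ToType → Set P
  | WType.mk (Sum.inl none) _, ξ, γ => {_q | γ = ξ}
  | WType.mk (Sum.inl (some c)) _, _, γ => {_q | γ = c}
  | WType.mk (Sum.inr none) g, ξ, δ =>
    {q | ∃ γ γ', q ∈ Val Cd (g true) ξ γ ∧ q ∈ Val Cd (g false) ξ γ' ∧ δ = H γ γ'}
  | WType.mk (Sum.inr (some i)) g, ξ, c => {q | ∃ γ, q ∈ Val Cd (g ()) ξ γ ∧ q ∈ Cd i γ c}

variable {Cd : Λ → κ.ord.ToType → κ.ord.ToType → Set P}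

theorem val_down (hC : ∀ i γ c, Down (Cd i γ c)) (s : WType (Ch (κ := κ) (Λ := Λ))) :
    ∀ ξ γ, Down (Val Cd s ξ γ) := by
  induction s with
  | mk a g ih =>
    intro ξ γ q hq r hr
    rcases a with (_ | c) | (_ | i)
    · exact hq
    · exact hq
    · obtain ⟨γ1, γ2, h1, h2, h3⟩ := hq
      exact ⟨γ1, γ2, ih true ξ γ1 q h1 r hr, ih false ξ γ2 q h2 r hr, h3⟩
    · obtain ⟨γ1, h1, h2⟩ := hq
      exact ⟨γ1, ih () ξ γ1 q h1 r hr, hC i γ1 γ q h2 r hr⟩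

omit [Preorder P] in
theorem val_fn (hC : ∀ i γ c c' q, q ∈ Cd i γ c → q ∈ Cd i γ c' → c = c')
    (s : WType (Ch (κ := κ) (Λ := Λ))) :
    ∀ ξ γ γ' q, q ∈ Val Cd s ξ γ → q ∈ Val Cd s ξ γ' → γ = γ' := by
  induction s with
  | mk a g ih =>
    intro ξ γ γ' q hq hq'
    rcases a with (_ | c) | (_ | i)
    · exact Eq.trans hq hq'.symm
    · exact Eq.trans hq hq'.symm
    · obtain ⟨γ1, γ2, h1, h2, h3⟩ := hq
      obtain ⟨γ1', γ2', h1', h2', h3'⟩ := hq'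
      rw [h3, h3', ih true ξ γ1 γ1' q h1 h1', ih false ξ γ2 γ2' q h2 h2']
    · obtain ⟨γ1, h1, h2⟩ := hq
      obtain ⟨γ1', h1', h2'⟩ := hq'
      rw [ih () ξ γ1 γ1' q h1 h1'] at h2
      exact hC i γ1' γ γ' q h2 h2'

theorem val_dense (hC0 : ∀ i γ c, Down (Cd i γ c)) (hC : ∀ i γ q, ∃ q' ≤ q, ∃ c, q' ∈ Cd i γ c)
    (s : WType (Ch (κ := κ) (Λ := Λ))) : ∀ ξ q, ∃ q' ≤ q, ∃ γ, q' ∈ Val Cd s ξ γ := by
  induction s with
  | mk a g ih =>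
    intro ξ q
    rcases a with (_ | c) | (_ | i)
    · exact ⟨q, le_rfl, ξ, rfl⟩
    · exact ⟨q, le_rfl, c, rfl⟩
    · obtain ⟨q1, hq1, γ1, h1⟩ := ih true ξ q
      obtain ⟨q2, hq2, γ2, h2⟩ := ih false ξ q1
      exact ⟨q2, hq2.trans hq1, H γ1 γ2, γ1, γ2, val_down hC0 _ _ _ _ h1 _ hq2, h2, rfl⟩
    · obtain ⟨q1, hq1, γ1, h1⟩ := ih () ξ q
      obtain ⟨q2, hq2, c, h2⟩ := hC i γ1 q1
      exact ⟨q2, hq2.trans hq1, c, γ1, val_down hC0 _ _ _ _ h1 _ hq2, h2⟩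

end

/-- `q` forces `Y ∩ γ = Z ∩ γ` -/
def Agr {κ : Cardinal.{0}} {P : Type} [Preorder P] (γ : κ.ord.ToType)
    (Y Z : κ.ord.ToType → Set P) (q : P) : Prop :=
  ∀ β < γ, ∀ r ≤ q, r ∈ meets (Y β) ↔ r ∈ meets (Z β)

theorem Agr.down {κ : Cardinal.{0}} {P : Type} [Preorder P] {γ : κ.ord.ToType}
    {Y Z : κ.ord.ToType → Set P} {q q' : P} (h : Agr γ Y Z q) (hq : q' ≤ q) : Agr γ Y Z q' :=
  fun β hβ r hr => h β hβ r (hr.trans hq)

/-- the property of the conditions given by `PowSmall` -/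
def Good {κ : Cardinal.{0}} {P : Type} [Preorder P] (γ : κ.ord.ToType) (a : P) (n : ℕ)
    (F : κ.ord.ToType → κ.ord.ToType → Set P) : Prop :=
  ∀ Y : κ.ord.ToType → Set P, ∀ q1 ≤ a, ∃ q2 ≤ q1, ∃ c, #(Iio c) < plus #(Iio γ) n ∧
    Agr γ Y (F c) q2

/-- job A1 -/
theorem _root_.Pool.Agent.Helper403.SK.jobA1 : StmtA1 := by
  intro κ hκ P _ hpow Λ X hΛ
  -- the antichains
  have hA : ∀ γ : κ.ord.ToType, ∃ (M : Set P) (n : P → ℕ)
      (F : P → κ.ord.ToType → κ.ord.ToType → Set P), ℵ₀ ≤ #(Iio γ) →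
      (M.Pairwise (fun a b => ¬ ∃ r, r ≤ a ∧ r ≤ b) ∧ (∀ q, ∃ m ∈ M, ∃ r, r ≤ q ∧ r ≤ m) ∧
        ∀ m ∈ M, Good γ m (n m) (F m)) := by
    intro γ
    by_cases hγ : ℵ₀ ≤ #(Iio γ)
    · obtain ⟨M, hM1, hM2, hM3⟩ := h400_antichain {q' : P | ∃ n F, Good γ q' n F}
      have hch : ∀ m : P, ∃ (n : ℕ) (F : κ.ord.ToType → κ.ord.ToType → Set P),
          m ∈ M → Good γ m n F := by
        intro m
        by_cases hm : m ∈ M
        · obtain ⟨n, F, h⟩ := hM1 hm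
          exact ⟨n, F, fun _ => h⟩
        · exact ⟨0, fun _ _ => ∅, fun h => absurd h hm⟩
      choose n F hnF using hch
      refine ⟨M, n, F, fun _ => ⟨hM2, fun q => ?_, hnF⟩⟩
      obtain ⟨q', hq', n, F, h⟩ := hpow γ hγ q
      obtain ⟨m, hm, r, hr1, hr2⟩ := hM3 q' ⟨n, F, h⟩
      exact ⟨m, hm, r, hr1.trans hq', hr2⟩
    · exact ⟨∅, fun _ => 0, fun _ _ _ => ∅, fun h => absurd h hγ⟩
  choose M n F hMF using hA
  -- the codes
  obtain ⟨Cd, hCd⟩ : ∃ Cd : Λ → κ.ord.ToType → κ.ord.ToType → Set P, Cd = fun i γ c =>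
    {q | (¬ ℵ₀ ≤ #(Iio γ) ∧ c = γ) ∨ (ℵ₀ ≤ #(Iio γ) ∧ ∃ a ∈ M γ, q ≤ a ∧ Agr γ (X i) (F γ a c) q ∧
      ∀ c' < c, ∀ q' ≤ q, ¬ Agr γ (X i) (F γ a c') q')} := ⟨_, rfl⟩
  have huniq : ∀ γ, ℵ₀ ≤ #(Iio γ) → ∀ q a a', a ∈ M γ → a' ∈ M γ → q ≤ a → q ≤ a' → a = a' := by
    intro γ hγ q a a' ha ha' hq hq'
    by_contra hne
    exact (hMF γ hγ).1 ha ha' hne ⟨q, hq, hq'⟩
  have hdown : ∀ i γ c, Down (Cd i γ c) := by
    rw [hCd]
    rintro i γ c q (h | ⟨h, a, ha, hqa, h1, h2⟩) r hr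
    · exact Or.inl h
    · exact Or.inr ⟨h, a, ha, hr.trans hqa, h1.down hr, fun c' hc' q' hq' => h2 c' hc' q' (hq'.trans hr)⟩
  have hfn : ∀ i γ c c' q, q ∈ Cd i γ c → q ∈ Cd i γ c' → c = c' := by
    rw [hCd]
    rintro i γ c c' q (h | ⟨h, a, ha, hqa, h1, h2⟩) (h' | ⟨h', a', ha', hqa', h1', h2'⟩)
    · exact h.2.trans h'.2.symm
    · exact absurd h' h.1
    · exact absurd h h'.1
    · obtain rfl := huniq γ h q a a' ha ha' hqa hqa'
      rcases lt_trichotomy c c' with hlt | he | hlt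
      · exact absurd h1 (h2' c hlt q le_rfl)
      · exact he
      · exact absurd h1' (h2 c' hlt q le_rfl)
  have hdense : ∀ i γ q, ∃ q' ≤ q, ∃ c, q' ∈ Cd i γ c := by
    rw [hCd]
    intro i γ q
    by_cases hγ : ℵ₀ ≤ #(Iio γ)
    · obtain ⟨hM1, hM2, hM3⟩ := hMF γ hγ
      obtain ⟨a, ha, r, hrq, hra⟩ := hM2 q
      obtain ⟨q2, hq2, c, _, hagr⟩ := hM3 a ha (X i) r hra
      obtain ⟨c1, ⟨q3, hq3, h3⟩, hmin⟩ := WellFounded.has_min
        (wellFounded_lt : WellFounded ((· < ·) : κ.ord.ToType → κ.ord.ToType → Prop))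
        {c | ∃ q' ≤ r, Agr γ (X i) (F γ a c) q'} ⟨c, q2, hq2, hagr⟩
      refine ⟨q3, hq3.trans hrq, c1, Or.inr ⟨hγ, a, ha, hq3.trans hra, h3, ?_⟩⟩
      intro c' hc' q' hq' h'
      exact hmin c' ⟨q', hq'.trans hq3, h'⟩ hc'
    · exact ⟨q, le_rfl, γ, Or.inl ⟨hγ, rfl⟩⟩
  have hlt : ∀ i γ c q a, ℵ₀ ≤ #(Iio γ) → q ∈ Cd i γ c → a ∈ M γ → q ≤ a →
      #(Iio c) < plus #(Iio γ) (n γ a) := by
    rw [hCd]
    rintro i γ c q a hγ (h | ⟨h, a', ha', hqa', h1, h2⟩) ha hqa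
    · exact absurd hγ h.1
    · obtain rfl := huniq γ h q a a' ha ha' hqa hqa'
      obtain ⟨q2, hq2, c2, hc2, hagr⟩ := (hMF γ hγ).2.2 a ha (X i) q hqa
      refine (mk_le_mk_of_subset ?_).trans_lt hc2
      intro x hx
      by_contra hx'
      exact h2 c2 ((not_lt.1 hx').trans_lt hx) q2 hq2 hagr
  have hinj : ∀ i j γ c q, ℵ₀ ≤ #(Iio γ) → q ∈ Cd i γ c → q ∈ Cd j γ c →
      ∀ β < γ, ∀ r ≤ q, r ∈ meets (X i β) ↔ r ∈ meets (X j β) := by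
    rw [hCd]
    rintro i j γ c q hγ (h | ⟨h, a, ha, hqa, h1, h2⟩) (h' | ⟨h', a', ha', hqa', h1', h2'⟩)
    · exact absurd hγ h.1
    · exact absurd hγ h.1
    · exact absurd hγ h'.1
    · obtain rfl := huniq γ h q a a' ha ha' hqa hqa'
      intro β hβ r hr
      exact (h1 β hβ r hr).trans (h1' β hβ r hr).symm
  have hκΛ : κ ≤ plusOmega κ := by
    refine (le_ciSup (f := fun n => plus κ n) ?_ 0)
    exact bddAbove_of_small
  have hΛ0 : ℵ₀ ≤ plusOmega κ := hκ.1.le.trans hκΛ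
  refine ⟨{
    T := WType (Ch (κ := κ) (Λ := Λ))
    card := ?_
    Val := Val Cd
    down := val_down hdown
    fn := val_fn hfn
    dense := val_dense hdown hdense
    idt := WType.mk (Sum.inl none) Empty.elim
    val_idt := fun _ _ => rfl
    cst := fun c => WType.mk (Sum.inl (some c)) Empty.elim
    val_cst := fun _ _ _ => rfl
    hh := fun s s' => WType.mk (Sum.inr none) (Bool.rec s' s)
    hh_lt := ?_
    hh_inj := ?_
    NN := fun γ m => {q | ∃ a ∈ M γ, q ≤ a ∧ n γ a = m}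
    NN_down := ?_
    NN_dense := ?_
    NN_fn := ?_
    code := fun i s => WType.mk (Sum.inr (some i)) fun _ => s
    code_lt := ?_
    code_inj := ?_ }⟩
  · have : ∀ a : Lab κ Λ, Finite (Ch a) := by
      rintro (_ | (_ | _))
      · exact inferInstanceAs (Finite Empty)
      · exact inferInstanceAs (Finite Bool)
      · exact inferInstanceAs (Finite Unit)
    refine (WType.cardinalMk_le_max_aleph0_of_finite (β := Ch (κ := κ) (Λ := Λ))).trans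
      (max_le ?_ hΛ0)
    rw [mk_sum, lift_id, lift_id, mk_option, mk_option, mk_ord_toType, hΛ,
      add_one_eq hκ.1.le, add_one_eq hΛ0, add_eq_right hΛ0 hκΛ]
  · intro s s' ξ γ γ' δ q h1 h2 h3 h4
    obtain ⟨γ1, γ2, h5, h6, rfl⟩ := h4
    have h5' : q ∈ Val Cd s ξ γ1 := h5
    have h6' : q ∈ Val Cd s' ξ γ2 := h6
    rw [val_fn hfn s ξ γ1 γ q h5' h1, val_fn hfn s' ξ γ2 γ' q h6' h2]
    exact H_lt h3
  · intro s s' s'' ξ γ γ' γ'' δ q h1 h2 h3 h4 h5 h6 h7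
    obtain ⟨γ1, γ2, h8, h9, h10⟩ := h6
    obtain ⟨γ3, γ4, h11, h12, h13⟩ := h7
    have h8' : q ∈ Val Cd s ξ γ1 := h8
    have h9' : q ∈ Val Cd s' ξ γ2 := h9
    have h11' : q ∈ Val Cd s ξ γ3 := h11
    have h12' : q ∈ Val Cd s'' ξ γ4 := h12
    rw [val_fn hfn s ξ γ1 γ q h8' h1, val_fn hfn s' ξ γ2 γ' q h9' h2] at h10
    rw [val_fn hfn s ξ γ3 γ q h11' h1, val_fn hfn s'' ξ γ4 γ'' q h12' h3] at h13
    exact H_inj h4 h5 (h10.symm.trans h13)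
  · rintro γ m q ⟨a, ha, hqa, h⟩ r hr
    exact ⟨a, ha, hr.trans hqa, h⟩
  · intro γ hγ q
    obtain ⟨a, ha, r, hrq, hra⟩ := (hMF γ hγ).2.1 q
    exact ⟨r, hrq, _, a, ha, hra, rfl⟩
  · rintro γ hγ q m m' ⟨a, ha, hqa, rfl⟩ ⟨a', ha', hqa', rfl⟩
    rw [huniq γ hγ q a a' ha ha' hqa hqa']
  · intro i s ξ γ c m q hγ h1 h2 h3
    obtain ⟨a, ha, hqa, rfl⟩ := h2
    obtain ⟨γ1, h4, h5⟩ := h3
    have h4' : q ∈ Val Cd s ξ γ1 := h4
    rw [val_fn hfn s ξ γ1 γ q h4' h1] at h5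
    exact hlt i γ c q a hγ h5 ha hqa
  · intro i j s ξ γ c q hγ h1 h2 h3
    obtain ⟨γ1, h4, h5⟩ := h2
    obtain ⟨γ2, h6, h7⟩ := h3
    have h4' : q ∈ Val Cd s ξ γ1 := h4
    have h6' : q ∈ Val Cd s ξ γ2 := h6
    rw [val_fn hfn s ξ γ1 γ q h4' h1] at h5
    rw [val_fn hfn s ξ γ2 γ q h6' h1] at h7
    exact hinj i j γ c q hγ h5 h7

end Pool.Agent.Helper403.SK.TA1
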