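import Mathlib
import Pool.Agent.Helper403_SK.AStmts
import Pool.Agent.Helper669.KA2
import Pool.Agent.Helper669.KA4
import Pool.Agent.W873.Tp.Large2

set_option autoImplicit false

/-!
# Job A2: the upper bound from the terms and the combinatorial core
-/

namespace Pool.Agent.Helper403.SK.TA2

open Cardinal Set Pool.Agent.Helper669.Forcing Pool.Agent.Helper669.K Pool.Agent.W873.Tp

section AE

variable {P : Type} [Preorder P] {κ : Cardinal.{0}}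

/-- the condition forces `φ ξ` for all `ξ > b` in `A` -/
def AEb (A φ : κ.ord.ToType → Set P) (b : κ.ord.ToType) : Set P :=
  {q | ∀ ξ, b < ξ → ∀ r ≤ q, r ∈ meets (A ξ) → ∃ r' ≤ r, r' ∈ φ ξ}

/-- the condition forces `φ ξ` for almost all `ξ` in `A`, with a bound from the ground model -/
def AE (A φ : κ.ord.ToType → Set P) : Set P := {q | ∃ b, q ∈ AEb A φ b}

theorem down_AEb (A φ : κ.ord.ToType → Set P) (b : κ.ord.ToType) : Down (AEb A φ b) :=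
  fun _ hp _ hq ξ hξ r hr h => hp ξ hξ r (hr.trans hq) h

theorem down_AE (A φ : κ.ord.ToType → Set P) : Down (AE A φ) :=
  fun _ hp _ hq => hp.elim fun b hb => ⟨b, down_AEb A φ b _ hb _ hq⟩

theorem AEb_mono {A φ : κ.ord.ToType → Set P} {b b' : κ.ord.ToType} (h : b ≤ b') {q : P}
    (hq : q ∈ AEb A φ b) : q ∈ AEb A φ b' :=
  fun ξ hξ r hr hm => hq ξ (h.trans_lt hξ) r hr hm

theorem AE_map {A φ χ : κ.ord.ToType → Set P} {q : P} (h : q ∈ AE A φ)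
    (hm : ∀ ξ, ∀ r ≤ q, r ∈ φ ξ → ∃ r' ≤ r, r' ∈ χ ξ) : q ∈ AE A χ := by
  obtain ⟨b, hb⟩ := h
  refine ⟨b, fun ξ hξ r hr hr' => ?_⟩
  obtain ⟨r1, hr1, h1⟩ := hb ξ hξ r hr hr'
  obtain ⟨r2, hr2, h2⟩ := hm ξ r1 (hr1.trans hr) h1
  exact ⟨r2, hr2.trans hr1, h2⟩

theorem AE_and {A φ ψ : κ.ord.ToType → Set P} {q : P} (hφ : ∀ ξ, Down (φ ξ)) (h1 : q ∈ AE A φ)
    (h2 : q ∈ AE A ψ) : q ∈ AE A (fun ξ => φ ξ ∩ ψ ξ) := by
  obtain ⟨b1, hb1⟩ := h1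
  obtain ⟨b2, hb2⟩ := h2
  refine ⟨max b1 b2, fun ξ hξ r hr hr' => ?_⟩
  obtain ⟨r1, hr1, h1⟩ := hb1 ξ ((le_max_left _ _).trans_lt hξ) r hr hr'
  obtain ⟨r2, hr2, h2⟩ := hb2 ξ ((le_max_right _ _).trans_lt hξ) r1 (hr1.trans hr)
    (down_meets _ _ hr' _ hr1)
  exact ⟨r2, hr2.trans hr1, hφ ξ _ h1 _ hr2, h2⟩

theorem exists_mem_gt (hκ : ℵ₀ ≤ κ) {A : κ.ord.ToType → Set P} {p : P} (hA : p ∈ HasFullSize A)
    {q : P} (hq : q ≤ p) (b : κ.ord.ToType) : ∃ r ≤ q, ∃ ξ, b < ξ ∧ r ∈ meets (A ξ) := by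
  have : NoMaxOrder κ.ord.ToType := Cardinal.noMaxOrder hκ
  obtain ⟨b', hb'⟩ := exists_gt b
  obtain ⟨r, hr, γ, hγ, hm⟩ := unb833 A p hA q hq b'
  exact ⟨r, hr, γ, hb'.trans_le hγ, hm⟩

theorem AE_point (hκ : ℵ₀ ≤ κ) {A φ : κ.ord.ToType → Set P} {p : P} (hA : p ∈ HasFullSize A)
    {q : P} (hq : q ≤ p) (h : q ∈ AE A φ) (b : κ.ord.ToType) :
    ∃ r ≤ q, ∃ ξ, b < ξ ∧ r ∈ meets (A ξ) ∧ r ∈ φ ξ := by
  obtain ⟨b1, hb1⟩ := h
  obtain ⟨r, hr, ξ, hξ, hm⟩ := exists_mem_gt hκ hA hq (max b b1)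
  obtain ⟨r1, hr1, h1⟩ := hb1 ξ ((le_max_right _ _).trans_lt hξ) r hr hm
  exact ⟨r1, hr1.trans hr, ξ, (le_max_left _ _).trans_lt hξ, down_meets _ _ hm _ hr1, h1⟩

/-- if no extension of `q` forces `B` to have full size, then some extension bounds `B` -/
theorem bounded_of_not_full (hκ : ℵ₀ ≤ κ) (hreg : ∀ q : P, q ∈ StaysRegular P κ)
    (B : κ.ord.ToType → Set P) (q : P) (hq : q ∉ HasFullSize B) :
    ∃ q' ≤ q, ∃ β, ∀ r ≤ q', ∀ γ, β ≤ γ → r ∉ meets (B γ) := by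
  by_contra hcon
  push Not at hcon
  exact hq (hasFullSize_of_unbounded hκ hreg B q hcon)

end AE

section fam

variable {P : Type} [Preorder P] {κ : Cardinal.{0}}

/-- the name `G` if it has full size, everything otherwise -/
def fix (G : κ.ord.ToType → Set P) : κ.ord.ToType → Set P :=
  fun ξ => {q | q ∈ HasFullSize G ∧ q ∈ G ξ} ∪ fnot (HasFullSize G)

theorem down_full (G : κ.ord.ToType → Set P) : Down (HasFullSize G) :=
  down_fall fun _ => down_fall fun _ => down_fnot _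

theorem fix_full (hκ : ℵ₀ ≤ κ) (hreg : ∀ q : P, q ∈ StaysRegular P κ)
    (G : κ.ord.ToType → Set P) (hG : ∀ ξ, Down (G ξ)) (q : P) : q ∈ HasFullSize (fix G) := by
  refine hasFullSize_of_unbounded hκ hreg _ q fun q' _ β => ?_
  by_cases h : ∃ q'' ≤ q', q'' ∈ HasFullSize G
  · obtain ⟨q'', hq'', hf⟩ := h
    obtain ⟨r, hr, γ, hγ, hm⟩ := unb833 G q'' hf q'' le_rfl β
    obtain ⟨r1, hr1, h1⟩ := exists_of_meets (hG γ) hm
    exact ⟨r1, hr1.trans (hr.trans hq''), γ, hγ,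
      meets_of_mem (Or.inl ⟨down_full G _ hf _ (hr1.trans hr), h1⟩)⟩
  · push Not at h
    exact ⟨q', le_rfl, β, le_rfl, meets_of_mem (Or.inr h)⟩

/-- if `A` is not split by `fix G` then it is decided whether almost all elements of `A` are
in `G` or almost all are not in `G` -/
theorem decide_of_unsplit (hκ : ℵ₀ ≤ κ) (hreg : ∀ q : P, q ∈ StaysRegular P κ)
    (G : κ.ord.ToType → Set P) (hG : ∀ ξ, Down (G ξ)) (A : κ.ord.ToType → Set P) (q : P)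
    (hq : ∀ q' ≤ q, q' ∉ Splits (fix G) A) :
    ∃ q' ≤ q, q' ∈ AE A G ∨ q' ∈ AE A (fun ξ => fnot (G ξ)) := by
  by_cases h : ∃ q1 ≤ q, q1 ∈ HasFullSize G
  · obtain ⟨q1, hq1, hf⟩ := h
    have h1 := hq q1 hq1
    rw [Splits, mem_fand, not_and_or] at h1
    rcases h1 with h1 | h1
    · obtain ⟨q2, hq2, β, hβ⟩ := bounded_of_not_full hκ hreg _ q1 h1
      refine ⟨q2, hq2.trans hq1, Or.inr ⟨β, fun ξ hξ r hr hr' => ?_⟩⟩
      refine ⟨r, le_rfl, fun s hs hsG => ?_⟩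
      refine hβ s (hs.trans hr) ξ hξ.le (meets_of_mem ⟨down_meets _ _ hr' _ hs, ?_⟩)
      exact meets_of_mem (Or.inl ⟨down_full G _ hf _ (hs.trans (hr.trans hq2)), hsG⟩)
    · obtain ⟨q2, hq2, β, hβ⟩ := bounded_of_not_full hκ hreg _ q1 h1
      refine ⟨q2, hq2.trans hq1, Or.inl ⟨β, fun ξ hξ r hr hr' => ?_⟩⟩
      by_contra hcon
      push Not at hcon
      refine hβ r hr ξ hξ.le (meets_of_mem ⟨hr', fun s hs hsm => ?_⟩)
      obtain ⟨s1, hs1, s2, hs2, h12⟩ := hsm s le_rfl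
      rcases hs2 with hs2 | hs2
      · exact hcon s1 (hs1.trans hs) (hG ξ _ hs2.2 _ h12)
      · exact hs2 s1 h12 (down_full G _ hf _ (hs1.trans (hs.trans (hr.trans hq2))))
  · push Not at h
    obtain ⟨q2, hq2, β, hβ⟩ := bounded_of_not_full hκ hreg G q (h q le_rfl)
    refine ⟨q2, hq2, Or.inr ⟨β, fun ξ hξ r hr hr' => ?_⟩⟩
    exact ⟨r, le_rfl, fun s hs hsG => hβ s (hs.trans hr) ξ hξ.le (meets_of_mem hsG)⟩

end fam

section main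

variable {P : Type} [Preorder P] {κ : Cardinal.{0}} {Λ : Type} {X : Λ → κ.ord.ToType → Set P}
  (TT : Terms κ P Λ X)

/-- `s ξ < s' ξ` -/
def Gl (s s' : TT.T) (ξ : κ.ord.ToType) : Set P :=
  {q | ∃ γ γ', γ < γ' ∧ q ∈ TT.Val s ξ γ ∧ q ∈ TT.Val s' ξ γ'}

/-- `s ξ = s' ξ` -/
def Ge (s s' : TT.T) (ξ : κ.ord.ToType) : Set P :=
  {q | ∃ γ, q ∈ TT.Val s ξ γ ∧ q ∈ TT.Val s' ξ γ}

/-- `n (t ξ) = m` -/
def Gn (t : TT.T) (m : ℕ) (ξ : κ.ord.ToType) : Set P :=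
  {q | ∃ γ, q ∈ TT.Val t ξ γ ∧ q ∈ TT.NN γ m}

/-- the cardinality of `s ξ` is less than the `k`-th successor of the one of `t ξ` -/
def Gb (t : TT.T) (k : ℕ) (s : TT.T) (ξ : κ.ord.ToType) : Set P :=
  {q | ∃ γ c, q ∈ TT.Val t ξ γ ∧ q ∈ TT.Val s ξ c ∧ #(Iio c) < plus #(Iio γ) k}

theorem down_Gl (s s' : TT.T) (ξ : κ.ord.ToType) : Down (Gl TT s s' ξ) := by
  rintro q ⟨γ, γ', h, h1, h2⟩ q' hq'
  exact ⟨γ, γ', h, TT.down _ _ _ _ h1 _ hq', TT.down _ _ _ _ h2 _ hq'⟩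

theorem down_Ge (s s' : TT.T) (ξ : κ.ord.ToType) : Down (Ge TT s s' ξ) := by
  rintro q ⟨γ, h1, h2⟩ q' hq'
  exact ⟨γ, TT.down _ _ _ _ h1 _ hq', TT.down _ _ _ _ h2 _ hq'⟩

theorem down_Gn (t : TT.T) (m : ℕ) (ξ : κ.ord.ToType) : Down (Gn TT t m ξ) := by
  rintro q ⟨γ, h1, h2⟩ q' hq'
  exact ⟨γ, TT.down _ _ _ _ h1 _ hq', TT.NN_down _ _ _ h2 _ hq'⟩

theorem down_Gb (t : TT.T) (k : ℕ) (s : TT.T) (ξ : κ.ord.ToType) : Down (Gb TT t k s ξ) := by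
  rintro q ⟨γ, c, h1, h2, h3⟩ q' hq'
  exact ⟨γ, c, TT.down _ _ _ _ h1 _ hq', TT.down _ _ _ _ h2 _ hq', h3⟩

/-- two values at once -/
theorem dense2 (s s' : TT.T) (ξ : κ.ord.ToType) (q : P) :
    ∃ q' ≤ q, ∃ γ γ', q' ∈ TT.Val s ξ γ ∧ q' ∈ TT.Val s' ξ γ' := by
  obtain ⟨q1, hq1, γ, h1⟩ := TT.dense s ξ q
  obtain ⟨q2, hq2, γ', h2⟩ := TT.dense s' ξ q1
  exact ⟨q2, hq2.trans hq1, γ, γ', TT.down _ _ _ _ h1 _ hq2, h2⟩

variable {A : κ.ord.ToType → Set P} {p : P}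

theorem tri (hdec : ∀ s s', ∀ q ≤ p, ∃ q' ≤ q, q' ∈ AE A (Gl TT s s') ∨
      q' ∈ AE A (fun ξ => fnot (Gl TT s s' ξ))) (s s' : TT.T) (q : P) (hq : q ≤ p) :
    ∃ q' ≤ q, q' ∈ AE A (Gl TT s s') ∨ q' ∈ AE A (Ge TT s s') ∨ q' ∈ AE A (Gl TT s' s) := by
  obtain ⟨q1, hq1, h1⟩ := hdec s s' q hq
  rcases h1 with h1 | h1
  · exact ⟨q1, hq1, Or.inl h1⟩
  obtain ⟨q2, hq2, h2⟩ := hdec s' s q1 (hq1.trans hq)
  rcases h2 with h2 | h2
  · exact ⟨q2, hq2.trans hq1, Or.inr (Or.inr h2)⟩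
  refine ⟨q2, hq2.trans hq1, Or.inr (Or.inl ?_)⟩
  refine AE_map (AE_and (fun ξ => down_fnot _) (down_AE _ _ _ h1 _ hq2) h2) ?_
  rintro ξ r hr ⟨hr1, hr2⟩
  obtain ⟨r1, hr1', γ, γ', hv, hv'⟩ := dense2 TT s s' ξ r
  refine ⟨r1, hr1', ?_⟩
  rcases lt_trichotomy γ γ' with h | h | h
  · exact absurd ⟨γ, γ', h, hv, hv'⟩ (hr1 r1 hr1')
  · subst h
    exact ⟨γ, hv, hv'⟩
  · exact absurd ⟨γ', γ, h, hv', hv⟩ (hr2 r1 hr1')

theorem Ge_symm {s s' : TT.T} {q : P} (h : q ∈ AE A (Ge TT s s')) : q ∈ AE A (Ge TT s' s) :=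
  AE_map h fun _ r _ hr => hr.elim fun γ hγ => ⟨r, le_rfl, γ, hγ.2, hγ.1⟩

theorem Ge_cst {s s' : TT.T} {c : κ.ord.ToType} {q : P} (h : q ∈ AE A (Ge TT s (TT.cst c)))
    (h' : q ∈ AE A (Ge TT s' (TT.cst c))) : q ∈ AE A (Ge TT s s') := by
  refine AE_map (AE_and (fun ξ => down_Ge TT _ _ ξ) h h') ?_
  rintro ξ r hr ⟨⟨γ, h1, h2⟩, γ', h3, h4⟩
  have e1 := TT.fn _ _ _ _ _ h2 (TT.val_cst c ξ r)
  have e2 := TT.fn _ _ _ _ _ h4 (TT.val_cst c ξ r)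
  subst e1
  subst e2
  exact ⟨r, le_rfl, _, h1, h3⟩

/-- `t` is not constant on an unbounded subset of `A` -/
def NC (A : κ.ord.ToType → Set P) (t : TT.T) (q : P) : Prop :=
  ∀ q' ≤ q, ∀ c, q' ∉ AE A (Ge TT t (TT.cst c))

theorem NC_id (hκ : ℵ₀ ≤ κ) (hA : p ∈ HasFullSize A) : NC TT A TT.idt p := by
  intro q' hq' c h
  obtain ⟨r, hr, ξ, hξ, _, γ, h1, h2⟩ := AE_point hκ hA hq' h c
  have e1 := TT.fn _ _ _ _ _ h1 (TT.val_idt ξ r)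
  have e2 := TT.fn _ _ _ _ _ h2 (TT.val_cst c ξ r)
  rw [← e1, e2] at hξ
  exact lt_irrefl _ hξ

/-- Step 1: a minimal nonconstant term -/
theorem exists_min (hκ : κ.IsInaccessible) (hσ : DirClosed ℵ₁ P) (hA : p ∈ HasFullSize A) :
    ∃ q ≤ p, ∃ t, NC TT A t q ∧
      ∀ s, ∀ q' ≤ q, q' ∈ AE A (Gl TT s t) → ∃ q'' ≤ q', ∃ c, q'' ∈ AE A (Ge TT s (TT.cst c)) := by
  classical
  by_contra hcon
  push Not at hcon
  have hκ0 : ℵ₀ ≤ κ := hκ.1.le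
  have hreg : κ.IsRegular := hκ.isRegular
  -- the descending sequence
  let Sd := {x : P × TT.T // x.1 ≤ p ∧ NC TT A x.2 x.1}
  have hstep : ∀ x : Sd, ∃ y : Sd, y.1.1 ≤ x.1.1 ∧ y.1.1 ∈ AE A (Gl TT y.1.2 x.1.2) := by
    rintro ⟨⟨q, t⟩, hq, hnc⟩
    obtain ⟨s, q', hq', hlt, hnc'⟩ := hcon q hq t hnc
    exact ⟨⟨⟨q', s⟩, hq'.trans hq, hnc'⟩, hq', hlt⟩
  choose nx hnx1 hnx2 using hstep
  let f : ℕ → Sd := fun n => Nat.rec ⟨(p, TT.idt), le_rfl, NC_id TT hκ0 hA⟩ (fun _ x => nx x) n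
  have hf : ∀ n, f (n + 1) = nx (f n) := fun n => rfl
  have hmono : ∀ n, (f (n + 1)).1.1 ≤ (f n).1.1 := fun n => by rw [hf]; exact hnx1 _
  have hlt : ∀ n, (f (n + 1)).1.1 ∈ AE A (Gl TT (f (n + 1)).1.2 (f n).1.2) := fun n => by
    rw [hf]; exact hnx2 _
  have hanti : ∀ m n, m ≤ n → (f n).1.1 ≤ (f m).1.1 := by
    intro m n hmn
    induction hmn with
    | refl => exact le_rfl
    | step _ ih => exact (hmono _).trans ih
  obtain ⟨qs, hqs⟩ := hσ (Set.range fun n => (f n).1.1)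
    (lt_of_le_of_lt Cardinal.mk_range_le (by
      rw [Cardinal.mk_nat]; exact Cardinal.aleph0_lt_aleph_one))
    (Set.range_nonempty _) (by
      rintro _ ⟨m, rfl⟩ _ ⟨n, rfl⟩
      exact ⟨_, ⟨max m n, rfl⟩, hanti _ _ (le_max_left _ _), hanti _ _ (le_max_right _ _)⟩)
  have hqs' : ∀ n, qs ≤ (f n).1.1 := fun n => hqs _ ⟨n, rfl⟩
  choose b hb using hlt
  obtain ⟨B, hB⟩ := bdd_seq833 hreg hκ.1 b
  obtain ⟨q1, hq1, ξ, hξ, hm⟩ := exists_mem_gt hκ0 hA ((hqs' 0).trans (f 0).2.1) B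
  obtain ⟨q2, hq2, h2⟩ := exists_forall_mem (κ := ℵ₁) (Cardinal.aleph0_lt_aleph_one).le hσ (N := ℕ)
    (by rw [Cardinal.mk_nat]; exact Cardinal.aleph0_lt_aleph_one)
    (fun n => {r | ∃ γ, r ∈ TT.Val (f n).1.2 ξ γ})
    (fun n r hr r' hr' => hr.elim fun γ hγ => ⟨γ, TT.down _ _ _ _ hγ _ hr'⟩)
    (fun n q => TT.dense _ ξ q) q1
  choose γ hγ using h2
  have hdesc : ∀ n, γ (n + 1) < γ n := by
    intro n
    obtain ⟨r, hr, γ1, γ2, h12, hv1, hv2⟩ := hb n ξ ((hB n).trans_lt hξ) q2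
      (hq2.trans (hq1.trans (hqs' (n + 1)))) (down_meets _ _ hm _ hq2)
    have e1 := TT.fn _ _ _ _ _ hv1 (TT.down _ _ _ _ (hγ (n + 1)) _ hr)
    have e2 := TT.fn _ _ _ _ _ hv2 (TT.down _ _ _ _ (hγ n) _ hr)
    rw [← e1, ← e2]
    exact h12
  exact (RelEmbedding.natGT γ hdesc).not_wellFounded (wellFounded_lt)

/-- Step 2: a minimal nonconstant term is above all constants -/
theorem above_cst (hκ : κ.IsInaccessible) (hreg : ∀ q : P, q ∈ StaysRegular P κ)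
    (hA : p ∈ HasFullSize A)
    (hdec : ∀ s s', ∀ q ≤ p, ∃ q' ≤ q, q' ∈ AE A (Gl TT s s') ∨
      q' ∈ AE A (fun ξ => fnot (Gl TT s s' ξ))) {t : TT.T} {q : P} (hqp : q ≤ p)
    (hnc : NC TT A t q) (c : κ.ord.ToType) :
    ∀ q1 ≤ q, ∃ q2 ≤ q1, q2 ∈ AE A (Gl TT (TT.cst c) t) := by
  classical
  have hκ0 : ℵ₀ ≤ κ := hκ.1.le
  induction c using WellFoundedLT.induction with
  | _ c ih =>
  intro q1 hq1
  obtain ⟨q2, hq2, h2⟩ := tri TT hdec (TT.cst c) t q1 (hq1.trans hqp)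
  rcases h2 with h2 | h2 | h2
  · exact ⟨q2, hq2, h2⟩
  · exact absurd (Ge_symm TT h2) (hnc q2 (hq2.trans hq1) c)
  exfalso
  obtain ⟨b2, hb2⟩ := h2
  -- the named function of the bounds
  have hν : #(Iio c) < κ := mk_Iio_lt' c
  let e : (#(Iio c)).out ≃ Iio c := Cardinal.outMkEquiv
  let R : (#(Iio c)).out → κ.ord.ToType → Set P := fun x y =>
    {r | r ∈ AEb A (Gl TT (TT.cst (e x : κ.ord.ToType)) t) y ∧
      ∀ y' < y, ∀ r' ≤ r, r' ∉ AEb A (Gl TT (TT.cst (e x : κ.ord.ToType)) t) y'}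
  have hR : ∀ x, ∀ r ≤ q2, ∃ r' ≤ r, ∃ y, r' ∈ R x y := by
    intro x r hr
    have hex : ∃ y, ∃ r' ≤ r, r' ∈ AEb A (Gl TT (TT.cst (e x : κ.ord.ToType)) t) y := by
      obtain ⟨r', hr', y, hy⟩ := ih (e x) (e x).2 r (hr.trans (hq2.trans hq1))
      exact ⟨y, r', hr', hy⟩
    obtain ⟨y, ⟨r', hr', hy⟩, hmin⟩ := WellFounded.has_min (wellFounded_lt)
      {y | ∃ r' ≤ r, r' ∈ AEb A (Gl TT (TT.cst (e x : κ.ord.ToType)) t) y} hex
    refine ⟨r', hr', y, hy, fun y' hy' r'' hr'' h => ?_⟩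
    exact hmin y' ⟨r'', hr''.trans hr', h⟩ hy'
  have hfun : q2 ∈ IsFun R := by
    refine ⟨fun x => ?_, fun x y y' => ?_⟩
    · refine mem_fex.2 fun r hr => ?_
      obtain ⟨r', hr', y, hy⟩ := hR x r hr
      exact ⟨r', hr', y, meets_of_mem hy⟩
    · refine mem_fimp.2 fun r _ hr => ⟨r, le_rfl, ?_⟩
      obtain ⟨r1, hr1, s1, hs1, h1⟩ := hr.1 r le_rfl
      obtain ⟨r2, hr2, s2, hs2, h2⟩ := hr.2 r1 hr1
      have h1' : r2 ≤ s1 := hr2.trans h1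
      rcases lt_trichotomy y y' with h | h | h
      · exact absurd (down_AEb _ _ _ _ hs1.1 _ h1') (hs2.2 y h r2 h2)
      · exact h
      · exact absurd (down_AEb _ _ _ _ hs2.1 _ h2) (hs1.2 y' h r2 h1')
  obtain ⟨q3, hq3, h3⟩ := mem_fimp.1 (hreg q2 _ hν R) q2 le_rfl hfun
  obtain ⟨q4, hq4, b, hb⟩ := mem_fex.1 h3 q3 le_rfl
  obtain ⟨r, hr, ξ, hξ, hm⟩ := exists_mem_gt hκ0 hA
    (hq4.trans (hq3.trans (hq2.trans (hq1.trans hqp)))) (max b b2)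
  obtain ⟨r1, hr1, γ, γ', hlt, hv, hv'⟩ := hb2 ξ ((le_max_right _ _).trans_lt hξ) r
    (hr.trans (hq4.trans hq3)) hm
  have e1 : γ' = c := TT.fn _ _ _ _ _ hv' (TT.val_cst c ξ r1)
  subst e1
  obtain ⟨r2, hr2, y, hy⟩ := hR (e.symm ⟨γ, hlt⟩) r1 (hr1.trans (hr.trans (hq4.trans hq3)))
  have hyb : y < b := by
    obtain ⟨_, _, h⟩ := mem_fimp.1 (hb (e.symm ⟨γ, hlt⟩) y) r2 (hr2.trans (hr1.trans hr))
      (meets_of_mem hy)
    exact h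
  obtain ⟨r3, hr3, δ, δ', hδ, hw, hw'⟩ := hy.1 ξ (hyb.trans ((le_max_left _ _).trans_lt hξ)) r2
    le_rfl (down_meets _ _ hm _ (hr2.trans hr1))
  rw [Equiv.apply_symm_apply] at hw
  have e2 : δ = γ := TT.fn _ _ _ _ _ hw (TT.val_cst γ ξ r3)
  have e3 : δ' = γ := TT.fn _ _ _ _ _ hw' (TT.down _ _ _ _ hv _ (hr3.trans hr2))
  rw [e2, e3] at hδ
  exact lt_irrefl _ hδ

/-- a point of `A` at which a condition of size `c0` etc. are decided -/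
theorem point_above (hκ : κ.IsInaccessible) (hA : p ∈ HasFullSize A) {t : TT.T} {q : P}
    (hqp : q ≤ p) {c : κ.ord.ToType} (hc : q ∈ AE A (Gl TT (TT.cst c) t)) (b : κ.ord.ToType) :
    ∃ r ≤ q, ∃ ξ, b < ξ ∧ r ∈ meets (A ξ) ∧ ∃ γ, c < γ ∧ r ∈ TT.Val t ξ γ := by
  obtain ⟨r, hr, ξ, hξ, hm, γ, γ', hlt, hv, hv'⟩ := AE_point hκ.1.le hA hqp hc b
  have e1 : γ = c := TT.fn _ _ _ _ _ hv (TT.val_cst c ξ r)
  rw [e1] at hlt
  exact ⟨r, hr, ξ, hξ, hm, γ', hlt, hv'⟩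

theorem mk_Iio_mono {a b : κ.ord.ToType} (h : a ≤ b) : #(Iio a) ≤ #(Iio b) :=
  Cardinal.mk_le_mk_of_subset (Set.Iio_subset_Iio h)

theorem lt_of_mk_Iio_lt {a b : κ.ord.ToType} (h : #(Iio a) < #(Iio b)) : a < b := by
  by_contra hcon
  exact absurd (mk_Iio_mono (not_lt.1 hcon)) (not_le.2 h)

/-- the main part: an unsplit set gives a contradiction -/
theorem main (h3 : StmtA3) (hκ : κ.IsInaccessible) (hσ : DirClosed ℵ₁ P)
    (hreg : ∀ q : P, q ∈ StaysRegular P κ) (hcc : CC P κ) (hΛ : ∀ n, plus κ n ≤ #Λ)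
    (hX : Distinct X) (hA : p ∈ HasFullSize A)
    (hdec : ∀ s s', ∀ q ≤ p, ∃ q' ≤ q, q' ∈ AE A (Gl TT s s') ∨
      q' ∈ AE A (fun ξ => fnot (Gl TT s s' ξ)))
    (hdecn : ∀ t m, ∀ q ≤ p, ∃ q' ≤ q, q' ∈ AE A (Gn TT t m) ∨
      q' ∈ AE A (fun ξ => fnot (Gn TT t m ξ))) : False := by
  classical
  have hκ0 : ℵ₀ ≤ κ := hκ.1.le
  obtain ⟨q, hqp, t, hnc, hmin⟩ := exists_min TT hκ hσ hA
  have habove := fun c => above_cst TT hκ hreg hA hdec hqp hnc c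
  obtain ⟨c0, hc0⟩ := exists_mk_Iio hκ.1
  have hinf : ∀ {γ : κ.ord.ToType}, c0 < γ → ℵ₀ ≤ #(Iio γ) := fun {γ} h => by
    rw [← hc0]; exact mk_Iio_mono h.le
  obtain ⟨qa, hqa, hca⟩ := habove c0 q le_rfl
  -- Step 3: decide the number
  obtain ⟨qb, hqb, hb⟩ := exists_forall_mem (κ := ℵ₁) (Cardinal.aleph0_lt_aleph_one).le hσ (N := ℕ)
    (by rw [Cardinal.mk_nat]; exact Cardinal.aleph0_lt_aleph_one)
    (fun m => {r | r ∈ AE A (Gn TT t m) ∨ r ∈ AE A (fun ξ => fnot (Gn TT t m ξ)) ∨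
      ∀ s ≤ r, ¬ s ≤ p})
    (by
      rintro m r (hr | hr | hr) r' hr'
      · exact Or.inl (down_AE _ _ _ hr _ hr')
      · exact Or.inr (Or.inl (down_AE _ _ _ hr _ hr'))
      · exact Or.inr (Or.inr fun s hs => hr s (hs.trans hr')))
    (by
      intro m r
      by_cases h : ∃ s ≤ r, s ≤ p
      · obtain ⟨s, hs, hsp⟩ := h
        obtain ⟨s', hs', h'⟩ := hdecn t m s hsp
        rcases h' with h' | h'
        · exact ⟨s', hs'.trans hs, Or.inl h'⟩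
        · exact ⟨s', hs'.trans hs, Or.inr (Or.inl h')⟩
      · push Not at h
        exact ⟨r, le_rfl, Or.inr (Or.inr h)⟩) qa
  have hqbp : qb ≤ p := hqb.trans (hqa.trans hqp)
  have hm : ∃ m, qb ∈ AE A (Gn TT t m) := by
    by_contra hcon
    push Not at hcon
    have hnot : ∀ m, qb ∈ AE A (fun ξ => fnot (Gn TT t m ξ)) := by
      intro m
      rcases hb m with h | h | h
      · exact absurd h (hcon m)
      · exact h
      · exact absurd hqbp (h qb le_rfl)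
    choose b hb' using hnot
    obtain ⟨B, hB⟩ := bdd_seq833 hκ.isRegular hκ.1 b
    obtain ⟨r, hr, ξ, hξ, hm, γ, hγ, hv⟩ := point_above TT hκ hA hqbp
      (down_AE _ _ _ hca _ hqb) B
    obtain ⟨r1, hr1, m, hmm⟩ := TT.NN_dense γ (hinf hγ) r
    obtain ⟨r2, hr2, h2⟩ := hb' m ξ ((hB m).trans_lt hξ) r1 (hr1.trans hr) (down_meets _ _ hm _ hr1)
    exact h2 r2 le_rfl ⟨γ, TT.down _ _ _ _ hv _ (hr2.trans hr1), TT.NN_down _ _ _ hmm _ hr2⟩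
  obtain ⟨m, hm⟩ := hm
  -- the family of the codes
  obtain ⟨f⟩ : Nonempty ((plus κ (m + 1)).out ↪ Λ) := by
    rw [← Cardinal.le_def, Cardinal.mk_out]
    exact hΛ (m + 1)
  obtain ⟨i, j, hij, r', hr', -, hEQ⟩ := h3 κ hκ0 P hcc TT.T κ.ord.ToType TT.cst
    (fun s s' => AE A (Ge TT s s')) (fun s s' => AE A (Gl TT s s'))
    (fun k s => AE A (Gb TT t k s)) TT.hh qb (by rw [Cardinal.mk_ord_toType])
    (fun _ _ => down_AE _ _) (fun _ _ => down_AE _ _) (fun _ _ => down_AE _ _)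
    (fun s s' r hr => tri TT hdec s s' r (hr.trans hqbp))
    (by
      intro s r hr h
      refine hmin s r (hr.trans (hqb.trans hqa)) (AE_map h ?_)
      rintro ξ r1 _ ⟨γ, c, hv, hv', hlt⟩
      exact ⟨r1, le_rfl, c, γ, lt_of_mk_Iio_lt hlt, hv', hv⟩)
    (fun s s' c r _ h h' => Ge_cst TT h h')
    (fun s s' r _ h => Ge_symm TT h)
    (by
      intro k s s' r _ h h'
      refine AE_map (AE_and (fun ξ => down_Gl TT _ _ ξ) h h') ?_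
      rintro ξ r1 _ ⟨⟨γ', γ, hlt, hv', hv⟩, τ, γ2, hτ, hv2, hlt2⟩
      have e1 : γ2 = γ := TT.fn _ _ _ _ _ hv2 hv
      subst e1
      obtain ⟨r2, hr2, δ, hδ⟩ := TT.dense (TT.hh s s') ξ r1
      refine ⟨r2, hr2, τ, δ, TT.down _ _ _ _ hτ _ hr2, hδ, ?_⟩
      have h1 := TT.hh_lt s s' ξ γ2 γ' δ r2 (TT.down _ _ _ _ hv _ hr2)
        (TT.down _ _ _ _ hv' _ hr2) hlt hδ
      exact h1.trans_le (Order.lt_succ_iff.1 hlt2))
    (by
      intro s s' s'' r _ h h' h''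
      refine AE_map (AE_and (fun ξ => down_Gl TT _ _ ξ) h
        (AE_and (fun ξ => down_Gl TT _ _ ξ) h' h'')) ?_
      rintro ξ r1 _ ⟨⟨γ', γ, hlt, hv', hv⟩, ⟨γ'', γ2, hlt2, hv'', hv2⟩, δ, hδ, hδ'⟩
      have e1 : γ2 = γ := TT.fn _ _ _ _ _ hv2 hv
      subst e1
      have h1 := TT.hh_inj s s' s'' ξ γ2 γ' γ'' δ r1 hv hv' hv'' hlt hlt2 hδ hδ'
      subst h1
      exact ⟨r1, le_rfl, γ', hv', hv''⟩)
    m (plus κ (m + 1)).out (fun _ => qb) (fun i => TT.code (f i) t) (Cardinal.mk_out _)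
    (fun _ => le_rfl)
    (by
      intro i
      refine AE_map (AE_and (fun ξ => down_Gn TT _ _ ξ) hm (down_AE _ _ _ hca _ hqb)) ?_
      rintro ξ r1 _ ⟨⟨γ, hv, hn⟩, c1, γ2, hlt, hc1, hv2⟩
      have e1 : γ2 = γ := TT.fn _ _ _ _ _ hv2 hv
      have e2 : c1 = c0 := TT.fn _ _ _ _ _ hc1 (TT.val_cst c0 ξ r1)
      subst e1
      subst e2
      obtain ⟨r2, hr2, c, hc⟩ := TT.dense (TT.code (f i) t) ξ r1
      exact ⟨r2, hr2, γ2, c, TT.down _ _ _ _ hv _ hr2, hc, TT.code_lt (f i) t ξ γ2 c m r2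
        (hinf hlt) (TT.down _ _ _ _ hv _ hr2) (TT.NN_down _ _ _ hn _ hr2) hc⟩)
  -- the contradiction
  have hfij : f i ≠ f j := fun h => hij (f.injective h)
  obtain ⟨r1, hr1, β, hβ⟩ := hX (f i) (f j) hfij r'
  obtain ⟨r2, hr2, h2⟩ := habove (max β c0) r1 (hr1.trans (hr'.trans (hqb.trans hqa)))
  have h2p : r2 ≤ p := hr2.trans (hr1.trans (hr'.trans hqbp))
  obtain ⟨r3, hr3, ξ, _, _, ⟨γ1, γ, hlt, hc, hv⟩, c, hi, hj⟩ := AE_point hκ0 hA h2p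
    (AE_and (fun ξ => down_Gl TT _ _ ξ) h2 (down_AE _ _ _ hEQ _ (hr2.trans hr1))) c0
  have e1 : γ1 = max β c0 := TT.fn _ _ _ _ _ hc (TT.val_cst (max β c0) ξ r3)
  rw [e1] at hlt
  have hcode := TT.code_inj (f i) (f j) t ξ γ c r3 (hinf ((le_max_right _ _).trans_lt hlt)) hv hi hj
    β ((le_max_left _ _).trans_lt hlt) r3 le_rfl
  have h31 : r3 ≤ r1 := hr3.trans hr2
  rcases hβ with ⟨hβ1, hβ2⟩ | ⟨hβ1, hβ2⟩
  · exact hβ2 r3 h31 (hcode.1 (down_meets _ _ hβ1 _ h31))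
  · exact hβ2 r3 h31 (hcode.2 (down_meets _ _ hβ1 _ h31))

end main

theorem plus_le_omega (κ : Cardinal.{0}) (n : ℕ) : plus κ n ≤ plusOmega κ :=
  le_ciSup Cardinal.bddAbove_of_small n

end Pool.Agent.Helper403.SK.TA2

namespace Pool.Agent.Helper403.SK

open Cardinal Set Pool.Agent.Helper669.Forcing Pool.Agent.Helper669.K Pool.Agent.W873.Tp TA2

theorem jobA2 : StmtA2 := by
  classical
  intro h3 κ hκ P _ hσ hreg hcc Λ X hΛ hX TT q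
  have hκ0 : ℵ₀ ≤ κ := hκ.1.le
  have hω : ℵ₀ ≤ plusOmega κ := hκ0.trans (plus_le_omega κ 0)
  -- the index set
  let J := (TT.T × TT.T) ⊕ (TT.T × ℕ)
  let G : J → κ.ord.ToType → Set P := Sum.elim (fun s => Gl TT s.1 s.2) (fun s => Gn TT s.1 s.2)
  have hG : ∀ j ξ, Down (G j ξ) := by
    rintro (⟨s, s'⟩ | ⟨t, m⟩) ξ
    · exact down_Gl TT s s' ξ
    · exact down_Gn TT t m ξ
  have hJ : #J ≤ plusOmega κ := by
    have h1 : #J = #TT.T * #TT.T + #TT.T * ℵ₀ := by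
      simp only [J, Cardinal.mk_sum, Cardinal.mk_prod, Cardinal.lift_id, Cardinal.mk_nat]
    rw [h1]
    refine (add_le_add (mul_le_mul' TT.card TT.card) (mul_le_mul' TT.card hω)).trans ?_
    rw [Cardinal.mul_eq_self hω, Cardinal.add_eq_self hω]
  have : Nonempty J := ⟨Sum.inl (TT.idt, TT.idt)⟩
  obtain ⟨g⟩ : Nonempty (J ↪ (plusOmega κ).out) := by
    rw [← Cardinal.le_def, Cardinal.mk_out]
    exact hJ
  let e : (plusOmega κ).out → J := Function.invFun g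
  have he : ∀ j, e (g j) = j := Function.leftInverse_invFun g.injective
  refine mem_fex_of_mem (fun i => fix (G (e i))) ?_ ⟨fun i => ?_, fun A => ?_⟩
  · exact down_fand (down_fall fun _ => down_full _) (down_fall fun _ => down_fimp _ _)
  · exact fix_full hκ0 hreg _ (hG _) q
  refine mem_fimp.2 fun q1 _ hA => ?_
  by_contra hcon
  push Not at hcon
  have h1 := hcon q1 le_rfl
  rw [mem_fex] at h1
  push Not at h1
  obtain ⟨p, hp, hns⟩ := h1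
  have hdec : ∀ j, ∀ q ≤ p, ∃ q' ≤ q, q' ∈ AE A (G j) ∨ q' ∈ AE A (fun ξ => fnot (G j ξ)) := by
    intro j q hq
    refine decide_of_unsplit hκ0 hreg (G j) (hG j) A q fun q' hq' hs => ?_
    refine hns q' (hq'.trans hq) (g j) ?_
    rw [he]
    exact hs
  exact main TT h3 hκ hσ hreg hcc (fun n => (plus_le_omega κ n).trans hΛ.ge) hX
    (down_full A _ hA _ hp) (fun s s' => hdec (Sum.inl (s, s')))
    (fun t m => hdec (Sum.inr (t, m)))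

end Pool.Agent.Helper403.SK
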