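import Mathlib
import Pool.Agent.Helper403_SK.BStmts

set_option autoImplicit false

/-!
# Job B1: the recursion for the weights
-/

namespace Pool.Agent.Helper403.SK

open Cardinal Set Pool.Agent.Helper669.Forcing Pool.Agent.Helper669.K

namespace TB1

variable {κ : Cardinal.{0}} {L R I : Type} [LinearOrder L] [Preorder R]

/-- what the weight `s` at the stage `ξ` has to satisfy, when `V` is the weight below `ξ` -/
structure Step (e : I → κ.ord.ToType → Set (R × BC κ L R I)) (b : L → Set (BC κ L R I)) (ξ : L)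
    (V : Wg κ L R I) (s : (I ⊕ κ.ord.ToType) → κ.ord.ToType → Set (R × BC κ L R I)) : Prop where
  inr : ∀ β0 β x, x ∈ s (Sum.inr β0) β ↔ β ≠ β0
  mono : ∀ (_ : ∀ η, GoodW V η), ∀ i β t t' p p', t' ≤ t →
    t' ∈ relW V (Cond.res ξ p') (Cond.res ξ p) →
    (t, Cond.res ξ p) ∈ s i β → (t', Cond.res ξ p') ∈ s i β
  loc : ∀ (_ : ∀ η, GoodW V η), ∀ i β t p, (∀ t' ≤ t, ∃ t'' ≤ t', (t'', Cond.res ξ p) ∈ s i β) →
    (t, Cond.res ξ p) ∈ s i β
  inl : ∀ (hV : ∀ η, GoodW V η), GoodSub (NW V hV) ξ (b ξ) →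
    ∃ U : (κ.ord.ToType → Set (Two ((NW V hV).sub (b ξ)))) →
      Set (Two ((NW V hV).sub (b ξ))),
      (∀ q, q ∈ IsMeasure κ U) ∧ ∀ i β (t : R) (p : BC κ L R I), Cond.res ξ p = p →
        ((t, p) ∈ s (Sum.inl i) β ↔
          ((t, p) : Two (NW V hV)) ∈ meets (up (AA U (e i) β)))
  bad : ∀ (hV : ∀ η, GoodW V η), ¬ GoodSub (NW V hV) ξ (b ξ) →
    ∀ i β x, x ∈ s (Sum.inl i) β

theorem meets_loc {Θ : Type} {N : NOrd R Θ} (A : Set (Two N)) (t : R) (p : Θ)
    (h : ∀ t' ≤ t, ∃ t'' ≤ t', ((t'', p) : Two N) ∈ meets A) : ((t, p) : Two N) ∈ meets A := by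
  intro q hq
  obtain ⟨t'', ht'', h1⟩ := h q.1 hq.1
  have h2 : @LE.le (Two N) _ (t'', q.2) (t'', p) :=
    ⟨le_rfl, N.down _ _ _ hq.2 _ ht''⟩
  have h3 : @LE.le (Two N) _ (t'', q.2) q := ⟨ht'', N.refl _ _⟩
  obtain ⟨r, hr, s, hs, hrs⟩ := h1 _ h2
  exact ⟨r, hr.trans h3, s, hs, hrs⟩

theorem step_ex (hm : Meas κ R) (e : I → κ.ord.ToType → Set (R × BC κ L R I))
    (b : L → Set (BC κ L R I)) (ξ : L) (V : Wg κ L R I) : ∃ s, Step e b ξ V s := by
  classical
  by_cases hg : ∃ hV : ∀ η, GoodW V η, GoodSub (NW V hV) ξ (b ξ)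
  · obtain ⟨hV, hg⟩ := hg
    obtain ⟨n, hn⟩ := hg.card
    obtain ⟨U, hU⟩ := hm (b ξ) ((NW V hV).sub (b ξ)) n hg.closed hn
    refine ⟨fun i β => Sum.elim (fun i => meets (P := Two (NW V hV)) (up (AA U (e i) β)))
      (fun β0 => {_x | β ≠ β0}) i, ?_, ?_, ?_, ?_, ?_⟩
    · exact fun β0 β x => Iff.rfl
    · rintro - (i | β0) β t t' p p' ht h1 h2
      · exact down_meets (P := Two (NW V hV)) _ (t, Cond.res ξ p) h2 (t', Cond.res ξ p') ⟨ht, h1⟩
      · exact h2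
    · rintro - (i | β0) β t p h
      · exact meets_loc (N := NW V hV) _ t _ h
      · obtain ⟨_, _, h1⟩ := h t le_rfl
        exact h1
    · exact fun _ _ => ⟨U, hU, fun i β t p _ => Iff.rfl⟩
    · exact fun _ h => absurd hg h
  · refine ⟨fun i β => Sum.elim (fun _ => Set.univ) (fun β0 => {_x | β ≠ β0}) i,
      ?_, ?_, ?_, ?_, ?_⟩
    · exact fun β0 β x => Iff.rfl
    · rintro - (i | β0) β t t' p p' ht h1 h2
      · trivial
      · exact h2
    · rintro - (i | β0) β t p h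
      · trivial
      · obtain ⟨_, _, h1⟩ := h t le_rfl
        exact h1
    · exact fun hV h => absurd ⟨hV, h⟩ hg
    · exact fun _ _ i β x => trivial

end TB1

open TB1 in
theorem jobB1 : StmtB1 := by
  intro κ L R I _ _ _ hm e b
  obtain ⟨W, hW⟩ := Pool.Agent.Helper669.CloneComb.exists_rec
    (S := (I ⊕ κ.ord.ToType) → κ.ord.ToType → Set (R × BC κ L R I))
    (fun ξ c s => Step e b ξ (cut c ξ) s) (by
      intro ξ c c' s hcc h
      have h1 : cut c ξ = cut c' ξ := by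
        funext η
        rcases lt_or_ge η ξ with h2 | h2
        · rw [cut_of_lt c h2, cut_of_lt c' h2, hcc η h2]
        · rw [cut_of_le c h2, cut_of_le c' h2]
      rwa [h1] at h) (fun ξ c => step_ex hm e b ξ (cut c ξ))
  have good : ∀ ξ, GoodW W ξ := by
    intro ξ
    induction ξ using WellFoundedLT.induction with
    | ind ξ ih =>
      have hV : ∀ η, GoodW (cut W ξ) η := goodW_cut ih
      refine ⟨fun i β t t' p p' ht h1 h2 => ?_, fun i β t p h => ?_⟩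
      · refine (hW ξ).mono hV i β t t' p p' ht ?_ h2
        rwa [relW_congr (W' := W) (ξ := ξ) (fun ζ hζ => cut_of_lt W hζ)
          (Cond.res_res le_rfl _) (Cond.res_res le_rfl _)]
      · exact (hW ξ).loc hV i β t p h
  exact ⟨⟨W, good, fun ξ => (hW ξ).inr, fun ξ => (hW ξ).inl (goodW_cut fun η _ => good η),
    fun ξ => (hW ξ).bad (goodW_cut fun η _ => good η)⟩⟩

end Pool.Agent.Helper403.SK
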