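import Mathlib
import Pool.Agent.Helper403_SK.BStmts
import Pool.Agent.Helper669.KFinal

set_option autoImplicit false

/-!
# The iteration of Mathias forcings with small ultrafilters: closedness (B2a)
-/

namespace Pool.Agent.Helper403.SK.TB2a

open Cardinal Set Pool.Agent.Helper669 Pool.Agent.Helper669.Forcing Pool.Agent.Helper669.K
open Pool.Agent.Helper403.SK

section

variable {κ : Cardinal.{0}} {L R I : Type} [LinearOrder L] [WellFoundedLT L] [Preorder R]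

theorem exists_C (hcc : CCS R κ) : ∃ C : R → R → Set R, ∀ t u, #(C t u) < κ ∧
    (∀ v ∈ C t u, v ≤ t ∧ v ≤ u) ∧ ∀ w, w ≤ t → w ≤ u → ∃ v ∈ C t u, ∃ r, r ≤ w ∧ r ≤ v := by
  choose C hC1 hC2 hC3 using fun t u : R => h400_antichain {v : R | v ≤ t ∧ v ≤ u}
  refine ⟨C, fun t u => ⟨?_, fun v hv => hC1 t u hv, fun w hw hw' => hC3 t u w ⟨hw, hw'⟩⟩⟩
  by_contra hlt
  push Not at hlt
  obtain ⟨i, j, hij, hr⟩ := hcc (C t u) (fun x => x.1) hlt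
  exact hC2 t u i.2 j.2 (fun h => hij (Subtype.ext h)) hr

/-- the mixture of the conditions in `D` -/
def mix (hκ : κ.IsRegular) (C : R → R → Set R) (hC : ∀ t u, #(C t u) < κ)
    (D : Set (R × BC κ L R I)) (hD : #D < κ) : BC κ L R I where
  s := ⋃ a ∈ D, ⋃ x ∈ a.2.s, (fun v => (x.1, (x.2.1, v))) '' (C a.1 x.2.2)
  E := ⋃ a ∈ D, a.2.E
  hs := (card_biUnion_lt_iff_forall_of_isRegular hκ hD).2 fun a _ =>
    (card_biUnion_lt_iff_forall_of_isRegular hκ a.2.hs).2 fun x _ =>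
      mk_image_le.trans_lt (hC _ _)
  hE := (card_biUnion_lt_iff_forall_of_isRegular hκ hD).2 fun a _ => a.2.hE

variable (hκ : κ.IsRegular) {C : R → R → Set R} (hC : ∀ t u, #(C t u) < κ)
  {D : Set (R × BC κ L R I)} (hD : #D < κ)

theorem mem_mix_s {x : L × (κ.ord.ToType × R)} : x ∈ (mix hκ C hC D hD).s ↔
    ∃ a ∈ D, ∃ u, (x.1, (x.2.1, u)) ∈ a.2.s ∧ x.2.2 ∈ C a.1 u := by
  simp only [mix, mem_iUnion, mem_image]
  constructor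
  · rintro ⟨a, ha, y, hy, v, hv, rfl⟩
    exact ⟨a, ha, y.2.2, hy, hv⟩
  · rintro ⟨a, ha, u, hu, hv⟩
    exact ⟨a, ha, _, hu, x.2.2, hv, rfl⟩

theorem mem_mix_E {x : L × (I ⊕ κ.ord.ToType)} : x ∈ (mix hκ C hC D hD).E ↔
    ∃ a ∈ D, x ∈ a.2.E := by
  simp only [mix, mem_iUnion, exists_prop]

theorem step {W : Wg κ L R I} (hW : ∀ ξ, GoodW W ξ)
    (hC2 : ∀ t u, ∀ v ∈ C t u, v ≤ t ∧ v ≤ u)
    (hC3 : ∀ t u, ∀ w, w ≤ t → w ≤ u → ∃ v ∈ C t u, ∃ r, r ≤ w ∧ r ≤ v)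
    (hdir : ForcedDirected (NW W hW) D) (ζ : L)
    (ih : ∀ c ∈ D, c.1 ∈ relW W (Cond.res ζ (mix hκ C hC D hD)) (Cond.res ζ c.2))
    (a : R × BC κ L R I) (ha : a ∈ D) (β : κ.ord.ToType) (t : R) (ht : t ≤ a.1) :
    (t ∈ meets (Nm a.2 ζ β) → t ∈ meets (Nm (mix hκ C hC D hD) ζ β)) ∧
    ∀ i, (ζ, i) ∈ a.2.E → t ∈ meets (Nm (mix hκ C hC D hD) ζ β) →
      t ∈ fnot (meets (Nm a.2 ζ β)) → (t, Cond.res ζ (mix hκ C hC D hD)) ∈ W ζ i β := by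
  constructor
  · intro h t' ht'
    obtain ⟨t2, ht2, u, hu, htu⟩ := h t' ht'
    obtain ⟨v, hv, r, hr, hrv⟩ := hC3 a.1 u t2 (ht2.trans (ht'.trans ht)) htu
    exact ⟨r, hr.trans ht2, v, (mem_mix_s hκ hC hD).2 ⟨a, ha, u, hu, hv⟩, hrv⟩
  · intro i hi h1 h2
    refine (hW ζ).loc i β t _ fun t' ht' => ?_
    obtain ⟨t2, ht2, v, hv, htv⟩ := h1 t' ht'
    obtain ⟨b, hb, u, hu, hvC⟩ := (mem_mix_s hκ hC hD).1 hv
    obtain ⟨hvb, hvu⟩ := hC2 _ _ _ hvC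
    obtain ⟨t3, ht3, c, hc, hc1, hcb, hca⟩ := hdir b hb a ha t2 (htv.trans hvb)
      (ht2.trans (ht'.trans ht))
    have h3 : t3 ∈ meets (Nm c.2 ζ β) := (hcb.2 ζ β t3 le_rfl).1
      (meets_of_le hu (ht3.trans (htv.trans hvu)))
    have h4 : t3 ∈ fnot (meets (Nm a.2 ζ β)) :=
      down_fnot _ _ h2 _ (ht3.trans (ht2.trans ht'))
    have h5 := (hca.2 ζ β t3 le_rfl).2 i hi h3 h4
    exact ⟨t3, ht3.trans ht2, (hW ζ).mono i β t3 t3 c.2 _ le_rfl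
      (relW_down _ _ _ _ (ih c hc) _ hc1) h5⟩

theorem claim {W : Wg κ L R I} (hW : ∀ ξ, GoodW W ξ)
    (hC2 : ∀ t u, ∀ v ∈ C t u, v ≤ t ∧ v ≤ u)
    (hC3 : ∀ t u, ∀ w, w ≤ t → w ≤ u → ∃ v ∈ C t u, ∃ r, r ≤ w ∧ r ≤ v)
    (hdir : ForcedDirected (NW W hW) D) (ξ : L) :
    ∀ c ∈ D, c.1 ∈ relW W (Cond.res ξ (mix hκ C hC D hD)) (Cond.res ξ c.2) := by
  induction ξ using WellFoundedLT.induction with
  | ind ξ ih =>
    intro a ha
    refine ⟨fun x hx => ⟨(mem_mix_E hκ hC hD).2 ⟨a, ha, hx.1⟩, hx.2⟩, fun ζ β t ht => ?_⟩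
    rcases lt_or_ge ζ ξ with hlt | hge
    · rw [Nm_res hlt, Nm_res hlt, Cond.res_res hlt.le]
      have := step hκ hC hD hW hC2 hC3 hdir ζ (ih ζ hlt) a ha β t ht
      exact ⟨this.1, fun i hi => this.2 i hi.1⟩
    · rw [Nm_res_of_le hge, Nm_res_of_le hge]
      exact ⟨fun h1 => absurd h1 (not_meets_empty t),
        fun _ _ h1 => absurd h1 (not_meets_empty t)⟩

end

end Pool.Agent.Helper403.SK.TB2a

namespace Pool.Agent.Helper403.SK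

open Cardinal Set Pool.Agent.Helper669 Pool.Agent.Helper669.Forcing Pool.Agent.Helper669.K TB2a

theorem jobB2a : StmtB2a := by
  intro κ L R I _ _ _ hκ hcc W hW D hD hdir
  obtain ⟨C, hC⟩ := exists_C hcc
  have hC1 := fun t u => (hC t u).1
  have hC2 := fun t u => (hC t u).2.1
  have hC3 := fun t u => (hC t u).2.2
  have hreg := hκ.isRegular
  refine ⟨mix hreg C hC1 D hD, fun a ha => ⟨fun x hx => ?_, fun ζ β t ht => ?_⟩, fun ξ hξ => ?_⟩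
  · exact (mem_mix_E hreg hC1 hD).2 ⟨a, ha, hx⟩
  · exact step hreg hC1 hD hW hC2 hC3 hdir ζ (claim hreg hC1 hD hW hC2 hC3 hdir ζ) a ha β t ht
  · ext x
    · refine ⟨fun h => h.1, fun h => ⟨h, ?_⟩⟩
      obtain ⟨a, ha, u, hu, _⟩ := (mem_mix_s hreg hC1 hD).1 h
      exact Cond.lt_of_res (x := (x.1, (x.2.1, u))) (hξ a ha) hu
    · refine ⟨fun h => h.1, fun h => ⟨h, ?_⟩⟩
      obtain ⟨a, ha, hx⟩ := (mem_mix_E hreg hC1 hD).1 h
      exact Cond.lt_of_resE (hξ a ha) hx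

end Pool.Agent.Helper403.SK
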