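import Mathlib
import Pool.Agent.Helper403_SK.BStmts
import Pool.Agent.Helper669.KFinal

set_option autoImplicit false

/-!
# The iteration of Mathias forcings with small ultrafilters: the lower bound (B5)
-/

namespace Pool.Agent.Helper403.SK.TB5

open Cardinal Set Pool.Agent.Helper669.Forcing Pool.Agent.Helper669.K Pool.Agent.Helper403.SK

section

variable {κ : Cardinal.{0}} {L R I : Type} [LinearOrder L] [Preorder R]

/-- the order of a two step iteration -/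
abbrev TLe {R Θ : Type} [Preorder R] (N : NOrd R Θ) (a b : R × Θ) : Prop := @LE.le (Two N) _ a b

/-- restricting a condition below one which lives below `η` -/
theorem res_le {W W' : Wg κ L R I} {hW : ∀ ξ, GoodW W ξ} {hW' : ∀ ξ, GoodW W' ξ} {η : L}
    (hWW : ∀ ζ < η, W ζ = W' ζ) {x y : Two (NW W hW)} (h : x ≤ y) (hy : Cond.res η y.2 = y.2) :
    TLe (NW W' hW') (x.1, Cond.res η x.2) (y.1, y.2) := by
  refine ⟨h.1, ?_⟩
  have h1 := relW_res h.2 η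
  rw [hy, relW_congr hWW hy (Cond.res_res le_rfl _)] at h1
  exact h1

theorem up_le {W W' : Wg κ L R I} {hW : ∀ ξ, GoodW W ξ} {hW' : ∀ ξ, GoodW W' ξ} {η : L}
    (hWW : ∀ ζ < η, W ζ = W' ζ) {x y : Two (NW W' hW')} (h : x ≤ y) (hx : Cond.res η x.2 = x.2)
    (hy : Cond.res η y.2 = y.2) :
    TLe (NW W hW) (x.1, x.2) (y.1, y.2) := by
  refine ⟨h.1, ?_⟩
  have h1 : x.1 ∈ relW W' x.2 y.2 := h.2
  rw [← relW_congr hWW hy hx] at h1
  exact h1

/-- the generic sets -/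
abbrev Agen (κ : Cardinal.{0}) (L R I : Type) [Preorder R] (η : L) (β : κ.ord.ToType) :
    Set (R × BC κ L R I) :=
  {x | ∃ u, (η, (β, u)) ∈ x.2.s ∧ x.1 ≤ u}

theorem addE_rel (hκ : ℵ₀ ≤ κ) (W : Wg κ L R I) (p : BC κ L R I) (η : L)
    (i : I ⊕ κ.ord.ToType) (r : R) : r ∈ relW W (addE hκ p η i) p := by
  refine ⟨Set.subset_insert _ _, fun ξ β t ht => ⟨id, fun j hj h1 h2 => ?_⟩⟩
  exact absurd h1 (h2 t le_rfl)

end

section

variable {κ : Cardinal.{0}} {L R I : Type} [LinearOrder L] [WellFoundedLT L] [Preorder R]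
  {e : I → κ.ord.ToType → Set (R × BC κ L R I)} {b : L → Set (BC κ L R I)}

theorem core (h2c : StmtB2c) (hκ : ℵ₀ ≤ κ) (S : BSys κ L R I e b) (η : L)
    (hS : GoodSub (NW (cut S.W η) (goodW_cut fun ζ _ => S.good ζ)) η (b η))
    (U : (κ.ord.ToType → Set (Two ((NW (cut S.W η) (goodW_cut fun ζ _ => S.good ζ)).sub (b η)))) →
      Set (Two ((NW (cut S.W η) (goodW_cut fun ζ _ => S.good ζ)).sub (b η))))
    (hU : ∀ i β (t : R) (p : BC κ L R I), Cond.res η p = p →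
        ((t, p) ∈ S.W η (Sum.inl i) β ↔
          ((t, p) : Two (NW (cut S.W η) (goodW_cut fun ζ _ => S.good ζ))) ∈
            meets (up (AA U (e i) β))))
    (i : I) (q : Two (NW S.W S.good)) (hqE : (η, Sum.inl i) ∈ q.2.E) (β : κ.ord.ToType)
    (hβ : ∀ u, (η, (β, u)) ∉ q.2.s) (v : Two (NW S.W S.good)) (hv : v ≤ q)
    (hvβ : v ∈ meets (P := Two (NW S.W S.good)) (Agen κ L R I η β)) :
    ∃ v2 ≤ v, ∃ x : Two (NW (cut S.W η) (goodW_cut fun ζ _ => S.good ζ)),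
      Cond.res η x.2 = x.2 ∧ TLe (NW S.W S.good) v2 (x.1, x.2) ∧
      TLe (NW (cut S.W η) (goodW_cut fun ζ _ => S.good ζ)) x (q.1, Cond.res η q.2) ∧
      ∃ d2 ∈ AA U (e i) β,
        TLe (NW (cut S.W η) (goodW_cut fun ζ _ => S.good ζ)) x (d2.1, d2.2.1) := by
  have hWW : ∀ ζ < η, S.W ζ = cut S.W η ζ := fun ζ hζ => (cut_of_lt S.W hζ).symm
  obtain ⟨v1, hv1, a, ⟨u, hu, hau⟩, hva⟩ := hvβ v le_rfl
  -- `v1` forces `β` into the stem
  have h1 : v1.1 ∈ meets (Nm v1.2 η β) := (hva.2.2 η β v1.1 le_rfl).1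
    (meets_of_le hu (hva.1.trans hau))
  have h2 : v1.1 ∈ fnot (meets (Nm q.2 η β)) := by
    intro t ht h
    obtain ⟨_, _, u, hu, _⟩ := h t le_rfl
    exact hβ u hu
  have h3 : (v1.1, Cond.res η v1.2) ∈ S.W η (Sum.inl i) β :=
    ((hv1.trans hv).2.2 η β v1.1 le_rfl).2 _ hqE h1 h2
  rw [hU i β v1.1 _ (Cond.res_res le_rfl _)] at h3
  obtain ⟨x', hx', y, ⟨d2, hd2, rfl⟩, hy⟩ := h3 _ le_rfl
  have hd2r : Cond.res η d2.2.1 = d2.2.1 := hS.below _ d2.2.2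
  -- restrict `x'`
  obtain ⟨x, hxdef⟩ : ∃ x : Two (NW (cut S.W η) (goodW_cut fun ζ _ => S.good ζ)),
    x = (x'.1, Cond.res η x'.2) := ⟨_, rfl⟩
  have hxr : Cond.res η x.2 = x.2 := by
    rw [hxdef]
    exact Cond.res_res le_rfl _
  have hxv : TLe (NW (cut S.W η) (goodW_cut fun ζ _ => S.good ζ)) x (v1.1, Cond.res η v1.2) := by
    rw [hxdef]
    exact res_le (fun _ _ => rfl) hx' (Cond.res_res le_rfl _)
  have hxd : TLe (NW (cut S.W η) (goodW_cut fun ζ _ => S.good ζ)) x (d2.1, d2.2.1) := by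
    rw [hxdef]
    exact res_le (fun _ _ => rfl) hy hd2r
  have hvq : TLe (NW (cut S.W η) (goodW_cut fun ζ _ => S.good ζ)) (v1.1, Cond.res η v1.2)
      (q.1, Cond.res η q.2) := by
    refine ⟨(hv1.trans hv).1, ?_⟩
    have h4 := relW_res (hv1.trans hv).2 η
    rw [relW_congr hWW (Cond.res_res le_rfl _) (Cond.res_res le_rfl _)] at h4
    exact h4
  have hxv2 : x.1 ∈ relW S.W x.2 (Cond.res η v1.2) := by
    have h4 : x.1 ∈ relW (cut S.W η) x.2 (Cond.res η v1.2) := hxv.2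
    rwa [← relW_congr hWW (Cond.res_res le_rfl _) hxr] at h4
  obtain ⟨h5, h6⟩ := h2c κ L R I hκ S.W S.good η x.2 v1.2 x.1 ∅ Set.finite_empty hxr hxv2
    (fun z hz => hz.elim)
  have h7 : TLe (NW S.W S.good) (x.1, amal hκ x.2 v1.2 η ∅ Set.finite_empty) v1 := ⟨hxv.1, h5⟩
  exact ⟨((x.1, amal hκ x.2 v1.2 η ∅ Set.finite_empty) : Two (NW S.W S.good)),
    h7.trans hv1, x, hxr, ⟨le_rfl, h6⟩, hxv.trans hvq, d2, hd2, hxd⟩

theorem key (h2c : StmtB2c) (h2d : StmtB2d) (hκ : ℵ₀ ≤ κ) (S : BSys κ L R I e b) (η : L)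
    (hS : GoodSub (NW (cut S.W η) (goodW_cut fun ζ _ => S.good ζ)) η (b η))
    (U : (κ.ord.ToType → Set (Two ((NW (cut S.W η) (goodW_cut fun ζ _ => S.good ζ)).sub (b η)))) →
      Set (Two ((NW (cut S.W η) (goodW_cut fun ζ _ => S.good ζ)).sub (b η))))
    (hU : ∀ i β (t : R) (p : BC κ L R I), Cond.res η p = p →
        ((t, p) ∈ S.W η (Sum.inl i) β ↔
          ((t, p) : Two (NW (cut S.W η) (goodW_cut fun ζ _ => S.good ζ))) ∈
            meets (up (AA U (e i) β))))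
    (i : I) (hi : ∀ β, ∀ y ∈ e i β, y.2 ∈ b η)
    (d : Two ((NW (cut S.W η) (goodW_cut fun ζ _ => S.good ζ)).sub (b η)))
    (q : Two (NW S.W S.good)) (hqE : (η, Sum.inl i) ∈ q.2.E)
    (hd : TLe (NW (cut S.W η) (goodW_cut fun ζ _ => S.good ζ)) (q.1, Cond.res η q.2)
      (d.1, d.2.1)) (β : κ.ord.ToType)
    (hβ : ∀ u, (η, (β, u)) ∉ q.2.s) (v : Two (NW S.W S.good)) (hv : v ≤ q)
    (hvβ : v ∈ meets (P := Two (NW S.W S.good)) (Agen κ L R I η β)) :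
    (d ∈ meets (U (cutName (b η) (e i))) → v ∈ meets (P := Two (NW S.W S.good)) (e i β)) ∧
    (d ∈ fnot (meets (U (cutName (b η) (e i)))) →
      v ∈ fnot (meets (P := Two (NW S.W S.good)) (e i β))) := by
  have hWW : ∀ ζ < η, S.W ζ = cut S.W η ζ := fun ζ hζ => (cut_of_lt S.W hζ).symm
  have hmt := (h2d κ L R I hκ S.W (cut S.W η) S.good (goodW_cut fun ζ _ => S.good ζ) η hWW).1
  constructor
  · intro hdU
    refine meets_of_dense' fun v' hv' => ?_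
    obtain ⟨v2, hv2, x, hxr, hv2x, hxq, d2, hd2, hxd2⟩ := core h2c hκ S η hS U hU i q hqE β hβ v'
      (hv'.trans hv) (down_meets _ _ hvβ _ hv')
    refine ⟨v2, hv2, ?_⟩
    obtain ⟨w, hwd, hwd2⟩ := hS.c1 d d2 x (hxq.trans hd) hxd2
    have h1 : d2 ∈ meets (cutName (b η) (e i) β) := by
      rcases hd2 with h | h
      · exact h.2
      · exact absurd (down_meets _ _ hdU _ hwd) (h.1 _ hwd2)
    have h2 := down_meets (P := Two (NW (cut S.W η) (goodW_cut fun ζ _ => S.good ζ))) _ _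
      (hS.c2 _ _ h1) x hxd2
    have h3 : x ∈ meets (P := Two (NW (cut S.W η) (goodW_cut fun ζ _ => S.good ζ))) (e i β) := by
      intro y hy
      obtain ⟨z, hz, a, ⟨a', ha', rfl⟩, hza⟩ := h2 y hy
      exact ⟨z, hz, _, ha', hza⟩
    have h4 := (hmt (e i β) (fun y hy => hS.below _ (hi β y hy)) x.1 x.2 hxr).2 h3
    exact down_meets (P := Two (NW S.W S.good)) _ _ h4 _ hv2x
  · intro hdU
    refine fnot_of_dense (down_meets _) fun v' hv' => ?_
    obtain ⟨v2, hv2, x, hxr, hv2x, hxq, d2, hd2, hxd2⟩ := core h2c hκ S η hS U hU i q hqE β hβ v'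
      (hv'.trans hv) (down_meets _ _ hvβ _ hv')
    refine ⟨v2, hv2, ?_⟩
    obtain ⟨w, hwd, hwd2⟩ := hS.c1 d d2 x (hxq.trans hd) hxd2
    have h1 : d2 ∈ fnot (meets (cutName (b η) (e i) β)) := by
      rcases hd2 with h | h
      · exact absurd (down_meets _ _ h.1 _ hwd2) (hdU _ hwd)
      · exact h.2
    intro v3 hv3 hmem
    obtain ⟨v4, hv4, y, hy, hv4y⟩ := hmem v3 le_rfl
    have hyb : y.2 ∈ b η := hi β y hy
    have hyr : Cond.res η y.2 = y.2 := hS.below _ hyb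
    -- restrict `v4`
    have h5 : TLe (NW (cut S.W η) (goodW_cut fun ζ _ => S.good ζ)) (v4.1, Cond.res η v4.2)
        (y.1, y.2) := res_le hWW hv4y hyr
    have h6 : TLe (NW (cut S.W η) (goodW_cut fun ζ _ => S.good ζ)) (v4.1, Cond.res η v4.2)
        (x.1, x.2) := res_le (x := v4) (y := (x.1, x.2)) hWW (hv4.trans (hv3.trans hv2x)) hxr
    obtain ⟨w', hw'y, hw'd2⟩ := hS.c1 (y.1, ⟨y.2, hyb⟩) d2 _ h5 (h6.trans hxd2)
    exact h1 w' hw'd2 (meets_of_le (s := ((y.1, ⟨y.2, hyb⟩) :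
      Two ((NW (cut S.W η) (goodW_cut fun ζ _ => S.good ζ)).sub (b η)))) hy hw'y)

end

theorem lt_plusOmega {κ μ : Cardinal.{0}} (h : μ < plusOmega κ) : ∃ n, μ ≤ plus κ n := by
  unfold plusOmega at h
  obtain ⟨n, hn⟩ := exists_lt_of_lt_ciSup h
  exact ⟨n, hn.le⟩

theorem le_plus' (μ : Cardinal.{0}) (n : ℕ) : μ ≤ plus μ n := by
  induction n with
  | zero => exact le_rfl
  | succ n ih => exact ih.trans (Order.le_succ _)

/-- the stem at `η` is bounded -/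
theorem stem_bdd {κ : Cardinal.{0}} (hκ : κ.IsRegular) {L R I : Type} [LinearOrder L]
    (p : BC κ L R I) (η : L) : ∃ β0 : κ.ord.ToType, ∀ β, β0 ≤ β → ∀ u, (η, (β, u)) ∉ p.s := by
  have hsm : #((fun z : L × (κ.ord.ToType × R) => z.2.1) '' p.s) < κ :=
    mk_image_le.trans_lt p.hs
  obtain ⟨ζ, hζ⟩ : ∃ ζ : κ.ord.ToType,
      ∀ β ∈ (fun z : L × (κ.ord.ToType × R) => z.2.1) '' p.s, β < ζ := by
    by_contra hcon
    push Not at hcon
    have hunb : IsCofinal ((fun z : L × (κ.ord.ToType × R) => z.2.1) '' p.s) := by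
      intro ζ
      obtain ⟨β, hβ, h⟩ := hcon ζ
      exact ⟨β, hβ, h⟩
    have hcof := Order.cof_le hunb
    rw [Ordinal.cof_toType, hκ.cof_ord] at hcof
    exact absurd hsm (not_lt.2 hcof)
  exact ⟨ζ, fun β hβ u hu => absurd (hζ β ⟨_, hu, rfl⟩) (not_lt.2 hβ)⟩

end Pool.Agent.Helper403.SK.TB5

namespace Pool.Agent.Helper403.SK

open Cardinal Set Pool.Agent.Helper669 Pool.Agent.Helper669.Forcing Pool.Agent.Helper669.K TB5

theorem jobB5 (h2c : StmtB2c) (h2d : StmtB2d) (h3 : StmtB3) (h4 : StmtB4) : StmtB5 := by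
  intro κ L R I _ _ _ hκ hG hR e b S hreg hcc he hb hL μ hμ q0 q1 hq1 hSF
  have hκ0 : ℵ₀ ≤ κ := hκ.1.le
  have hKκ : #κ.ord.ToType = κ := mk_ord_toType κ
  obtain ⟨q2, hq2, F, hF1, hF2⟩ := mem_fex.1 hSF q1 le_rfl
  -- nice names
  choose N' hN'1 hN'2 using fun (i : μ.out) (β : κ.ord.ToType) => exists_nice hcc (F i β)
  choose ι hι using fun i => he (N' i) (hN'1 i)
  obtain ⟨n, hn⟩ := lt_plusOmega hμ
  have hpn : ℵ₀ ≤ plus κ n := hκ0.trans (le_plus' κ n)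
  have hκn : κ ≤ plus κ n := le_plus' κ n
  -- the conditions in the names
  let S0 : Set (BC κ L R I) := ⋃ (i : μ.out), ⋃ (β : κ.ord.ToType),
    (fun y : R × BC κ L R I => y.2) '' (N' i β)
  have hS0 : #S0 ≤ plus κ n := by
    refine KDelta.small_iUnion hpn ((mk_out μ).le.trans hn) _ fun i => ?_
    refine KDelta.small_iUnion hpn (hKκ.le.trans hκn) _ fun β => ?_
    exact mk_image_le.trans ((hN'1 i β).trans hκn)
  obtain ⟨γ, hγ⟩ := hL (⋃ y ∈ S0, (Prod.fst '' y.s ∪ Prod.fst '' y.E)) ⟨n, by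
    refine KDelta.small_biUnion hpn _ hS0 _ fun y _ => ?_
    refine (KDelta.small_union hκ0 ?_ ?_).trans hκn
    · exact mk_image_le.trans y.hs.le
    · exact mk_image_le.trans y.hE.le⟩
  have hS0γ : ∀ y ∈ S0, Cond.res γ y = y := by
    intro y hy
    ext z
    · refine ⟨fun h => h.1, fun h => ⟨h, hγ _ ?_⟩⟩
      simp only [Set.mem_iUnion]
      exact ⟨y, hy, Or.inl ⟨z, h, rfl⟩⟩
    · refine ⟨fun h => h.1, fun h => ⟨h, hγ _ ?_⟩⟩
      simp only [Set.mem_iUnion]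
      exact ⟨y, hy, Or.inr ⟨z, h, rfl⟩⟩
  obtain ⟨S', hS'0, hS'⟩ := h4 κ L R I hκ hG hR.size hR.ne hR.cc S.W S.good γ S0 n hS0γ hS0
  obtain ⟨η, hγη, hη⟩ := hb S' hS'.card γ
  subst hη
  have hWW : ∀ ζ < η, S.W ζ = cut S.W η ζ := fun ζ hζ => (cut_of_lt S.W hζ).symm
  have hgs : GoodSub (NW (cut S.W η) (goodW_cut fun ζ _ => S.good ζ)) η (b η) :=
    (h2d κ L R I hκ0 S.W (cut S.W η) S.good (goodW_cut fun ζ _ => S.good ζ) η hWW).2 γ hγη _ hS'
  obtain ⟨U, hUm, hU⟩ := S.inl η hgs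
  -- the generic set has full size
  have hfull : ∀ q, q ∈ HasFullSize (P := Two (NW S.W S.good)) (Agen κ L R I η) := by
    intro q
    refine hasFullSize_of_unbounded hκ0 hreg _ q fun q' _ β => ?_
    obtain ⟨r1, hr1, z, hz, β', hβ', hrel⟩ := h3 κ L R I hκ e b S q'.1 q'.2 η (Set.Iio β)
      (mk_Iio_toType_ord_lt β)
    refine ⟨((r1, amal hκ.1.le z q'.2 η {(β', r1)} (Set.finite_singleton _)) :
      Two (NW S.W S.good)), ⟨hr1, hrel⟩, β', not_lt.1 hβ', meets_of_mem ?_⟩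
    exact ⟨r1, Or.inr ⟨rfl, rfl⟩, le_rfl⟩
  obtain ⟨q3, hq3, h5⟩ := mem_fimp.1 (hF2 (Agen κ L R I η)) q2 le_rfl (hfull q2)
  obtain ⟨q4, hq4, i, hsp1, hsp2⟩ := mem_fex.1 h5 q3 le_rfl
  have hi : ∀ β, ∀ y ∈ e (ι i) β, y.2 ∈ b η := by
    intro β y hy
    rw [hι i] at hy
    refine hS'0 ?_
    simp only [S0, Set.mem_iUnion]
    exact ⟨i, β, y, hy, rfl⟩
  have hFe : ∀ β (w : Two (NW S.W S.good)), w ∈ meets (P := Two (NW S.W S.good)) (e (ι i) β) ↔
      w ∈ meets (F i β) := by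
    intro β w
    rw [hι i]
    exact hN'2 i β w
  -- decide on which side the name is
  obtain ⟨e0, he0, he0s, he0E⟩ := hgs.emp
  have hdense : ((q4.1, ⟨e0, he0⟩) :
      Two ((NW (cut S.W η) (goodW_cut fun ζ _ => S.good ζ)).sub (b η))) ∈
      meets (meets (U (cutName (b η) (e (ι i)))) ∪ fnot (meets (U (cutName (b η) (e (ι i)))))) := by
    intro y _
    obtain ⟨y', hy', h⟩ := exists_decide' (U (cutName (b η) (e (ι i)))) y
    exact ⟨y', hy', y', h, le_rfl⟩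
  have hle0 : TLe (NW (cut S.W η) (goodW_cut fun ζ _ => S.good ζ)) (q4.1, Cond.res η q4.2)
      (q4.1, e0) := by
    refine ⟨le_rfl, ?_, fun ζ β t _ => ⟨fun h => ?_, fun j hj => ?_⟩⟩
    · rw [he0E]
      exact Set.empty_subset _
    · obtain ⟨_, _, u, hu, _⟩ := h t le_rfl
      have hu' : (ζ, (β, u)) ∈ e0.s := hu
      rw [he0s] at hu'
      exact hu'.elim
    · rw [he0E] at hj
      exact hj.elim
  obtain ⟨x', hx', d', ⟨d, hd, rfl⟩, hxd'⟩ := hgs.c2 _ _ hdense _ hle0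
  have hdr : Cond.res η d.2.1 = d.2.1 := hgs.below _ d.2.2
  obtain ⟨x, hxdef⟩ : ∃ x : Two (NW (cut S.W η) (goodW_cut fun ζ _ => S.good ζ)),
    x = (x'.1, Cond.res η x'.2) := ⟨_, rfl⟩
  have hxr : Cond.res η x.2 = x.2 := by
    rw [hxdef]
    exact Cond.res_res le_rfl _
  have hxq : TLe (NW (cut S.W η) (goodW_cut fun ζ _ => S.good ζ)) x (q4.1, Cond.res η q4.2) := by
    rw [hxdef]
    exact res_le (fun _ _ => rfl) hx' (Cond.res_res le_rfl _)
  have hxd : TLe (NW (cut S.W η) (goodW_cut fun ζ _ => S.good ζ)) x (d.1, d.2.1) := by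
    rw [hxdef]
    exact res_le (fun _ _ => rfl) hxd' hdr
  -- add the promise
  obtain ⟨p1, hp1def⟩ : ∃ p1, p1 = addE hκ0 q4.2 η (Sum.inl (ι i) : I ⊕ κ.ord.ToType) := ⟨_, rfl⟩
  have hp1r : Cond.res η p1 = Cond.res η q4.2 := by
    rw [hp1def]
    exact addE_res hκ0 η _
  have hxrel : x.1 ∈ relW S.W x.2 (Cond.res η p1) := by
    rw [hp1r]
    have h6 : x.1 ∈ relW (cut S.W η) x.2 (Cond.res η q4.2) := hxq.2
    rwa [← relW_congr hWW (Cond.res_res le_rfl _) hxr] at h6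
  obtain ⟨h6, -⟩ := h2c κ L R I hκ0 S.W S.good η x.2 p1 x.1 ∅ Set.finite_empty hxr hxrel
    (fun z hz => hz.elim)
  obtain ⟨q5, hq5def⟩ : ∃ q5 : Two (NW S.W S.good),
    q5 = (x.1, amal hκ0 x.2 p1 η ∅ Set.finite_empty) := ⟨_, rfl⟩
  have hq5 : q5 ≤ q4 := by
    have h7 : TLe (NW S.W S.good) q5 (q4.1, p1) := by
      rw [hq5def]
      exact ⟨hxq.1, h6⟩
    refine h7.trans ⟨le_rfl, ?_⟩
    rw [hp1def]
    exact addE_rel hκ0 S.W q4.2 η _ _
  have hq5E : (η, Sum.inl (ι i)) ∈ q5.2.E := by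
    rw [hq5def, hp1def]
    exact Or.inr ⟨Set.mem_insert _ _, le_rfl⟩
  have hq5r : Cond.res η q5.2 = x.2 := by
    rw [hq5def]
    exact (amal_res hκ0 Set.finite_empty hxr le_rfl).trans hxr
  have hq5d : TLe (NW (cut S.W η) (goodW_cut fun ζ _ => S.good ζ)) (q5.1, Cond.res η q5.2)
      (d.1, d.2.1) := by
    rw [hq5r, hq5def]
    exact hxd
  obtain ⟨β0, hβ0⟩ := stem_bdd hκ.isRegular q5.2 η
  rcases hd with hd | hd
  · -- the generic set is almost contained in the name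
    obtain ⟨q6, hq6, β, hβ, hmem⟩ := unb833 _ q4 hsp2 q5 hq5 β0
    obtain ⟨q7, hq7, hA, hnF⟩ := exists_of_meets
      (down_fand (down_meets _) (down_fnot _)) hmem
    have h8 := (key h2c h2d hκ0 S η hgs U hU (ι i) hi d q5 hq5E hq5d β (hβ0 β hβ) q7
      (hq7.trans hq6) hA).1 hd
    exact hnF q7 le_rfl ((hFe β q7).1 h8)
  · -- the generic set is almost disjoint from the name
    obtain ⟨q6, hq6, β, hβ, hmem⟩ := unb833 _ q4 hsp1 q5 hq5 β0
    obtain ⟨q7, hq7, hA, hnF⟩ := exists_of_meets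
      (down_fand (down_meets _) (down_meets _)) hmem
    have h8 := (key h2c h2d hκ0 S η hgs U hU (ι i) hi d q5 hq5E hq5d β (hβ0 β hβ) q7
      (hq7.trans hq6) hA).2 hd
    exact h8 q7 le_rfl ((hFe β q7).2 hnF)

end Pool.Agent.Helper403.SK
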