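import Mathlib
import Pool.Agent.Helper403_SK.CBasic
import Pool.Agent.Helper669.KA2

set_option autoImplicit false

/-!
# Meeting few dense sets above a small set of low parts
-/

namespace Pool.Agent.Helper403.SK.TC2

open Cardinal Set Pool.Agent.Helper669.Forcing Pool.Agent.Helper669.K Pool.Agent.W873.Tp
open Pool.Agent.W873.Vi

variable {κ : Cardinal.{0}}

/-- the two step iteration, ordered by: `g' ≤ g` if `a + g' ≤ a + g` for all `a ∈ A` -/
def GA {S : Sys κ} {Θ : Type} (N : NOrd S.RR Θ) (_α : Ik κ) (_A : Set S.RR) : Type := Two N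

instance {S : Sys κ} {Θ : Type} (N : NOrd S.RR Θ) (α : Ik κ) (A : Set S.RR) :
    Preorder (GA N α A) where
  le g' g := ∀ a ∈ A, S.catT N α a g' ≤ S.catT N α a g
  le_refl _ _ _ := le_rfl
  le_trans _ _ _ h h' a ha := (h a ha).trans (h' a ha)

/-- job C2 -/
theorem jobC2 : StmtC1 → StmtC2 := by
  intro h1 κ hκ S Θ N hN α μ hμ hμκ hμ0 A hAne hAlow hAdown hAμ J Δ hJ hΔ hdense g
  obtain ⟨a0, ha0⟩ := hAne
  have hcons : ∀ g g' : Two N, S.catT N α a0 g' ≤ S.catT N α a0 g → S.Cons α g.1 g'.1 := by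
    intro g g' hle ξ hξ c x c' x' hx hx'
    have h2 : (S.cat α a0 g.1).1 ξ = some (c, x) := (Sys.cat_apply_of_lt _ _ hξ).trans hx
    obtain ⟨x'', h3, _⟩ := hle.1 ξ c x h2
    have h4 : (S.cat α a0 g'.1).1 ξ = some (c', x') := (Sys.cat_apply_of_lt _ _ hξ).trans hx'
    have h5 : some (c', x') = some (c, x'') := h4.symm.trans h3
    simp only [Option.some.injEq, Prod.mk.injEq] at h5
    exact h5.1.symm
  have hcons' : ∀ g g' : S.RR, S.Cons α g g' → S.Cons α g' g := by
    intro g g' h ξ hξ c x c' x' hx hx'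
    exact (h ξ hξ c' x' c x hx' hx).symm
  have hmul : ∀ c : Cardinal.{0}, c < μ → #A * c < μ := fun c hc => mul_lt_of_lt hμ0 hAμ hc
  -- closure
  have hclosed : DirClosed μ (GA N α A) := by
    intro D hD hDne hdir
    obtain ⟨g1, hg1⟩ := h1 κ hκ S Θ N hN α μ hμ hμκ (A ×ˢ (show Set (Two N) from D)) (by
      have h9 := hmul _ hD
      have h8 := mk_setProd A (show Set (Two N) from D)
      exact lt_of_eq_of_lt h8 h9)
      (fun a ha => hAlow _ ha.1)
      (fun a ha b hb => by
        obtain ⟨c, hc, hca, hcb⟩ := hdir a.2 ha.2 b.2 hb.2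
        intro ξ hξ c1 x1 c2 x2 hx1 hx2
        -- the codes of `c` agree with those of `a` and `b`
        have h2 : (S.cat α a0 a.2.1).1 ξ = some (c1, x1) :=
          (Sys.cat_apply_of_lt _ _ hξ).trans hx1
        have h3 : (S.cat α a0 b.2.1).1 ξ = some (c2, x2) :=
          (Sys.cat_apply_of_lt _ _ hξ).trans hx2
        obtain ⟨y1, h4, _⟩ := (hca a0 ha0).1 ξ c1 x1 h2
        obtain ⟨y2, h5, _⟩ := (hcb a0 ha0).1 ξ c2 x2 h3
        have h6 : some (c1, y1) = some (c2, y2) := h4.symm.trans h5
        simp only [Option.some.injEq, Prod.mk.injEq] at h6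
        exact h6.1)
      (fun a ha b hb t ht hta htb => by
        obtain ⟨c, hc, hca, hcb⟩ := hdir a.2 ha.2 b.2 hb.2
        have htA : t ∈ A := hAdown a.1 ha.1 t hta ht
        exact ⟨t, ht, le_rfl, (t, c), ⟨htA, hc⟩, le_rfl, hca t htA, hcb t htA⟩)
    exact ⟨g1, fun d hd a ha => hg1 (a, d) ⟨ha, hd⟩⟩
  -- the dense sets
  let T : Type := J × A
  have hT : #T < μ := by
    have h2 : #T = #J * #A := by simp [T]
    rw [h2, mul_comm]
    exact hmul _ hJ
  obtain ⟨g', hg', hall⟩ := exists_forall_mem hμ0 hclosed (N := T) hT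
    (fun t => {g1 : GA N α A | ∃ a' ∈ A, a' ≤ t.2.1 ∧ S.catT N α a' g1 ∈ Δ t.1})
    (fun t g1 hg1 g2 hg2 => by
      obtain ⟨a', ha', hle, hmem⟩ := hg1
      exact ⟨a', ha', hle, hΔ t.1 _ hmem _ (hg2 a' ha')⟩)
    (fun t g1 => by
      obtain ⟨q', hq', hmem⟩ := hdense t.1 (S.catT N α t.2.1 g1)
      have hlow : S.low hκ α q'.1 ≤ t.2.1 := by
        have h2 : q'.1 ≤ t.2.1 := hq'.1.trans (Sys.cat_le_left (hAlow _ t.2.2) _)
        have h3 := Sys.low_mono hκ (α := α) h2
        rwa [Sys.low_eq hκ (hAlow _ t.2.2)] at h3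
      have hlA : S.low hκ α q'.1 ∈ A := hAdown _ t.2.2 _ hlow (Sys.low_low hκ α _)
      have hqg : ∀ b, b ≤ S.low hκ α q'.1 → S.catT N α b q' ≤ S.catT N α b g1 := fun b hb =>
        Sys.catT_le_catT hκ hq' hb
      have hc1 : S.Cons α g1.1 q'.1 := by
        intro ξ hξ c x c' x' hx hx'
        have h2 : (S.cat α t.2.1 g1.1).1 ξ = some (c, x) := (Sys.cat_apply_of_lt _ _ hξ).trans hx
        obtain ⟨x'', h3, _⟩ := hq'.1 ξ c x h2
        have h4 : q'.1.1 ξ = some (c', x') := hx'
        rw [h4] at h3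
        simp only [Option.some.injEq, Prod.mk.injEq] at h3
        exact h3.1.symm
      have hcr : ∀ g : S.RR, S.Cons α g g := by
        intro g ξ _ c x c' x' hx hx'
        rw [hx] at hx'
        simp only [Option.some.injEq, Prod.mk.injEq] at hx'
        exact hx'.1
      obtain ⟨g2, hg2⟩ := h1 κ hκ S Θ N hN α μ hμ hμκ
        (insert (S.low hκ α q'.1, q') (A ×ˢ ({g1} : Set (Two N)))) (by
          refine lt_of_le_of_lt mk_insert_le ?_
          refine add_lt_of_lt hμ0 ?_ (lt_of_lt_of_le one_lt_aleph0 hμ0)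
          rw [mk_setProd]
          have := hmul 1 (lt_of_lt_of_le one_lt_aleph0 hμ0)
          simpa using this)
        (fun a ha => by
          rcases ha with rfl | ha
          · exact Sys.low_low hκ α _
          · exact hAlow _ ha.1)
        (fun a ha b hb => by
          rcases ha with rfl | ha
          · rcases hb with rfl | hb
            · exact hcr _
            · have h2 : b.2 = g1 := hb.2
              rw [h2]
              exact hcons' _ _ hc1
          · have h2 : a.2 = g1 := ha.2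
            rw [h2]
            rcases hb with rfl | hb
            · exact hc1
            · have h3 : b.2 = g1 := hb.2
              rw [h3]
              exact hcr _)
        (fun a ha b hb t' ht' hta htb => by
          rcases ha with rfl | ha
          · refine ⟨t', ht', le_rfl, _, Or.inl rfl, hta, le_rfl, ?_⟩
            rcases hb with rfl | hb
            · exact le_rfl
            · have h3 : b.2 = g1 := hb.2
              rw [h3]
              exact hqg _ hta
          · have h2 : a.2 = g1 := ha.2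
            rcases hb with rfl | hb
            · refine ⟨t', ht', le_rfl, _, Or.inl rfl, htb, ?_, le_rfl⟩
              rw [h2]
              exact hqg _ htb
            · have h3 : b.2 = g1 := hb.2
              refine ⟨t', ht', le_rfl, a, Or.inr ha, hta, le_rfl, ?_⟩
              rw [h2, h3])
      refine ⟨g2, fun a ha => hg2 (a, g1) (Or.inr ⟨ha, rfl⟩), ?_⟩
      refine ⟨S.low hκ α q'.1, hlA, hlow, hΔ t.1 _ hmem _ ?_⟩
      exact (hg2 _ (Or.inl rfl)).trans (Sys.catT_le_right hκ le_rfl)) g
  exact ⟨g', hg', fun i a ha => hall (i, ⟨a, ha⟩)⟩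

end Pool.Agent.Helper403.SK.TC2
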