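import Mathlib
import Pool.Agent.Helper403_SK.CDefs

set_option autoImplicit false

/-!
# Traces of the members of a normal fine ultrafilter (job C5a)
-/

namespace Pool.Agent.Helper403.SK.TC5a

open Cardinal Set Filter Pool.Agent.Helper669.Forcing Pool.Agent.Helper669.K
open Pool.Agent.W873.Tp Pool.Agent.W873.Vi

variable {κ : Cardinal.{0}} {M : Type} {U : Ultrafilter (Set M)}

/-- the trace -/
theorem exists_trace (hκ : κ.IsInaccessible) (hU : NormalFine κ M U) (k : Ik κ → M)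
    (hk : Function.Injective k) : ∃ α : Set M → Ik κ,
    ∀ᶠ X in (U : Filter (Set M)), ∀ a, k a ∈ X ↔ a < α X := by
  classical
  obtain ⟨z⟩ : Nonempty (Ik κ) := by
    rw [← mk_ne_zero_iff, mk_ord_toType]
    exact hκ.ne_zero
  refine ⟨fun X => if h : ∃ m : Ik κ, ∀ a, k a ∈ X ↔ a < m then h.choose else z, ?_⟩
  filter_upwards [down_closed hU k hk mk_IioK, hU.small] with X h1 h2
  have h : ∃ m : Ik κ, ∀ a, k a ∈ X ↔ a < m := by
    refine exists_seg (x := {a | k a ∈ X}) h1 ?_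
    exact (mk_le_of_injective (f := fun a : {a | k a ∈ X} => (⟨k a.1, a.2⟩ : X))
      fun a b hab => Subtype.ext (hk (congrArg Subtype.val hab))).trans_lt h2
  rw [dif_pos h]
  exact h.choose_spec

theorem trace_isD (hκ : κ.IsInaccessible) (hU : NormalFine κ M U) (k : Ik κ → M)
    (hk : Function.Injective k) (α : Set M → Ik κ)
    (hα : ∀ᶠ X in (U : Filter (Set M)), ∀ a, k a ∈ X ↔ a < α X) :
    ∀ᶠ X in (U : Filter (Set M)), IsD (α X) := by
  classical
  have hex : ∀ a : Ik κ, ∃ b : Ik κ, #(Set (Iio a)) ≤ #(Iio b) := fun a => by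
    obtain ⟨b, hb⟩ := exists_mk_Iio (κ := κ) (lt_set hκ (mk_IioK a))
    exact ⟨b, hb.ge⟩
  choose g hg using hex
  obtain ⟨a0, ha0⟩ := exists_mk_Iio (κ := κ) (aleph1_lt hκ)
  have hcl := hU.closed fun x => if h : ∃ a, k a = x then k (g h.choose) else x
  filter_upwards [hα, hcl, no_cofinal hκ hU k hk, hU.fine (k a0)] with X h1 h2 h3 h4
  have h5 := seg_inacc (m := α X) (fun b hb f hf => ?_) (fun a ha => ?_) ?_
  · exact ⟨h5.1, h5.2.1, h5.2.2⟩
  · obtain ⟨c, hc, h6⟩ := h3 b ((h1 b).2 hb) f fun i => (h1 _).2 (hf i)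
    exact ⟨c, (h1 c).1 hc, h6⟩
  · refine ⟨g a, (h1 _).1 ?_, hg a⟩
    have h6 := h2 (k a) ((h1 a).2 ha)
    have h7 : ∃ a', k a' = k a := ⟨a, rfl⟩
    rw [dif_pos h7, hk h7.choose_spec] at h6
    exact h6
  · refine ⟨a0, (h1 a0).1 h4, ?_⟩
    rw [ha0]
    exact aleph0_lt_aleph_one

/-- a small subset chosen in almost every member is constant -/
theorem const_small (hκ : κ.IsInaccessible) (hU : NormalFine κ M U) (k : Ik κ → M)
    (hk : Function.Injective k) (α : Set M → Ik κ)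
    (hα : ∀ᶠ X in (U : Filter (Set M)), ∀ a, k a ∈ X ↔ a < α X) (Q : Set M → Set M → Prop)
    (hQ : ∀ᶠ X in (U : Filter (Set M)), ∃ D : Set M, D ⊆ X ∧ #D < #(Iio (α X)) ∧ Q X D) :
    ∃ D, ∀ᶠ X in (U : Filter (Set M)), Q X D := by
  classical
  have h0 : ∃ (g : Set M → Ik κ), ∃ f : Set M → Ik κ → M, ∀ᶠ X in (U : Filter (Set M)),
      k (g X) ∈ X ∧ (∀ i < g X, f X i ∈ X) ∧ Q X (f X '' Iio (g X)) := by
    have h1 : ∀ᶠ X in (U : Filter (Set M)), ∃ (b : Ik κ) (f : Ik κ → M),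
        k b ∈ X ∧ (∀ i < b, f i ∈ X) ∧ Q X (f '' Iio b) := by
      filter_upwards [hα, hQ] with X h1 h2
      obtain ⟨D, hD, hc, hq⟩ := h2
      obtain ⟨b, hb⟩ := exists_mk_Iio (κ := κ) (hc.trans (mk_IioK _))
      have hb' : b < α X := by
        by_contra hcon
        have := mk_le_mk_of_subset (Iio_subset_Iio (not_lt.1 hcon))
        rw [hb] at this
        exact absurd hc (not_lt.2 this)
      obtain ⟨e⟩ := Cardinal.eq.1 hb
      refine ⟨b, fun i => if h : i < b then (e ⟨i, h⟩).1 else k b, (h1 b).2 hb', ?_, ?_⟩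
      · intro i hi
        dsimp only
        rw [dif_pos hi]
        exact hD (e ⟨i, hi⟩).2
      · have h3 : (fun i => if h : i < b then (e ⟨i, h⟩).1 else k b) '' Iio b = D := by
          ext x
          constructor
          · rintro ⟨i, hi, rfl⟩
            dsimp only
            rw [dif_pos (show i < b from hi)]
            exact (e ⟨i, hi⟩).2
          · intro hx
            refine ⟨(e.symm ⟨x, hx⟩).1, (e.symm ⟨x, hx⟩).2, ?_⟩
            dsimp only
            rw [dif_pos (show (e.symm ⟨x, hx⟩).1 < b from (e.symm ⟨x, hx⟩).2)]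
            simp
        rw [h3]
        exact hq
    obtain ⟨X0, b0, f0, -⟩ := h1.exists
    refine ⟨fun X => if h : ∃ (b : Ik κ) (f : Ik κ → M),
        k b ∈ X ∧ (∀ i < b, f i ∈ X) ∧ Q X (f '' Iio b) then h.choose else b0,
      fun X => if h : ∃ (b : Ik κ) (f : Ik κ → M),
        k b ∈ X ∧ (∀ i < b, f i ∈ X) ∧ Q X (f '' Iio b) then h.choose_spec.choose else f0,
      h1.mono fun X hX => ?_⟩
    simp only [dif_pos hX]
    exact hX.choose_spec.choose_spec
  obtain ⟨g, f, h1⟩ := h0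
  obtain ⟨x, hx⟩ := hU.const (Q := fun X x => k (g X) = x) (h1.mono fun X hX => ⟨_, hX.1, rfl⟩)
  obtain ⟨X0, hX0⟩ := hx.exists
  have hg : ∀ᶠ X in (U : Filter (Set M)), g X = g X0 :=
    hx.mono fun X hX => hk (hX.trans hX0.symm)
  have hf : ∀ i : Iio (g X0), ∃ y, ∀ᶠ X in (U : Filter (Set M)), f X i = y := by
    intro i
    obtain ⟨y, hy⟩ := hU.const (Q := fun X y => f X i = y) (by
      filter_upwards [h1, hg] with X h2 h3
      exact ⟨_, h2.2.1 i.1 (by rw [h3]; exact i.2), rfl⟩)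
    exact ⟨y, hy⟩
  choose F hF using hf
  refine ⟨range F, ?_⟩
  filter_upwards [h1, hg, hU.complete (Iio (g X0)) (fun i X => f X i = F i) (mk_IioK _) hF]
    with X h2 h3 h4
  have h5 : f X '' Iio (g X) = range F := by
    rw [h3]
    ext y
    constructor
    · rintro ⟨i, hi, rfl⟩
      exact ⟨⟨i, hi⟩, (h4 ⟨i, hi⟩).symm⟩
    · rintro ⟨i, rfl⟩
      exact ⟨i.1, i.2, h4 i⟩
  rw [← h5]
  exact h2.2.2

theorem card_trace (hκ : κ.IsInaccessible) (hU : NormalFine κ M U) (k : Ik κ → M)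
    (hk : Function.Injective k) (α : Set M → Ik κ)
    (hα : ∀ᶠ X in (U : Filter (Set M)), ∀ a, k a ∈ X ↔ a < α X) (j : ℕ) :
    ∀ B : Set M, #B ≤ plus κ j →
      ∀ᶠ X in (U : Filter (Set M)), #(X ∩ B : Set M) ≤ plus #(Iio (α X)) j := by
  classical
  induction j with
  | zero =>
    intro B hB
    have hB' : #B ≤ #(Ik κ) := by
      rw [mk_ord_toType]
      exact hB
    obtain ⟨e⟩ := hB'
    filter_upwards [hα, hU.closed fun x => if h : x ∈ B then k (e ⟨x, h⟩) else x] with X h1 h2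
    refine mk_le_of_injective (f := fun x : (X ∩ B : Set M) =>
      (⟨e ⟨x.1, x.2.2⟩, ?_⟩ : Iio (α X))) fun x y hxy => ?_
    · refine (h1 _).1 ?_
      have h3 := h2 x.1 x.2.1
      rwa [dif_pos (show x.1 ∈ B from x.2.2)] at h3
    · have h3 := e.injective (congrArg Subtype.val hxy)
      exact Subtype.ext (Subtype.mk.inj h3)
  | succ j ih =>
    intro B hB
    have hB' : #B ≤ #((plus κ (j + 1)).ord.ToType) := by
      rw [mk_ord_toType]
      exact hB
    obtain ⟨e⟩ := hB'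
    have h1 : ∀ x, ∀ᶠ X in (U : Filter (Set M)),
        #(X ∩ {y | ∃ (hx : x ∈ B) (hy : y ∈ B), e ⟨y, hy⟩ < e ⟨x, hx⟩} : Set M) ≤
          plus #(Iio (α X)) j := by
      intro x
      refine ih _ ?_
      by_cases hx : x ∈ B
      · refine (mk_le_of_injective (f := fun y : {y | ∃ (hx : x ∈ B) (hy : y ∈ B),
          e ⟨y, hy⟩ < e ⟨x, hx⟩} => (⟨e ⟨y.1, y.2.2.1⟩, y.2.2.2⟩ : Iio (e ⟨x, hx⟩)))
          fun y z hyz => ?_).trans ?_
        · have h3 := e.injective (congrArg Subtype.val hyz)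
          exact Subtype.ext (Subtype.mk.inj h3)
        · exact Order.lt_succ_iff.1 (mk_Iio_lt' (κ := plus κ (j + 1)) _)
      · have h2 : {y | ∃ (hx : x ∈ B) (hy : y ∈ B), e ⟨y, hy⟩ < e ⟨x, hx⟩} = (∅ : Set M) := by
          refine Set.eq_empty_iff_forall_notMem.2 ?_
          rintro y ⟨h, _⟩
          exact hx h
        rw [h2, mk_eq_zero]
        exact zero_le
    filter_upwards [hU.diag h1] with X h2
    let E : (X ∩ B : Set M) ↪ (plus κ (j + 1)).ord.ToType :=
      ⟨fun x => e ⟨x.1, x.2.2⟩, fun x y hxy => by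
        have h3 := e.injective hxy
        exact Subtype.ext (Subtype.mk.inj h3)⟩
    have h3 : #(X ∩ B : Set M) = #(range E) := (mk_range_eq _ E.injective).symm
    rw [h3]
    refine mk_le_succ (range E) ?_
    rintro _ ⟨x, rfl⟩
    refine le_trans ?_ (h2 x.1 x.2.1)
    have h4 : {a | a ∈ range E ∧ a < E x} ⊆ range fun y : (X ∩ {y | ∃ (hx : x.1 ∈ B) (hy : y ∈ B),
        e ⟨y, hy⟩ < e ⟨x.1, hx⟩} : Set M) => E ⟨y.1, y.2.1, y.2.2.2.1⟩ := by
      rintro _ ⟨⟨y, rfl⟩, hy⟩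
      exact ⟨⟨y.1, y.2.1, x.2.2, y.2.2, hy⟩, rfl⟩
    exact (mk_le_mk_of_subset h4).trans mk_range_le

theorem jobC5a : StmtC5a := by
  intro κ hκ M U hU k hk
  classical
  obtain ⟨α, hα⟩ := exists_trace hκ hU k hk
  refine ⟨α, ?_, fun B j hB => card_trace hκ hU k hk α hα j B hB, ?_, ?_⟩
  · filter_upwards [hα, trace_isD hκ hU k hk α hα] with X h1 h2
    exact ⟨h2, h1⟩
  · intro T T' cT cT' hcT m
    by_contra hc
    rw [← Ultrafilter.eventually_not] at hc
    obtain ⟨D, hD⟩ := const_small hκ hU k hk α hα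
      (fun X D => ∃ D' : Set T, cT '' D' = D ∧ cT' (m D') ∉ X) (by
        refine hc.mono fun X hX => ?_
        push Not at hX
        obtain ⟨D, h1, h2, h3⟩ := hX
        refine ⟨cT '' D, ?_, mk_image_le.trans_lt h1, D, rfl, h3⟩
        rintro _ ⟨t, ht, rfl⟩
        exact h2 t ht)
    obtain ⟨X0, D0, hD0, -⟩ := hD.exists
    obtain ⟨X, h1, h2⟩ := (hD.and (hU.fine (cT' (m D0)))).exists
    obtain ⟨D', hD', h3⟩ := h1
    have h4 : D' = D0 := hcT.image_injective (hD'.trans hD0.symm)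
    rw [h4] at h3
    exact h3 h2
  · intro T cT ρ hcT hρ
    have h1 := hU.closed fun x => if h : ∃ t, cT t = x then k (ρ h.choose) else x
    have h2 := closedS hU (fun x => {y | ∃ γ, k γ = x ∧ ∃ t, ρ t ≤ γ ∧ cT t = y}) (by
      intro x
      by_cases hx : ∃ γ, k γ = x
      · obtain ⟨γ, rfl⟩ := hx
        refine lt_of_le_of_lt ?_ (hρ γ)
        refine (mk_le_mk_of_subset (t := cT '' {t | ρ t ≤ γ}) ?_).trans mk_image_le
        rintro _ ⟨γ', hγ, t, ht, rfl⟩
        rw [hk hγ] at ht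
        exact ⟨t, ht, rfl⟩
      · have h2 : {y | ∃ γ, k γ = x ∧ ∃ t, ρ t ≤ γ ∧ cT t = y} = (∅ : Set M) := by
          refine Set.eq_empty_iff_forall_notMem.2 ?_
          rintro y ⟨γ, h, _⟩
          exact hx ⟨γ, h⟩
        rw [h2, mk_eq_zero]
        exact hκ.pos)
    filter_upwards [hα, h1, h2] with X h3 h4 h5 t
    constructor
    · intro ht
      refine (h3 _).1 ?_
      have h6 := h4 _ ht
      have h7 : ∃ t', cT t' = cT t := ⟨t, rfl⟩
      rw [dif_pos h7, hcT h7.choose_spec] at h6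
      exact h6
    · intro ht
      exact h5 _ ((h3 _).2 ht) ⟨ρ t, rfl, t, le_rfl, rfl⟩

end Pool.Agent.Helper403.SK.TC5a
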