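import Mathlib
import Pool.Agent.Helper403_SK.CBasic
import Pool.Agent.Helper403_SK.TC5a

set_option autoImplicit false

/-!
# The preparation: size and chain condition (C3)
-/

namespace Pool.Agent.Helper403.SK.TC3

open Cardinal Set Filter Pool.Agent.Helper669.Forcing Pool.Agent.Helper669.K
open Pool.Agent.W873.Tp Pool.Agent.W873.Vi Pool.Agent.Helper403.SK

variable {κ : Cardinal.{0}}

theorem mk_fun_le (hκ : κ.IsInaccessible) {A : Type} (hA : #A < κ) : #(A → Ik κ) ≤ κ := by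
  have hb : ∀ f : A → Ik κ, ∃ b, ∀ a, f a < b := fun f => by
    obtain ⟨b, hb⟩ := bddK hκ.isRegular (range f) (mk_range_le.trans_lt hA)
    exact ⟨b, fun a => hb _ ⟨a, rfl⟩⟩
  choose B hB using hb
  have h1 : #(A → Ik κ) ≤ #((b : Ik κ) × (A → Iio b)) := by
    refine mk_le_of_injective (f := fun f => ⟨B f, fun a => ⟨f a, hB f a⟩⟩) ?_
    intro f g h
    simp only [Sigma.mk.injEq] at h
    obtain ⟨h2, h3⟩ := h
    funext a
    have h5 : ∀ (b b' : Ik κ) (_ : b = b') (f : A → Iio b) (g : A → Iio b'), f ≍ g →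
        ∀ a, (f a : Ik κ) = g a := by
      rintro b _ rfl f g hfg a
      rw [eq_of_heq hfg]
    exact h5 _ _ h2 _ _ h3 a
  refine h1.trans ?_
  rw [mk_sigma]
  refine (sum_le_sum _ (fun _ => κ) fun b => (lt_fun hκ hA (mk_IioK b)).le).trans ?_
  rw [sum_const, lift_id, lift_id, mk_ord_toType]
  exact (mul_eq_self hκ.aleph0_lt.le).le

theorem mk_RR_le (hκ : κ.IsInaccessible) (S : Sys κ) : #S.RR ≤ κ := by
  have hO : #(Option (Ik κ × Ik κ)) ≤ #(Ik κ) := by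
    rw [mk_option, mk_prod, lift_id, mk_ord_toType, mul_eq_self hκ.aleph0_lt.le]
    exact add_le_of_le hκ.aleph0_lt.le le_rfl (one_lt_aleph0.le.trans hκ.aleph0_lt.le)
  obtain ⟨e⟩ := hO
  have hb : ∀ r : S.RR, ∃ γ, ∀ ξ, r.1 ξ ≠ none → ξ < γ := fun r => r.2.bdd
  choose γ hγ using hb
  have h1 : #S.RR ≤ #((b : Ik κ) × (Iio b → Ik κ)) := by
    refine mk_le_of_injective (f := fun r => ⟨γ r, fun ξ => e (r.1 ξ)⟩) ?_
    intro r r' h
    simp only [Sigma.mk.injEq] at h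
    obtain ⟨h2, h3⟩ := h
    have h5 : ∀ (b b' : Ik κ) (_ : b = b') (f : Iio b → Ik κ) (g : Iio b' → Ik κ), f ≍ g →
        ∀ ξ (hξ : ξ < b) (hξ' : ξ < b'), f ⟨ξ, hξ⟩ = g ⟨ξ, hξ'⟩ := by
      rintro b _ rfl f g hfg ξ hξ hξ'
      rw [eq_of_heq hfg]
    refine Subtype.ext (funext fun ξ => ?_)
    by_cases hξ : ξ < γ r
    · exact e.injective (h5 _ _ h2 _ _ h3 ξ hξ (h2 ▸ hξ))
    · have h6 : r.1 ξ = none := by
        by_contra hc
        exact hξ (hγ r ξ hc)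
      have h7 : r'.1 ξ = none := by
        by_contra hc
        exact hξ (h2 ▸ hγ r' ξ hc)
      rw [h6, h7]
  refine h1.trans ?_
  rw [mk_sigma]
  refine (sum_le_sum _ (fun _ => κ) fun b => mk_fun_le hκ (mk_IioK b)).trans ?_
  rw [sum_const, lift_id, lift_id, mk_ord_toType]
  exact (mul_eq_self hκ.aleph0_lt.le).le

theorem ccs (hsc : IsSupercompact κ) (hκ : κ.IsInaccessible) (S : Sys κ) : CCS S.RR κ := by
  intro ι f hι
  obtain ⟨g⟩ : #(Ik κ) ≤ #ι := by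
    rw [mk_ord_toType]
    exact hι
  obtain ⟨U, hU⟩ := hsc.2 (Ik κ)
  obtain ⟨α, hα, -, -, -⟩ := TC5a.jobC5a κ hκ (Ik κ) U hU id Function.injective_id
  -- the supports are bounded
  obtain ⟨γ, hγ⟩ := hU.const (Q := fun X γ => ∀ ξ < α X, (f (g (α X))).1 ξ ≠ none → ξ < γ) (by
    filter_upwards [hα] with X hX
    obtain ⟨γ, h1, h2⟩ := (f (g (α X))).2.bddD _ hX.1
    exact ⟨γ, (hX.2 γ).2 h1, h2⟩)
  -- the values are constant
  have hv : ∀ ξ : Iio γ, ∃ v, ∀ᶠ X in (U : Filter (Set (Ik κ))), (f (g (α X))).1 ξ.1 = v := by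
    intro ξ
    by_cases hn : ∀ᶠ X in (U : Filter (Set (Ik κ))), (f (g (α X))).1 ξ.1 = none
    · exact ⟨none, hn⟩
    · have hn' := Ultrafilter.eventually_not.2 hn
      have h1 : ∀ᶠ X in (U : Filter (Set (Ik κ))), ∃ c ∈ X, ∃ x ∈ X,
          (f (g (α X))).1 ξ.1 = some (c, x) := by
        filter_upwards [hn', hα, hU.fine ξ.1] with X h2 h3 h4
        obtain ⟨⟨c, x⟩, hcx⟩ := Option.ne_none_iff_exists'.1 h2
        have h5 := ((f (g (α X))).2.code ξ.1 c x hcx).1 (α X) h3.1 ((h3.2 ξ.1).1 h4)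
        exact ⟨c, (h3.2 c).2 h5.1, x, (h3.2 x).2 h5.2, hcx⟩
      obtain ⟨c, hc⟩ := hU.const h1
      obtain ⟨x, hx⟩ := hU.const hc
      exact ⟨some (c, x), hx⟩
  choose v hv using hv
  have hv' := hU.complete (Iio γ) (fun ξ X => (f (g (α X))).1 ξ.1 = v ξ) (mk_IioK γ) hv
  obtain ⟨X1, h1, h2, h3, h4⟩ := (hα.and (hγ.and (hv'.and (hU.fine γ)))).exists
  obtain ⟨b, hb⟩ := (f (g (α X1))).2.bdd
  obtain ⟨X2, h5, h6, h7, h8, h9⟩ := (hα.and (hγ.and (hv'.and ((hU.fine b).and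
    (hU.fine (α X1)))))).exists
  have hlt : α X1 < α X2 := (h5.2 _).1 h9
  have hbX : b < α X2 := (h5.2 _).1 h8
  have hγX : γ < α X1 := (h1.2 _).1 h4
  refine ⟨g (α X1), g (α X2), fun h => hlt.ne (g.injective h),
    S.cat b (f (g (α X1))) (f (g (α X2))), Sys.cat_le_left (fun ξ hξ => (hb ξ hξ).le) _, ?_⟩
  refine Sys.cat_le (fun ξ hξ c x hx => ?_) (fun ξ hξ c x hx => ?_)
  · have h10 : ξ < γ := h6 ξ (hξ.trans_lt hbX) (by rw [hx]; simp)
    have h11 : (f (g (α X1))).1 ξ = some (c, x) := by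
      rw [h3 ⟨ξ, h10⟩, ← h7 ⟨ξ, h10⟩]
      exact hx
    exact ⟨x, h11, S.le_refl' (f (g (α X1))).2 h11⟩
  · refine ⟨x, hx, S.le_refl' (S.cat b (f (g (α X1))) (f (g (α X2)))).2 ?_⟩
    exact (Sys.cat_apply_of_lt _ _ hξ).trans hx

end Pool.Agent.Helper403.SK.TC3

namespace Pool.Agent.Helper403.SK

open Pool.Agent.W873.Tp

theorem jobC3 : StmtC3 := fun _ hsc hκ S => ⟨⟨S.top hκ⟩, TC3.mk_RR_le hκ S, TC3.ccs hsc hκ S⟩

end Pool.Agent.Helper403.SK
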