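import Mathlib
import Pool.Agent.Helper403_SK.CBasic

set_option autoImplicit false

/-!
# Job C4: countable closure and small power sets after the preparation
-/

namespace Pool.Agent.Helper403.SK

open Cardinal Set Pool.Agent.Helper669.Forcing Pool.Agent.Helper669.K Pool.Agent.W873.Tp
open Pool.Agent.W873.Vi

namespace TC4

variable {κ : Cardinal.{0}}

/-- the least stage -/
theorem exists_bot (hκ : κ.IsInaccessible) : ∃ a : Ik κ, ∀ b : Ik κ, a ≤ b := by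
  obtain ⟨a0⟩ := nonempty_Ik hκ
  obtain ⟨a, -, ha⟩ := WellFounded.has_min (wellFounded_lt (α := Ik κ)) Set.univ ⟨a0, trivial⟩
  exact ⟨a, fun b => not_lt.1 (ha b trivial)⟩

theorem not_isD_bot {a : Ik κ} (ha : ∀ b : Ik κ, a ≤ b) : ¬ IsD a := fun h => by
  obtain ⟨c, hc⟩ := h.exists_lt
  exact absurd hc (not_lt.2 (ha c))

theorem cat_bot {S : Sys κ} {α : Ik κ} (hα : ∀ b : Ik κ, α ≤ b) (a g : S.RR) :
    S.cat α a g = g := by
  refine Subtype.ext (funext fun ξ => ?_)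
  rcases le_or_gt ξ α with h | h
  · rw [Sys.cat_apply_of_le _ _ h]
    have h1 : ∀ g : S.RR, g.1 ξ = none := fun g => by
      by_contra hc
      have h2 := g.2.stage ξ hc
      have h3 : ξ = α := le_antisymm h (hα ξ)
      rw [h3] at h2
      exact not_isD_bot hα h2
    rw [h1 a, h1 g]
  · exact Sys.cat_apply_of_lt _ _ h

theorem dirClosed (h1 : StmtC1) (hκ : κ.IsInaccessible) (S : Sys κ) {Θ : Type}
    (N : NOrd S.RR Θ) (hN : NClosed κ N) : DirClosed ℵ₁ (Two N) := by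
  intro D hD hne hdir
  obtain ⟨α, hα⟩ := exists_bot hκ
  have hbot : ∀ (t : S.RR) (g : Two N), S.catT N α t g = g := fun t g =>
    Prod.ext (cat_bot hα t g.1) rfl
  obtain ⟨g, hg⟩ := h1 κ hκ S Θ N hN α ℵ₁ (fun d hd _ => by
      rw [← succ_aleph0]
      exact Order.succ_le_of_lt hd.aleph0_lt)
    (by
      rw [← succ_aleph0]
      exact Order.succ_le_of_lt hκ.1)
    ((fun g => (S.top hκ, g)) '' D) (mk_image_le.trans_lt hD)
    (by
      rintro _ ⟨g, hg, rfl⟩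
      exact S.low_top hκ α)
    (by
      rintro _ ⟨g, hg, rfl⟩ _ ⟨g', hg', rfl⟩ ξ _ c x c' x' hx hx'
      obtain ⟨g2, hg2, h2, h3⟩ := hdir g hg g' hg'
      obtain ⟨y, h4, _⟩ := h2.1 ξ c x hx
      obtain ⟨y', h5, _⟩ := h3.1 ξ c' x' hx'
      rw [h4] at h5
      simp only [Option.some.injEq, Prod.mk.injEq] at h5
      exact h5.1)
    (by
      rintro _ ⟨g, hg, rfl⟩ _ ⟨g', hg', rfl⟩ t ht h2 _
      obtain ⟨g2, hg2, h3, h4⟩ := hdir g hg g' hg'
      refine ⟨t, ht, le_rfl, _, ⟨g2, hg2, rfl⟩, h2, ?_, ?_⟩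
      · rw [hbot, hbot]
        exact h3
      · rw [hbot, hbot]
        exact h4)
  refine ⟨g, fun a ha => ?_⟩
  have h2 := hg _ ⟨a, ha, rfl⟩
  rw [hbot, hbot] at h2
  exact h2

/-- a condition can be extended so that its domain contains `δ` -/
theorem exists_ext (hκ : κ.IsInaccessible) (S : Sys κ) {δ : Ik κ} (hδ : IsD δ) (r : S.RR) :
    ∃ r' ≤ r, r'.1 δ ≠ none := by
  classical
  by_cases h0 : r.1 δ = none
  swap
  · exact ⟨r, le_rfl, h0⟩
  obtain ⟨o, ho⟩ := exists_bot hκ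
  have hval := S.val δ hδ o
  have hne : o < (S.W δ o).b := by
    obtain ⟨x, hx⟩ := hval.ne
    exact (ho x).trans_lt hx
  have hap : ∀ ξ, ξ ≠ δ → Function.update r.1 δ (some (o, o)) ξ = r.1 ξ := fun ξ h =>
    Function.update_of_ne h _ _
  have hok : Ok S.W (Function.update r.1 δ (some (o, o))) := by
    refine ⟨fun ξ hξ => ?_, fun d hd => ?_, ?_, fun ξ c x hx => ?_⟩
    · by_cases h : ξ = δ
      · rw [h]
        exact hδ
      · rw [hap ξ h] at hξ
        exact r.2.stage ξ hξ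
    · obtain ⟨γ, hγ, h1⟩ := r.2.bddD d hd
      by_cases hδd : δ < d
      · obtain ⟨γ', hγ', h2⟩ := hd.exists_between hδd
        refine ⟨max γ γ', max_lt hγ hγ', fun ξ hξ h3 => ?_⟩
        by_cases h : ξ = δ
        · rw [h]
          exact h2.trans_le (le_max_right _ _)
        · rw [hap ξ h] at h3
          exact (h1 ξ hξ h3).trans_le (le_max_left _ _)
      · refine ⟨γ, hγ, fun ξ hξ h3 => ?_⟩
        by_cases h : ξ = δ
        · rw [h] at hξ
          exact absurd hξ hδd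
        · rw [hap ξ h] at h3
          exact h1 ξ hξ h3
    · obtain ⟨γ, h1⟩ := r.2.bdd
      obtain ⟨γ', h2⟩ := exists_gt_Ik hκ δ
      refine ⟨max γ γ', fun ξ h3 => ?_⟩
      by_cases h : ξ = δ
      · rw [h]
        exact h2.trans_le (le_max_right _ _)
      · rw [hap ξ h] at h3
        exact (h1 ξ h3).trans_le (le_max_left _ _)
    · by_cases h : ξ = δ
      · subst h
        rw [Function.update_self] at hx
        simp only [Option.some.injEq, Prod.mk.injEq] at hx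
        obtain ⟨rfl, rfl⟩ := hx
        exact ⟨fun d hd hξ => ⟨(ho _).trans_lt hξ, (ho _).trans_lt hξ⟩, hne⟩
      · rw [hap ξ h] at hx
        exact r.2.code ξ c x hx
  refine ⟨⟨_, hok⟩, ?_, ?_⟩
  · intro ξ c x hx
    have h : ξ ≠ δ := fun h => by
      rw [h, h0] at hx
      simp at hx
    have hx' : Function.update r.1 δ (some (o, o)) ξ = some (c, x) := by rw [hap ξ h, hx]
    exact ⟨x, hx', S.le_refl' hok hx'⟩
  · simp

theorem mk_Iic_le {γ : Ik κ} (h : ℵ₀ ≤ #(Iio γ)) : #(Iic γ) ≤ #(Iio γ) := by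
  have h1 : (Iic γ : Set (Ik κ)) = insert γ (Iio γ) := by
    ext x
    simp only [mem_Iic, mem_insert_iff, mem_Iio]
    exact le_iff_eq_or_lt
  rw [h1]
  refine (mk_insert_le).trans ?_
  rw [add_one_eq h]

/-- a set of conditions living on `[0, γ]` with values in a small set is small -/
theorem mk_le_of (hG : ∀ ν : Cardinal.{0}, ℵ₀ ≤ ν → 2 ^ ν = Order.succ ν) {S : Sys κ} {γ : Ik κ}
    (hγ : ℵ₀ ≤ #(Iio γ)) (A : Set S.RR) (B : Set (Ik κ)) (n : ℕ) (hB : #B ≤ plus #(Iio γ) n)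
    (hlow : ∀ a ∈ A, S.Low γ a)
    (hval : ∀ a ∈ A, ∀ ξ c x, a.1 ξ = some (c, x) → c ∈ B ∧ x ∈ B) :
    #A ≤ plus #(Iio γ) (n + 1) := by
  classical
  set g := #(Iio γ) with hg
  have hgn : ℵ₀ ≤ plus g n := hγ.trans (le_plus g n)
  let f : A → (Iic γ → Option (B × B)) := fun a ξ =>
    if h : ∃ y : B × B, a.1.1 ξ.1 = some (y.1.1, y.2.1) then some h.choose else none
  have hf : Function.Injective f := by
    intro a b hab
    refine Subtype.ext (Subtype.ext (funext fun ξ => ?_))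
    rcases le_or_gt ξ γ with h | h
    · have h1 := congrFun hab ⟨ξ, h⟩
      simp only [f] at h1
      have key : ∀ a : A, (∃ y : B × B, a.1.1 ξ = some (y.1.1, y.2.1)) ∨ a.1.1 ξ = none := by
        intro a
        by_cases h2 : a.1.1 ξ = none
        · exact Or.inr h2
        · obtain ⟨⟨c, x⟩, hcx⟩ := Option.ne_none_iff_exists'.1 h2
          obtain ⟨h3, h4⟩ := hval a.1 a.2 ξ c x hcx
          exact Or.inl ⟨(⟨c, h3⟩, ⟨x, h4⟩), hcx⟩
      rcases key a with ha | ha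
      · rw [dif_pos ha] at h1
        rcases key b with hb | hb
        · rw [dif_pos hb] at h1
          have h2 := ha.choose_spec
          have h3 := hb.choose_spec
          rw [h2, h3, Option.some.inj h1]
        · rw [dif_neg (by rw [hb]; simp)] at h1
          simp at h1
      · rw [dif_neg (by rw [ha]; simp)] at h1
        rcases key b with hb | hb
        · rw [dif_pos hb] at h1
          simp at h1
        · rw [ha, hb]
    · have h1 : ∀ a : A, a.1.1 ξ = none := fun a => by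
        by_contra hc
        exact absurd (hlow a.1 a.2 ξ hc) (not_le.2 h)
      rw [h1 a, h1 b]
  refine (mk_le_of_injective hf).trans ?_
  rw [mk_arrow, lift_id, lift_id, mk_option, mk_prod, lift_id]
  have h1 : #B * #B + 1 ≤ plus g n := by
    refine (add_le_add_left (mul_le_mul' hB hB) 1).trans ?_
    rw [mul_eq_self hgn, add_one_eq hgn]
  have h2 : #(Iic γ) ≤ plus g n := (mk_Iic_le hγ).trans (le_plus g n)
  calc (#B * #B + 1) ^ #(Iic γ) ≤ (plus g n) ^ #(Iic γ) := power_le_power_right h1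
    _ ≤ (plus g n) ^ plus g n := power_le_power_left (aleph0_pos.trans_le hgn).ne' h2
    _ = 2 ^ plus g n := power_self_eq hgn
    _ = plus g (n + 1) := plus_gch hG hγ n

/-- the set of the conditions on `[0, γ]` below a suitable condition is small -/
theorem exists_small (hκ : κ.IsInaccessible)
    (hG : ∀ ν : Cardinal.{0}, ℵ₀ ≤ ν → 2 ^ ν = Order.succ ν) (S : Sys κ) {γ : Ik κ}
    (hγ : ℵ₀ ≤ #(Iio γ)) (r : S.RR) : ∃ r' ≤ r, ∃ n, #{a : S.RR | S.Low γ a ∧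
      a ≤ S.low hκ γ r'} ≤ plus #(Iio γ) n := by
  classical
  by_cases hmax : ∃ δ, IsD δ ∧ δ ≤ γ ∧ ∀ d, IsD d → d ≤ γ → d ≤ δ
  · obtain ⟨δ, hδ, hδγ, hmax⟩ := hmax
    obtain ⟨r', hr', hne⟩ := exists_ext hκ S hδ r
    obtain ⟨⟨c, x⟩, hcx⟩ := Option.ne_none_iff_exists'.1 hne
    obtain ⟨n, hn⟩ := (S.val δ hδ c).card
    have h1 : #(Iio (S.W δ c).b) ≤ plus #(Iio γ) n :=
      hn.trans (plus_mono (mk_le_mk_of_subset (Iio_subset_Iio hδγ)) n)
    refine ⟨r', hr', n + 1, mk_le_of hG hγ _ (insert c (Iic γ ∪ Iio (S.W δ c).b)) n ?_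
      (fun a ha => ha.1) ?_⟩
    · have hinf : ℵ₀ ≤ plus #(Iio γ) n := hγ.trans (le_plus _ n)
      refine (mk_insert_le).trans ?_
      have h2 : #(Iic γ ∪ Iio (S.W δ c).b : Set (Ik κ)) ≤ plus #(Iio γ) n := by
        refine (mk_union_le _ _).trans ?_
        exact add_le_of_le hinf ((mk_Iic_le hγ).trans (le_plus _ n)) h1
      exact add_le_of_le hinf h2 (one_le_aleph0.trans hinf)
    · rintro a ⟨ha1, ha2⟩ ξ c' x' hx
      have hξγ : ξ ≤ γ := ha1 ξ (by rw [hx]; simp)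
      have hξD : IsD ξ := a.2.stage ξ (by rw [hx]; simp)
      have hξδ : ξ ≤ δ := hmax ξ hξD hξγ
      rcases hξδ.lt_or_eq with h | h
      · obtain ⟨h2, h3⟩ := (a.2.code ξ c' x' hx).1 δ hδ h
        exact ⟨Or.inr (Or.inl (h2.le.trans hδγ)), Or.inr (Or.inl (h3.le.trans hδγ))⟩
      · subst h
        obtain ⟨y, h2, _⟩ := ha2 ξ c x (by rw [Sys.low_apply hκ _ hδγ]; exact hcx)
        rw [hx] at h2
        simp only [Option.some.injEq, Prod.mk.injEq] at h2
        obtain ⟨rfl, rfl⟩ := h2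
        exact ⟨Or.inl rfl, Or.inr (Or.inr (a.2.code ξ _ _ hx).2)⟩
  · refine ⟨r, le_rfl, 0 + 1, mk_le_of hG hγ _ (Iic γ) 0 (mk_Iic_le hγ) (fun a ha => ha.1) ?_⟩
    rintro a ⟨ha1, ha2⟩ ξ c' x' hx
    have hξγ : ξ ≤ γ := ha1 ξ (by rw [hx]; simp)
    have hξD : IsD ξ := a.2.stage ξ (by rw [hx]; simp)
    have h1 : ∃ d, IsD d ∧ d ≤ γ ∧ ξ < d := by
      by_contra hc
      refine hmax ⟨ξ, hξD, hξγ, fun d hd hdγ => ?_⟩
      by_contra h
      exact hc ⟨d, hd, hdγ, not_le.1 h⟩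
    obtain ⟨d, hd, hdγ, hξd⟩ := h1
    obtain ⟨h2, h3⟩ := (a.2.code ξ c' x' hx).1 d hd hξd
    exact ⟨h2.le.trans hdγ, h3.le.trans hdγ⟩

theorem cat_low_self {S : Sys κ} (hκ : κ.IsInaccessible) (γ : Ik κ) (g : S.RR) :
    S.cat γ (S.low hκ γ g) g = g := by
  refine Subtype.ext (funext fun η => ?_)
  rcases le_or_gt η γ with h | h
  · rw [Sys.cat_apply_of_le _ _ h, Sys.low_apply hκ _ h]
  · rw [Sys.cat_apply_of_lt _ _ h]

theorem low_cat {S : Sys κ} (hκ : κ.IsInaccessible) {γ : Ik κ} {a : S.RR} (ha : S.Low γ a)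
    (g : S.RR) : S.low hκ γ (S.cat γ a g) = a := by
  have h1 : ∀ g : S.RR, ∀ η, γ < η → (S.low hκ γ g).1 η = none := fun g η h => by
    by_contra hc
    exact absurd (Sys.low_low hκ γ g η hc) (not_le.2 h)
  refine Subtype.ext (funext fun η => ?_)
  rcases le_or_gt η γ with h | h
  · rw [Sys.low_apply hκ _ h, Sys.cat_apply_of_le _ _ h]
  · rw [h1 _ _ h]
    by_contra hc
    exact absurd (ha η fun h => hc h.symm) (not_le.2 h)

theorem exists_codes {ν : Cardinal.{0}} (hν : ν < κ) (T : Type) [Nonempty T] (hT : #T ≤ ν) :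
    ∃ h : Ik κ → T, ∀ t, ∃ c, #(Iio c) < Order.succ ν ∧ h c = t := by
  classical
  obtain ⟨k, hk⟩ := exists_mk_Iio hν
  obtain ⟨e⟩ : #T ≤ #(Iio k) := by rw [hk]; exact hT
  refine ⟨fun c => Function.invFun (fun t => (e t).1) c, fun t => ⟨(e t).1, ?_, ?_⟩⟩
  · refine Order.lt_succ_of_le ?_
    rw [← hk]
    exact mk_le_mk_of_subset (Iio_subset_Iio (show (e t).1 < k from (e t).2).le)
  · exact Function.leftInverse_invFun (f := fun t => (e t).1)
      (fun t t' h => e.injective (Subtype.ext h)) t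

theorem powSmall (h2 : StmtC2) (hκ : κ.IsInaccessible)
    (hG : ∀ ν : Cardinal.{0}, ℵ₀ ≤ ν → 2 ^ ν = Order.succ ν) (S : Sys κ) {Θ : Type}
    (N : NOrd S.RR Θ) (hN : NClosed κ N) : PowSmall κ (Two N) := by
  classical
  intro γ hγ q
  obtain ⟨r', hr', n, hn⟩ := exists_small hκ hG S hγ q.1
  set A : Set S.RR := {a : S.RR | S.Low γ a ∧ a ≤ S.low hκ γ r'} with hA
  have hgκ : #(Iio γ) < κ := mk_Iio_lt' γ
  have hinf : ∀ m, ℵ₀ ≤ plus #(Iio γ) m := fun m => hγ.trans (le_plus _ m)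
  obtain ⟨h, hh⟩ := exists_codes (κ := κ) (ν := plus #(Iio γ) (n + 1)) (plus_lt hκ hgκ _)
    (Iio γ → Set A) (by
      rw [mk_arrow, lift_id, lift_id, mk_set, ← power_mul]
      calc (2 : Cardinal) ^ (#A * #(Iio γ)) ≤ 2 ^ (plus #(Iio γ) n * plus #(Iio γ) n) :=
            power_le_power_left two_ne_zero (mul_le_mul' hn (le_plus _ n))
        _ = 2 ^ plus #(Iio γ) n := by rw [mul_eq_self (hinf n)]
        _ = plus #(Iio γ) (n + 1) := plus_gch hG hγ n)
  refine ⟨(r', q.2), ⟨hr', N.refl _ _⟩, n + 2, fun c β => {p | ∃ hβ : β < γ, ∃ a : A,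
    a ∈ h c ⟨β, hβ⟩ ∧ S.low hκ γ p.1 ≤ a.1}, fun Y q1 hq1 => ?_⟩
  -- the decisions
  have hlowle : S.low hκ γ q1.1 ≤ S.low hκ γ r' := Sys.low_mono hκ hq1.1
  obtain ⟨g', hg'1, hg'2⟩ := h2 κ hκ S Θ N hN γ (plus #(Iio γ) (n + 1))
    (fun d hd hd' => (plus_lt hd.inacc (hd.init γ hd') _).le) (plus_lt hκ hgκ _).le (hinf _)
    {a : S.RR | S.Low γ a ∧ a ≤ S.low hκ γ q1.1} ⟨_, S.low_low hκ γ q1.1, le_rfl⟩
    (fun a ha => ha.1) (fun a ha a' ha' hl => ⟨hl, ha'.trans ha.2⟩)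
    (by
      refine lt_of_le_of_lt (mk_le_mk_of_subset (t := A) fun a ha => ⟨ha.1, ha.2.trans hlowle⟩) ?_
      exact hn.trans_lt (Order.lt_succ _))
    (Iio γ) (fun β => {p : Two N | p ∈ meets (Y β.1) ∨ p ∈ fnot (meets (Y β.1))})
    ((le_plus _ n).trans_lt (Order.lt_succ _))
    (by
      rintro β p (hp | hp) p' hp'
      · exact Or.inl (down_meets _ _ hp _ hp')
      · exact Or.inr (down_fnot _ _ hp _ hp'))
    (by
      intro β p
      by_cases hp : p ∈ fnot (meets (Y β.1))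
      · exact ⟨p, le_rfl, Or.inr hp⟩
      · simp only [fnot, Set.mem_ofPred_eq, not_forall, not_not] at hp
        obtain ⟨p', hp', h3⟩ := hp
        exact ⟨p', hp', Or.inl h3⟩)
    q1
  have hlow1 : S.Low γ (S.low hκ γ q1.1) := S.low_low hκ γ q1.1
  obtain ⟨c, hc, hc'⟩ := hh fun β => {a : A | a.1 ≤ S.low hκ γ q1.1 ∧
    S.catT N γ a.1 g' ∈ meets (Y β.1)}
  have hq2 : S.catT N γ (S.low hκ γ q1.1) g' ≤ q1 :=
    (hg'1 _ ⟨hlow1, le_rfl⟩).trans (Sys.catT_le_right hκ le_rfl)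
  have key : ∀ s : Two N, s ≤ S.catT N γ (S.low hκ γ q1.1) g' →
      S.low hκ γ s.1 ≤ S.low hκ γ q1.1 := fun s hs => by
    have h3 := Sys.low_mono hκ (α := γ) hs.1
    rw [show (S.catT N γ (S.low hκ γ q1.1) g').1 = S.cat γ (S.low hκ γ q1.1) g'.1 from rfl,
      low_cat hκ hlow1] at h3
    exact h3
  refine ⟨S.catT N γ (S.low hκ γ q1.1) g', hq2, c, hc, fun β hβ r hr => ⟨fun hm => ?_,
    fun hm => ?_⟩⟩
  · intro s hs
    have hs2 := hs.trans hr
    obtain ⟨a', ha', h3, h4⟩ := hg'2 ⟨β, hβ⟩ (S.low hκ γ s.1)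
      ⟨S.low_low hκ γ s.1, key s hs2⟩
    have h5 : S.catT N γ a' s ≤ s := Sys.catT_le_right hκ h3
    have h6 : S.catT N γ a' s ≤ S.catT N γ a' g' := Sys.catT_le_catT hκ hs2 h3
    have h7 : S.catT N γ a' g' ∈ meets (Y β) := by
      rcases h4 with h4 | h4
      · exact h4
      · exact absurd (down_meets _ _ hm _ (h5.trans hs)) (h4 _ h6)
    have h8 : S.low hκ γ (S.catT N γ a' s).1 = a' := low_cat hκ ha'.1 s.1
    refine ⟨S.catT N γ a' s, h5, S.catT N γ a' s, ⟨hβ, ⟨a', ha'.1, ha'.2.trans hlowle⟩, ?_, ?_⟩,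
      le_rfl⟩
    · rw [hc']
      exact ⟨ha'.2, h7⟩
    · rw [h8]
  · intro s hs
    obtain ⟨s', hs', s'', ⟨_, a, ha, h3⟩, h4⟩ := hm s hs
    rw [hc'] at ha
    have hs2 := (hs'.trans hs).trans hr
    have h5 : S.low hκ γ s'.1 ≤ a.1 := (Sys.low_mono hκ h4.1).trans h3
    have h6 : s' ≤ S.catT N γ a.1 g' := by
      have h7 := Sys.catT_le_catT hκ hs2 (le_refl (S.low hκ γ s'.1))
      have h8 : S.catT N γ (S.low hκ γ s'.1) s' = s' := Prod.ext (cat_low_self hκ γ s'.1) rfl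
      rw [h8] at h7
      exact h7.trans (Sys.catT_mono_left h5 g')
    obtain ⟨r1, hr1, r2, hr2, h9⟩ := ha.2 s' h6
    exact ⟨r1, hr1.trans hs', r2, hr2, h9⟩

end TC4

/-- job C4 -/
theorem jobC4 : StmtC1 → StmtC2 → StmtC4 := fun h1 h2 _ hκ hG S _ N hN =>
  ⟨TC4.dirClosed h1 hκ S N hN, TC4.powSmall h2 hκ hG S N hN⟩

end Pool.Agent.Helper403.SK
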