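import Mathlib
import Pool.Agent.Helper403_SK.CBasic

set_option autoImplicit false

/-!
# The reflection of a closed named order
-/

namespace Pool.Agent.Helper403.SK.TC5b

open Cardinal Set Pool.Agent.Helper669.Forcing Pool.Agent.Helper669.K Pool.Agent.W873.Tp
open Pool.Agent.W873.Vi

variable {κ : Cardinal.{0}} {S : Sys κ}

/-- all coordinates of `a` are below `α` -/
def Below (α : Ik κ) (a : S.RR) : Prop := ∀ ξ, a.1 ξ ≠ none → ξ < α

theorem Below.low {α : Ik κ} {a : S.RR} (h : Below α a) : S.Low α a := fun ξ hξ => (h ξ hξ).le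

theorem Below.none {α ξ : Ik κ} {a : S.RR} (h : Below α a) (hξ : α ≤ ξ) : a.1 ξ = none := by
  by_contra hc
  exact absurd (h ξ hc) (not_lt.2 hξ)

theorem Below.res {α : Ik κ} {a : S.RR} (h : Below α a) : SK.res α a.1 = a.1 := by
  funext ξ
  by_cases hξ : ξ < α
  · exact res_of_lt _ hξ
  · rw [res_of_le _ (not_lt.1 hξ), h.none (not_lt.1 hξ)]

theorem below_of_res {α : Ik κ} {a : S.RR} (h : SK.res α a.1 = a.1) : Below α a := by
  intro ξ hξ
  rw [← h] at hξ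
  exact (res_ne_none hξ).1

/-- the part below `α` -/
noncomputable def resR (α : Ik κ) (g : S.RR) : S.RR := ⟨SK.res α g.1, g.2.res α⟩

theorem below_resR (α : Ik κ) (g : S.RR) : Below α (resR α g) := fun _ h => (res_ne_none h).1

theorem le_resR (α : Ik κ) (g : S.RR) : g ≤ resR α g := S.le_res g.2 α

theorem resR_mono (α : Ik κ) {g' g : S.RR} (h : g' ≤ g) : resR α g' ≤ resR α g := Le.res h α

theorem resR_eq {α : Ik κ} {a : S.RR} (h : Below α a) : resR α a = a := Subtype.ext h.res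

/-- `a` on `[0, α)`, `g` above -/
noncomputable def catLraw (α : Ik κ) (a g : Raw κ) : Raw κ := fun ξ =>
  open Classical in if ξ < α then a ξ else g ξ

theorem catLraw_lt {α ξ : Ik κ} (a g : Raw κ) (h : ξ < α) : catLraw α a g ξ = a ξ := if_pos h

theorem catLraw_ge {α ξ : Ik κ} (a g : Raw κ) (h : α ≤ ξ) : catLraw α a g ξ = g ξ :=
  if_neg (not_lt.2 h)

theorem ok_catLraw {W : Ik κ → Ik κ → St κ} {α : Ik κ} {a g : Raw κ} (ha : Ok W a)
    (hg : Ok W g) : Ok W (catLraw α a g) where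
  stage ξ hξ := by
    rcases lt_or_ge ξ α with h | h
    · rw [catLraw_lt _ _ h] at hξ
      exact ha.stage ξ hξ
    · rw [catLraw_ge _ _ h] at hξ
      exact hg.stage ξ hξ
  bddD d hd := by
    obtain ⟨γ, hγ, h1⟩ := ha.bddD d hd
    obtain ⟨γ', hγ', h1'⟩ := hg.bddD d hd
    refine ⟨max γ γ', max_lt hγ hγ', fun ξ hξ h2 => ?_⟩
    rcases lt_or_ge ξ α with h | h
    · rw [catLraw_lt _ _ h] at h2
      exact (h1 ξ hξ h2).trans_le (le_max_left _ _)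
    · rw [catLraw_ge _ _ h] at h2
      exact (h1' ξ hξ h2).trans_le (le_max_right _ _)
  bdd := by
    obtain ⟨γ, h1⟩ := ha.bdd
    obtain ⟨γ', h1'⟩ := hg.bdd
    refine ⟨max γ γ', fun ξ h2 => ?_⟩
    rcases lt_or_ge ξ α with h | h
    · rw [catLraw_lt _ _ h] at h2
      exact (h1 ξ h2).trans_le (le_max_left _ _)
    · rw [catLraw_ge _ _ h] at h2
      exact (h1' ξ h2).trans_le (le_max_right _ _)
  code ξ c x hx := by
    rcases lt_or_ge ξ α with h | h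
    · rw [catLraw_lt _ _ h] at hx
      exact ha.code ξ c x hx
    · rw [catLraw_ge _ _ h] at hx
      exact hg.code ξ c x hx

/-- `a` on `[0, α)`, `g` above -/
noncomputable def catL (α : Ik κ) (a g : S.RR) : S.RR := ⟨catLraw α a.1 g.1, ok_catLraw a.2 g.2⟩

theorem catL_lt {α ξ : Ik κ} (a g : S.RR) (h : ξ < α) : (catL α a g).1 ξ = a.1 ξ :=
  catLraw_lt _ _ h

theorem catL_ge {α ξ : Ik κ} (a g : S.RR) (h : α ≤ ξ) : (catL α a g).1 ξ = g.1 ξ :=
  catLraw_ge _ _ h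

theorem res_catL {α ξ : Ik κ} (a g : S.RR) (h : ξ ≤ α) :
    SK.res ξ (catL α a g).1 = SK.res ξ a.1 := by
  funext η
  by_cases hη : η < ξ
  · rw [res_of_lt _ hη, res_of_lt _ hη, catL_lt _ _ (hη.trans_le h)]
  · rw [res_of_le _ (not_lt.1 hη), res_of_le _ (not_lt.1 hη)]

theorem catL_le_left {α : Ik κ} {a : S.RR} (ha : Below α a) (g : S.RR) : catL α a g ≤ a := by
  intro ξ c x hx
  have h : ξ < α := ha ξ (by rw [hx]; simp)
  refine ⟨x, (catL_lt a g h).trans hx, ?_⟩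
  rw [res_catL a g h.le]
  exact S.le_refl' a.2 hx

theorem catL_le_right {α : Ik κ} {a g : S.RR} (h : a ≤ resR α g) : catL α a g ≤ g := by
  intro ξ c x hx
  rcases lt_or_ge ξ α with hlt | hge
  · obtain ⟨x', h1, h2⟩ := h ξ c x (res_eq_some.2 ⟨hlt, hx⟩)
    refine ⟨x', (catL_lt a g hlt).trans h1, ?_⟩
    rw [res_catL a g hlt.le]
    exact h2
  · have h1 : (catL α a g).1 ξ = some (c, x) := (catL_ge a g hge).trans hx
    exact ⟨x, h1, S.le_refl' (catL α a g).2 h1⟩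

/-! ### The structure at `α` -/

section structure_at

variable {Θ : Type} {N : NOrd S.RR Θ} {α b : Ik κ} {A : Set Θ} (e : A ≃ Iio b)

/-- the structure given by the part of `N` on `A` -/
def sig (N : NOrd S.RR Θ) (α : Ik κ) (e : A ≃ Iio b) : St κ where
  b := b
  rel y' y := {r | ∃ (hy' : y' < b) (hy : y < b) (hr : Ok S.W r), SK.res α r = r ∧
    (⟨r, hr⟩ : S.RR) ∈ N.rel (e.symm ⟨y', hy'⟩).1 (e.symm ⟨y, hy⟩).1}

theorem vst_sig (hα : IsD α) (hne : A.Nonempty) {n : ℕ}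
    (hA : #A ≤ plus #(Iio α) n) (hb : #(Iio b) = #A) (hακ : #(Iio α) ≤ κ)
    (mC : Set (Two N) → Θ)
    (hmC : ∀ D : Set (Two N), #D < κ → ForcedDirected N D → ∀ a ∈ D, a.1 ∈ N.rel (mC D) a.2)
    (hcl : ∀ D : Set (Two N), #D < #(Iio α) → (∀ t ∈ D, Below α t.1 ∧ t.2 ∈ A) → mC D ∈ A) :
    VSt S.W α (sig N α e) where
  ne := by
    obtain ⟨x, hx⟩ := hne
    exact ⟨_, (e ⟨x, hx⟩).2⟩
  b_lt d hd h := by
    by_contra hc
    have h1 := mk_le_mk_of_subset (Iio_subset_Iio (not_lt.1 hc))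
    have h2 : #(Iio d) ≤ #(Iio b) := h1
    rw [hb] at h2
    exact absurd (plus_lt hd.inacc (hd.init α h) n) (not_lt.2 (h2.trans hA))
  card := ⟨n, by
    change #(Iio b) ≤ _
    rw [hb]
    exact hA⟩
  sub x y r h := by
    obtain ⟨h1, h2, h3, h4, _⟩ := h
    exact ⟨h1, h2, h3, h4⟩
  refl x hx r hr h := ⟨hx, hx, hr, h, N.refl _ _⟩
  trans x y z r h h' := by
    obtain ⟨h1, h2, h3, h4, h5⟩ := h
    obtain ⟨h1', h2', h3', h4', h5'⟩ := h'
    exact ⟨h1, h2', h3, h4, N.trans _ _ _ _ h5 h5'⟩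
  down x y r r' hr' hres hle h := by
    obtain ⟨h1, h2, h3, h4, h5⟩ := h
    exact ⟨h1, h2, hr', hres, N.down _ _ _ h5 ⟨r', hr'⟩ hle⟩
  closed D hD hok hdir := by
    classical
    let D' : Set (Two N) := {t | ∃ a ∈ D, ∃ h : a.2 < b, a.1 = t.1.1 ∧
      (e.symm ⟨a.2, h⟩).1 = t.2}
    have hD' : #D' ≤ #D := by
      have : ∀ t : D', ∃ a : D, ∃ h : a.1.2 < b, a.1.1 = t.1.1.1 ∧
          (e.symm ⟨a.1.2, h⟩).1 = t.1.2 := by
        rintro ⟨t, a, ha, h⟩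
        exact ⟨⟨a, ha⟩, h⟩
      choose f hf using this
      refine mk_le_of_injective (f := f) fun t t' htt => ?_
      obtain ⟨h1, h2, h3⟩ := hf t
      obtain ⟨h1', h2', h3'⟩ := hf t'
      refine Subtype.ext (Prod.ext (Subtype.ext ?_) ?_)
      · rw [← h2, ← h2', htt]
      · rw [← h3, ← h3']
        congr 3
        rw [htt]
    have hmem : ∀ a (ha : a ∈ D), ∃ h : a.2 < b, ((⟨a.1, (hok a ha).1⟩, (e.symm ⟨a.2, h⟩).1) :
        Two N) ∈ D' := fun a ha => ⟨(hok a ha).2.2, a, ha, (hok a ha).2.2, rfl, rfl⟩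
    have hbel : ∀ t ∈ D', Below α t.1 ∧ t.2 ∈ A := by
      rintro t ⟨a, ha, h, h1, h2⟩
      refine ⟨below_of_res ?_, ?_⟩
      · rw [← h1]
        exact (hok a ha).2.1
      · rw [← h2]
        exact (e.symm ⟨a.2, h⟩).2
    have hfd : ForcedDirected N D' := by
      rintro t ⟨a, ha, h, h1, h2⟩ t' ⟨a', ha', h', h1', h2'⟩ u hu hu'
      have hle : Le S.W (resR α u).1 a.1 := by
        have := resR_mono α hu
        rw [resR_eq (hbel t ⟨a, ha, h, h1, h2⟩).1] at this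
        rw [h1]
        exact this
      have hle' : Le S.W (resR α u).1 a'.1 := by
        have := resR_mono α hu'
        rw [resR_eq (hbel t' ⟨a', ha', h', h1', h2'⟩).1] at this
        rw [h1']
        exact this
      obtain ⟨v, hv, hvres, hvu, c, hc, hvc, hr1, hr2⟩ := hdir a ha a' ha' (resR α u).1
        (resR α u).2 (below_resR α u).res hle hle'
      have hvb : Below α (⟨v, hv⟩ : S.RR) := below_of_res hvres
      have hv1 : catL α ⟨v, hv⟩ u ≤ ⟨v, hv⟩ := catL_le_left hvb u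
      have hv2 : catL α ⟨v, hv⟩ u ≤ u := catL_le_right (α := α) (a := ⟨v, hv⟩) (g := u) hvu
      obtain ⟨hc2, hcD⟩ := hmem c hc
      refine ⟨catL α ⟨v, hv⟩ u, hv2, _, hcD, hv1.trans hvc, ?_, ?_⟩
      · obtain ⟨g1, g2, g3, g4, g5⟩ := hr1
        rw [← h2]
        exact N.down _ _ _ g5 _ hv1
      · obtain ⟨g1, g2, g3, g4, g5⟩ := hr2
        rw [← h2']
        exact N.down _ _ _ g5 _ hv1
    have hm := hmC D' ((hD'.trans_lt hD).trans_le hακ) hfd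
    have hmA := hcl D' (hD'.trans_lt hD) hbel
    refine ⟨(e ⟨mC D', hmA⟩).1, (e ⟨mC D', hmA⟩).2, fun a ha => ?_⟩
    obtain ⟨hc2, hcD⟩ := hmem a ha
    refine ⟨(e ⟨mC D', hmA⟩).2, hc2, (hok a ha).1, (hok a ha).2.1, ?_⟩
    have h1 := hm _ hcD
    have h2 : (e.symm ⟨(e ⟨mC D', hmA⟩).1, (e ⟨mC D', hmA⟩).2⟩).1 = mC D' := by simp
    rw [h2]
    exact h1

end structure_at

/-! ### The copy of the two step iteration at `α` -/

/-- `t` below `α`, and `(c, y)` at `α` -/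
noncomputable def iRaw (α c : Ik κ) (t : Raw κ) (y : Ik κ) : Raw κ := fun ξ =>
  open Classical in if ξ < α then t ξ else if ξ = α then some (c, y) else none

theorem iRaw_lt {α c ξ : Ik κ} (t : Raw κ) (y : Ik κ) (h : ξ < α) : iRaw α c t y ξ = t ξ :=
  if_pos h

theorem iRaw_self {α c : Ik κ} (t : Raw κ) (y : Ik κ) : iRaw α c t y α = some (c, y) := by
  simp [iRaw]

theorem iRaw_gt {α c ξ : Ik κ} (t : Raw κ) (y : Ik κ) (h : α < ξ) : iRaw α c t y ξ = none := by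
  simp [iRaw, not_lt.2 h.le, h.ne']

theorem iRaw_ne {α c ξ : Ik κ} {t : Raw κ} {y : Ik κ} (h : iRaw α c t y ξ ≠ none) : ξ ≤ α := by
  by_contra hc
  exact h (iRaw_gt t y (not_le.1 hc))

theorem res_iRaw {α c ξ : Ik κ} (t : Raw κ) (y : Ik κ) (h : ξ ≤ α) :
    SK.res ξ (iRaw α c t y) = SK.res ξ t := by
  funext η
  by_cases hη : η < ξ
  · rw [res_of_lt _ hη, res_of_lt _ hη, iRaw_lt _ _ (hη.trans_le h)]
  · rw [res_of_le _ (not_lt.1 hη), res_of_le _ (not_lt.1 hη)]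

theorem ok_iRaw (hκ : κ.IsInaccessible) {W : Ik κ → Ik κ → St κ} {α c y : Ik κ} {t : Raw κ}
    (hα : IsD α) (ht : Ok W t) (hy : y < (W α c).b)
    (hd : ∀ d, IsD d → α < d → c < d ∧ y < d) : Ok W (iRaw α c t y) where
  stage ξ hξ := by
    rcases lt_trichotomy ξ α with h | h | h
    · rw [iRaw_lt _ _ h] at hξ
      exact ht.stage ξ hξ
    · rw [h]
      exact hα
    · exact absurd (iRaw_gt t y h) hξ
  bddD d hd' := by
    rcases le_or_gt d α with h | h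
    · obtain ⟨γ, hγ, h1⟩ := ht.bddD d hd'
      refine ⟨γ, hγ, fun ξ hξ h2 => h1 ξ hξ ?_⟩
      rwa [iRaw_lt _ _ (hξ.trans_le h)] at h2
    · obtain ⟨γ, hγ, h1⟩ := hd'.exists_between h
      exact ⟨γ, hγ, fun ξ _ h2 => (iRaw_ne h2).trans_lt h1⟩
  bdd := by
    obtain ⟨γ, hγ⟩ := exists_gt_Ik hκ α
    exact ⟨γ, fun ξ h2 => (iRaw_ne h2).trans_lt hγ⟩
  code ξ c' x hx := by
    rcases lt_trichotomy ξ α with h | h | h
    · rw [iRaw_lt _ _ h] at hx
      exact ht.code ξ c' x hx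
    · subst h
      rw [iRaw_self] at hx
      simp only [Option.some.injEq, Prod.mk.injEq] at hx
      obtain ⟨rfl, rfl⟩ := hx
      exact ⟨hd, hy⟩
    · rw [iRaw_gt _ _ h] at hx
      simp at hx

section copy

variable {Θ : Type} {N : NOrd S.RR Θ} {α b : Ik κ} {A : Set Θ} (e : A ≃ Iio b)
  (hκ : κ.IsInaccessible) (hα : IsD α) {c : Ik κ} (hc : ∀ d, IsD d → α < d → c < d)
  (hW : S.W α c = sig N α e) (hb : ∀ d, IsD d → α < d → b < d)

/-- the copy of a condition -/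
noncomputable def iR (q : Two N) (h : q.2 ∈ A) : S.RR :=
  ⟨iRaw α c q.1.1 (e ⟨q.2, h⟩).1, ok_iRaw hκ hα q.1.2 (by rw [hW]; exact (e ⟨q.2, h⟩).2)
    fun d hd h' => ⟨hc d hd h', (e ⟨q.2, h⟩).2.trans (hb d hd h')⟩⟩

theorem iR_lt (q : Two N) (h : q.2 ∈ A) {ξ : Ik κ} (hξ : ξ < α) :
    (iR e hκ hα hc hW hb q h).1 ξ = q.1.1 ξ := iRaw_lt _ _ hξ

theorem iR_self (q : Two N) (h : q.2 ∈ A) :
    (iR e hκ hα hc hW hb q h).1 α = some (c, (e ⟨q.2, h⟩).1) := iRaw_self _ _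

theorem iR_low (q : Two N) (h : q.2 ∈ A) : S.Low α (iR e hκ hα hc hW hb q h) :=
  fun _ hξ => iRaw_ne hξ

theorem res_iR (q : Two N) (h : q.2 ∈ A) {ξ : Ik κ} (hξ : ξ ≤ α) :
    SK.res ξ (iR e hκ hα hc hW hb q h).1 = SK.res ξ q.1.1 := res_iRaw _ _ hξ

theorem iR_le (q : Two N) (h : q.2 ∈ A) (hq : Below α q.1) :
    iR e hκ hα hc hW hb q h ≤ q.1 := by
  intro ξ c' x hx
  have hξ : ξ < α := hq ξ (by rw [hx]; simp)
  refine ⟨x, (iR_lt e hκ hα hc hW hb q h hξ).trans hx, ?_⟩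
  rw [res_iR e hκ hα hc hW hb q h hξ.le]
  exact S.le_refl' q.1.2 hx

theorem iR_mono (q q' : Two N) (h : q.2 ∈ A) (h' : q'.2 ∈ A) (hq' : Below α q'.1)
    (hle : q' ≤ q) : iR e hκ hα hc hW hb q' h' ≤ iR e hκ hα hc hW hb q h := by
  intro ξ c' x hx
  rcases lt_or_ge ξ α with hlt | hge
  · rw [iR_lt e hκ hα hc hW hb q h hlt] at hx
    obtain ⟨x', h1, h2⟩ := hle.1 ξ c' x hx
    refine ⟨x', (iR_lt e hκ hα hc hW hb q' h' hlt).trans h1, ?_⟩
    rw [res_iR e hκ hα hc hW hb q' h' hlt.le]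
    exact h2
  · have h0 := iR_low e hκ hα hc hW hb q h ξ (by rw [hx]; simp)
    have h1 : ξ = α := le_antisymm h0 hge
    subst h1
    rw [iR_self] at hx
    simp only [Option.some.injEq, Prod.mk.injEq] at hx
    obtain ⟨rfl, rfl⟩ := hx
    refine ⟨_, iR_self e hκ hα hc hW hb q' h', ?_⟩
    rw [res_iR e hκ hα hc hW hb q' h' le_rfl, hq'.res, hW]
    refine ⟨(e ⟨q'.2, h'⟩).2, (e ⟨q.2, h⟩).2, q'.1.2, hq'.res, ?_⟩
    simp only [Subtype.coe_eta, Equiv.symm_apply_apply]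
    exact hle.2

theorem le_iR (u : S.RR) (q : Two N) (h : q.2 ∈ A) (hq : Below α q.1)
    (hle : u ≤ iR e hκ hα hc hW hb q h) : ∃ (q' : Two N) (h' : q'.2 ∈ A), Below α q'.1 ∧
      q' ≤ q ∧ S.low hκ α u = iR e hκ hα hc hW hb q' h' := by
  obtain ⟨y, hy, hr⟩ := hle α _ _ (iR_self e hκ hα hc hW hb q h)
  have hyb : y < b := by
    have := (u.2.code α c y hy).2
    rw [hW] at this
    exact this
  have hyA : ((resR α u, (e.symm ⟨y, hyb⟩).1) : Two N).2 ∈ A := (e.symm ⟨y, hyb⟩).2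
  refine ⟨(resR α u, (e.symm ⟨y, hyb⟩).1), hyA, below_resR α u, ⟨?_, ?_⟩, ?_⟩
  · have h1 := resR_mono α (hle.trans (iR_le e hκ hα hc hW hb q h hq))
    rw [resR_eq hq] at h1
    exact h1
  · rw [hW] at hr
    obtain ⟨g1, g2, g3, g4, g5⟩ := hr
    simp only [Subtype.coe_eta, Equiv.symm_apply_apply] at g5
    exact g5
  · refine Subtype.ext (funext fun ξ => ?_)
    rcases lt_trichotomy ξ α with hξ | hξ | hξ
    · rw [Sys.low_apply hκ u hξ.le, iR_lt e hκ hα hc hW hb _ _ hξ]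
      exact (res_of_lt _ hξ).symm
    · subst hξ
      rw [Sys.low_apply hκ u le_rfl, iR_self e hκ hα hc hW hb, hy]
      have h2 : e ⟨(e.symm ⟨y, hyb⟩).1, hyA⟩ = ⟨y, hyb⟩ := by simp
      rw [h2]
    · have h1 : (S.low hκ α u).1 ξ = none := by
        by_contra hc
        exact absurd (Sys.low_low hκ α u ξ hc) (not_le.2 hξ)
      have h2 : (iR e hκ hα hc hW hb ((resR α u, (e.symm ⟨y, hyb⟩).1) : Two N) hyA).1 ξ = none := by
        by_contra hc'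
        exact absurd (iR_low e hκ hα hc hW hb _ hyA ξ hc') (not_le.2 hξ)
      rw [h1, h2]

theorem le_of_iR (q q' : Two N) (h : q.2 ∈ A) (h' : q'.2 ∈ A) (hq : Below α q.1)
    (hq' : Below α q'.1) (hle : iR e hκ hα hc hW hb q' h' ≤ iR e hκ hα hc hW hb q h) :
    q' ≤ q := by
  obtain ⟨q2, h2, hb2, hle2, heq⟩ := le_iR e hκ hα hc hW hb _ q h hq hle
  rw [Sys.low_eq hκ (iR_low e hκ hα hc hW hb q' h')] at heq
  have h3 : q' = q2 := by
    refine Prod.ext ?_ ?_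
    · have h4 := congrArg (resR α) heq
      have h5 : resR α (iR e hκ hα hc hW hb q' h') = q'.1 := by
        refine Subtype.ext ?_
        change SK.res α (iR e hκ hα hc hW hb q' h').1 = _
        rw [res_iR e hκ hα hc hW hb q' h' le_rfl, hq'.res]
      have h6 : resR α (iR e hκ hα hc hW hb q2 h2) = q2.1 := by
        refine Subtype.ext ?_
        change SK.res α (iR e hκ hα hc hW hb q2 h2).1 = _
        rw [res_iR e hκ hα hc hW hb q2 h2 le_rfl, hb2.res]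
      rw [← h5, ← h6, h4]
    · have h4 := congrArg (fun a : S.RR => a.1 α) heq
      simp only [iR_self, Option.some.injEq, Prod.mk.injEq, true_and] at h4
      have h5 := e.injective (Subtype.ext h4)
      exact congrArg Subtype.val h5
  rw [h3]
  exact hle2

end copy

/-- the reflection at one set -/
theorem local_refl (hκ : κ.IsInaccessible) (hC2 : StmtC2) {Θ : Type} (N : NOrd S.RR Θ)
    (hN : NClosed κ N) {α : Ik κ} (hα : IsD α) (A : Set Θ) (hne : A.Nonempty) (n : ℕ)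
    (hA : #A ≤ plus #(Iio α) n) (mC : Set (Two N) → Θ)
    (hmC : ∀ D : Set (Two N), #D < κ → ForcedDirected N D → ∀ a ∈ D, a.1 ∈ N.rel (mC D) a.2)
    (hcl : ∀ D : Set (Two N), #D < #(Iio α) → (∀ t ∈ D, Below α t.1 ∧ t.2 ∈ A) → mC D ∈ A)
    (m : ℕ) (hQ : #{q : Two N | Below α q.1 ∧ q.2 ∈ A} ≤ plus #(Iio α) m)
    (J : Type) (hJ : #J ≤ plus #(Iio α) m) (Δ : J → Set (Two N)) (hΔ : ∀ i, Down (Δ i))
    (hΔ' : ∀ i q, ∃ q' ≤ q, q' ∈ Δ i) :
    ∃ F : Two N → Two N,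
      (∀ q, Below α q.1 ∧ q.2 ∈ A → F q ≤ q) ∧
      (∀ q q', Below α q.1 ∧ q.2 ∈ A → Below α q'.1 ∧ q'.2 ∈ A → q' ≤ q → F q' ≤ F q) ∧
      (∀ j, ∀ q, Below α q.1 ∧ q.2 ∈ A → ∃ q' ≤ q, (Below α q'.1 ∧ q'.2 ∈ A) ∧ F q' ∈ Δ j) ∧
      (∀ q, Below α q.1 ∧ q.2 ∈ A → ∀ w ≤ F q, ∃ s0 ≤ q, (Below α s0.1 ∧ s0.2 ∈ A) ∧
        ∀ s ≤ s0, (Below α s.1 ∧ s.2 ∈ A) → ∃ w' ≤ w, w' ≤ F s) := by
  classical
  have hακ : #(Iio α) < κ := mk_Iio_lt' α
  obtain ⟨b, hb0⟩ : ∃ b : Ik κ, #(Iio b) = #A :=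
    exists_mk_Iio (hA.trans_lt (plus_lt hκ hακ n))
  obtain ⟨e⟩ := Cardinal.eq.1 hb0.symm
  have hv := vst_sig (S := S) (N := N) e hα hne hA hb0 hακ.le mC hmC hcl
  obtain ⟨c, hc, hW⟩ := S.surj α hα _ hv
  have hb : ∀ d, IsD d → α < d → b < d := hv.b_lt
  -- the copies
  let F0 : Two N → S.RR := fun q => if h : q.2 ∈ A then iR e hκ hα hc hW hb q h else q.1
  have hF0 : ∀ q (h : q.2 ∈ A), F0 q = iR e hκ hα hc hW hb q h := fun q h => dif_pos h
  -- the master condition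
  let DM : Set (S.RR × Θ) := (fun q : Two N => (F0 q, q.2)) '' {q : Two N | Below α q.1 ∧ q.2 ∈ A}
  have hDM : #DM < κ := (mk_image_le.trans hQ).trans_lt (plus_lt hκ hακ m)
  have hfd : ForcedDirected N DM := by
    rintro _ ⟨q1, hq1, rfl⟩ _ ⟨q2, hq2, rfl⟩ u hu1 hu2
    change u ≤ F0 q1 at hu1
    change u ≤ F0 q2 at hu2
    rw [hF0 q1 hq1.2] at hu1
    rw [hF0 q2 hq2.2] at hu2
    obtain ⟨q3, h3, hb3, hle3, heq3⟩ := le_iR e hκ hα hc hW hb u q1 hq1.2 hq1.1 hu1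
    have hle4 : q3 ≤ q2 := by
      refine le_of_iR e hκ hα hc hW hb q2 q3 hq2.2 h3 hq2.1 hb3 ?_
      rw [← heq3, ← Sys.low_eq hκ (iR_low e hκ hα hc hW hb q2 hq2.2)]
      exact Sys.low_mono hκ hu2
    have hu3 : u ≤ iR e hκ hα hc hW hb q3 h3 := by
      rw [← heq3]
      exact Sys.le_low hκ α u
    have hu4 : u ≤ q3.1 := hu3.trans (iR_le e hκ hα hc hW hb q3 h3 hb3)
    refine ⟨u, le_rfl, (F0 q3, q3.2), ⟨q3, ⟨hb3, h3⟩, rfl⟩, ?_, N.down _ _ _ hle3.2 _ hu4,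
      N.down _ _ _ hle4.2 _ hu4⟩
    change u ≤ F0 q3
    rw [hF0 q3 h3]
    exact hu3
  obtain ⟨mX, hmX⟩ := hN DM hDM hfd
  -- the local forcing
  let AX : Set S.RR := F0 '' {q : Two N | Below α q.1 ∧ q.2 ∈ A}
  have hAX : ∀ a ∈ AX, ∀ a' ≤ a, ∃ q' : Two N, (Below α q'.1 ∧ q'.2 ∈ A) ∧
      S.low hκ α a' = F0 q' ∧ ∀ q, (Below α q.1 ∧ q.2 ∈ A) → a' ≤ F0 q → q' ≤ q := by
    rintro _ ⟨q, hq, rfl⟩ a' ha'
    rw [hF0 q hq.2] at ha'
    obtain ⟨q', h', hb', hle', heq⟩ := le_iR e hκ hα hc hW hb a' q hq.2 hq.1 ha'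
    refine ⟨q', ⟨hb', h'⟩, by rw [heq, hF0 q' h'], fun q1 hq1 hle1 => ?_⟩
    refine le_of_iR e hκ hα hc hW hb q1 q' hq1.2 h' hq1.1 hb' ?_
    rw [hF0 q1 hq1.2] at hle1
    rw [← heq, ← Sys.low_eq hκ (iR_low e hκ hα hc hW hb q1 hq1.2)]
    exact Sys.low_mono hκ hle1
  obtain ⟨x0, hx0⟩ := hne
  have hq0 : Below α ((S.top hκ, x0) : Two N).1 ∧ ((S.top hκ, x0) : Two N).2 ∈ A :=
    ⟨fun ξ h => by simp [Sys.top] at h, hx0⟩
  have hlow : ∀ a ∈ AX, S.Low α a := by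
    rintro _ ⟨q, hq, rfl⟩
    rw [hF0 q hq.2]
    exact iR_low e hκ hα hc hW hb q hq.2
  obtain ⟨g, hg1, hg2⟩ := hC2 κ hκ S Θ N hN α (plus #(Iio α) (m + 1))
    (fun d hd h => (plus_lt hd.inacc (hd.init α h) _).le) (plus_lt hκ hακ _).le
    (hα.aleph0_lt.le.trans (le_plus _ _)) AX ⟨_, _, hq0, rfl⟩ hlow
    (by
      intro a ha a' hle hl
      obtain ⟨q', hq', heq, _⟩ := hAX a ha a' hle
      rw [Sys.low_eq hκ hl] at heq
      exact ⟨q', hq', heq.symm⟩)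
    ((mk_image_le.trans hQ).trans_lt (Order.lt_succ _)) J Δ (hJ.trans_lt (Order.lt_succ _))
    hΔ hΔ' ((S.top hκ, mX) : Two N)
  have hmaster : ∀ q, Below α q.1 ∧ q.2 ∈ A → S.catT N α (F0 q) ((S.top hκ, mX) : Two N) ≤ q := by
    intro q hq
    have h1 : F0 q ≤ q.1 := by
      rw [hF0 q hq.2]
      exact iR_le e hκ hα hc hW hb q hq.2 hq.1
    have h2 : S.cat α (F0 q) (S.top hκ) ≤ F0 q :=
      Sys.cat_le_left (hlow _ ⟨q, hq, rfl⟩) _
    exact ⟨h2.trans h1, N.down _ _ _ (hmX (F0 q, q.2) ⟨q, hq, rfl⟩) _ h2⟩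
  have hmono : ∀ q q', Below α q.1 ∧ q.2 ∈ A → Below α q'.1 ∧ q'.2 ∈ A → q' ≤ q →
      F0 q' ≤ F0 q := by
    intro q q' hq hq' hle
    rw [hF0 q hq.2, hF0 q' hq'.2]
    exact iR_mono e hκ hα hc hW hb q q' hq.2 hq'.2 hq'.1 hle
  refine ⟨fun q => S.catT N α (F0 q) g, fun q hq => (hg1 _ ⟨q, hq, rfl⟩).trans (hmaster q hq),
    fun q q' hq hq' hle => Sys.catT_mono_left (hmono q q' hq hq' hle) g, fun j q hq => ?_,
    fun q hq w hw => ?_⟩
  · obtain ⟨_, ⟨q', hq', rfl⟩, hle, hmem⟩ := hg2 j (F0 q) ⟨q, hq, rfl⟩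
    obtain ⟨q2, hq2, heq2, hle2⟩ := hAX (F0 q) ⟨q, hq, rfl⟩ (F0 q') hle
    refine ⟨q', ?_, hq', hmem⟩
    rw [hF0 q hq.2, hF0 q' hq'.2] at hle
    exact le_of_iR e hκ hα hc hW hb q q' hq.2 hq'.2 hq.1 hq'.1 hle
  · have hw1 : w.1 ≤ F0 q := hw.1.trans (Sys.cat_le_left (hlow _ ⟨q, hq, rfl⟩) _)
    obtain ⟨s0, hs0, heq, hle⟩ := hAX (F0 q) ⟨q, hq, rfl⟩ w.1 hw1
    refine ⟨s0, hle q hq hw1, hs0, fun s hs hsA => ?_⟩
    have h1 : F0 s ≤ S.low hκ α w.1 := by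
      rw [heq]
      exact hmono s0 s hs0 hsA hs
    exact ⟨S.catT N α (F0 s) w, Sys.catT_le_right hκ h1, Sys.catT_le_catT hκ hw h1⟩

/-! ### Bounds of supports -/

/-- the least bound of the support -/
noncomputable def rho (r : S.RR) : Ik κ :=
  WellFounded.min (wellFounded_lt (α := Ik κ)) {γ | ∀ ξ, r.1 ξ ≠ none → ξ < γ} r.2.bdd

theorem lt_rho (r : S.RR) {ξ : Ik κ} (h : r.1 ξ ≠ none) : ξ < rho r :=
  WellFounded.min_mem (wellFounded_lt (α := Ik κ)) {γ | ∀ ξ, r.1 ξ ≠ none → ξ < γ} r.2.bdd ξ h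

theorem rho_le (r : S.RR) {γ : Ik κ} (h : ∀ ξ, r.1 ξ ≠ none → ξ < γ) : rho r ≤ γ :=
  WellFounded.min_le (wellFounded_lt (α := Ik κ))
    (s := {γ | ∀ ξ, r.1 ξ ≠ none → ξ < γ}) h

theorem below_iff {α : Ik κ} (hα : IsD α) (r : S.RR) : Below α r ↔ rho r < α := by
  constructor
  · intro h
    obtain ⟨γ, hγ, h1⟩ := r.2.bddD α hα
    exact (rho_le r fun ξ hξ => h1 ξ (h ξ hξ) hξ).trans_lt hγ
  · intro h ξ hξ
    exact (lt_rho r hξ).trans h

theorem mul_lt_of_lt' {μ ν : Cardinal.{0}} (hκ : κ.IsInaccessible) (hμ : μ < κ) (hν : ν < κ) :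
    μ * ν < κ := mul_lt_of_lt hκ.1.le hμ hν

theorem count_rho (hκ : κ.IsInaccessible) (hD : ∀ a : Ik κ, ∃ d, IsD d ∧ a < d) (γ : Ik κ) :
    #{r : S.RR | rho r ≤ γ} < κ := by
  obtain ⟨d, hd, hγd⟩ := hD γ
  have h1 : #(Set (Iio d × Iio d × Iio d)) < κ := by
    simp only [mk_set, mk_prod, lift_id]
    have h2 : #(Iio d) < κ := mk_Iio_lt' d
    exact hκ.isStrongLimit.two_power_lt
      (mul_lt_of_lt' hκ h2 (mul_lt_of_lt' hκ h2 h2))
  refine lt_of_le_of_lt ?_ h1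
  let G : {r : S.RR | rho r ≤ γ} → Set (Iio d × Iio d × Iio d) := fun r =>
    {z | r.1.1 z.1.1 = some (z.2.1.1, z.2.2.1)}
  have key : ∀ r r' : {r : S.RR | rho r ≤ γ}, G r = G r' → ∀ ξ y, r.1.1 ξ = some y →
      r'.1.1 ξ = some y := by
    intro r r' h ξ y hy
    obtain ⟨c, x⟩ := y
    have hξ : ξ < d := ((lt_rho r.1 (by rw [hy]; simp)).trans_le r.2).trans hγd
    obtain ⟨hc, hx⟩ := (r.1.2.code ξ c x hy).1 d hd hξ
    have h3 : ((⟨ξ, hξ⟩, ⟨c, hc⟩, ⟨x, hx⟩) : Iio d × Iio d × Iio d) ∈ G r := hy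
    rw [h] at h3
    exact h3
  refine mk_le_of_injective (f := G) fun r r' h => ?_
  refine Subtype.ext (Subtype.ext (funext fun ξ => ?_))
  refine Option.ext fun y => ⟨fun hy => key r r' h ξ y hy, fun hy => key r' r h.symm ξ y hy⟩

theorem down_dec {P : Type} [Preorder P] (N : Set P) :
    Down {w : P | w ∈ meets N ∨ w ∈ fnot (meets N)} := by
  rintro p hp q hq
  rcases hp with hp | hp
  · exact Or.inl (down_meets _ _ hp _ hq)
  · exact Or.inr (down_fnot _ _ hp _ hq)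

theorem dense_dec {P : Type} [Preorder P] (N : Set P) (p : P) :
    ∃ q ≤ p, q ∈ {w : P | w ∈ meets N ∨ w ∈ fnot (meets N)} := by
  by_cases h : p ∈ fnot (meets N)
  · exact ⟨p, le_rfl, Or.inr h⟩
  · simp only [fnot, Set.mem_ofPred_eq, not_forall, not_not] at h
    obtain ⟨q, hq, h'⟩ := h
    exact ⟨q, hq, Or.inl h'⟩

theorem exists_surj {A B : Type} (h : #B ≤ #A) (hB : Nonempty B) :
    ∃ f : A → B, Function.Surjective f := by
  obtain ⟨g⟩ := h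
  exact ⟨Function.invFun g, Function.invFun_surjective g.injective⟩

end Pool.Agent.Helper403.SK.TC5b

namespace Pool.Agent.Helper403.SK

open Cardinal Set Pool.Agent.Helper669.Forcing Pool.Agent.Helper669.K Pool.Agent.W873.Tp
open Pool.Agent.W873.Vi TC5b

/-- job C5b -/
theorem jobC5b : StmtC5b := by
  intro _ hC2 hC3 hC5a κ hsc hκ hG S Θ N n hN hΘ
  classical
  have hκ0 : ℵ₀ ≤ κ := hκ.1.le
  obtain ⟨_, hR, _⟩ := hC3 κ hsc hκ S
  -- the cardinalities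
  have hκn : κ ≤ plus κ n := le_plus κ n
  have hn0 : ℵ₀ ≤ plus κ n := hκ0.trans hκn
  have hTwo : #(Two N) ≤ plus κ n := by
    change #(S.RR × Θ) ≤ _
    rw [mk_prod, lift_id, lift_id]
    exact (mul_le_mul' (hR.trans hκn) hΘ).trans (mul_eq_self hn0).le
  let M : Type := (plus κ (n + 1)).ord.ToType
  have hM : #M = plus κ (n + 1) := mk_ord_toType _
  have hnM : plus κ n ≤ #M := by
    rw [hM]
    exact Order.le_succ _
  obtain ⟨U, hU⟩ := hsc.2 M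
  obtain ⟨k⟩ : #(Ik κ) ≤ #M := by
    rw [mk_ord_toType]
    exact hκn.trans hnM
  obtain ⟨cR⟩ : #S.RR ≤ #M := (hR.trans hκn).trans hnM
  obtain ⟨cT⟩ : #Θ ≤ #M := hΘ.trans hnM
  obtain ⟨cP⟩ : #(Two N) ≤ #M := hTwo.trans hnM
  obtain ⟨mE, _⟩ := hN ∅ (by rw [mk_eq_zero]; exact aleph0_pos.trans_le hκ0)
    (fun a ha => ha.elim)
  obtain ⟨cN, hcN⟩ : ∃ cN : M → Ik κ → Set (Two N), Function.Surjective cN := by
    refine exists_surj ?_ ⟨fun _ => ∅⟩
    rw [← power_def, mk_set, mk_ord_toType, ← power_mul, hM, ← plus_gch hG hκ0 n]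
    refine power_le_power_left two_ne_zero ?_
    exact (mul_le_mul' hTwo hκn).trans (mul_eq_self hn0).le
  -- lower bounds
  let mC : Set (Two N) → Θ := fun D =>
    if h : #D < κ ∧ ForcedDirected N D then (hN D h.1 h.2).choose else mE
  have hmC : ∀ D : Set (Two N), #D < κ → ForcedDirected N D → ∀ a ∈ D, a.1 ∈ N.rel (mC D) a.2 := by
    intro D hD hdir
    have h : mC D = (hN D hD hdir).choose := dif_pos ⟨hD, hdir⟩
    rw [h]
    exact (hN D hD hdir).choose_spec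
  obtain ⟨α, h1, h2, h3, h4⟩ := hC5a κ hκ M U hU k k.injective
  have hαgt : ∀ a, ∀ᶠ X in (U : Filter (Set M)), a < α X := by
    intro a
    filter_upwards [h1, hU.fine (k a)] with X hX ha
    exact (hX.2 a).1 ha
  have hDunb : ∀ a : Ik κ, ∃ d, IsD d ∧ a < d := by
    intro a
    obtain ⟨X, hX1, hX2⟩ := (h1.and (hαgt a)).exists
    exact ⟨α X, hX1.1, hX2⟩
  have e2 := h2 Set.univ (n + 1) (by rw [mk_univ, hM])
  have e3 := h2 (Set.range cT) n (by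
    rw [mk_range_eq _ cT.injective]
    exact hΘ)
  have e4 := h3 (Two N) Θ cP cT cP.injective mC
  have e5 := h4 S.RR cR rho cR.injective (count_rho hκ hDunb)
  -- closure under the coding maps
  let G1 : M → M := fun a => if h : ∃ q : Two N, cP q = a then cR h.choose.1 else a
  let G2 : M → M := fun a => if h : ∃ q : Two N, cP q = a then cT h.choose.2 else a
  let G3 : M → M → M := fun a b =>
    if h : ∃ q : Two N, cR q.1 = a ∧ cT q.2 = b then cP h.choose else a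
  have hG1 : ∀ q, G1 (cP q) = cR q.1 := by
    intro q
    have h : ∃ q' : Two N, cP q' = cP q := ⟨q, rfl⟩
    have h5 : G1 (cP q) = cR h.choose.1 := dif_pos h
    rw [h5, cP.injective h.choose_spec]
  have hG2 : ∀ q, G2 (cP q) = cT q.2 := by
    intro q
    have h : ∃ q' : Two N, cP q' = cP q := ⟨q, rfl⟩
    have h5 : G2 (cP q) = cT h.choose.2 := dif_pos h
    rw [h5, cP.injective h.choose_spec]
  have hG3 : ∀ q : Two N, G3 (cR q.1) (cT q.2) = cP q := by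
    intro q
    have h : ∃ q' : Two N, cR q'.1 = cR q.1 ∧ cT q'.2 = cT q.2 := ⟨q, rfl, rfl⟩
    have h5 : G3 (cR q.1) (cT q.2) = cP h.choose := dif_pos h
    rw [h5]
    congr 1
    exact Prod.ext (cR.injective h.choose_spec.1) (cT.injective h.choose_spec.2)
  have e6 := hU.closed G1
  have e7 := hU.closed G2
  have e8 := hU.closed₂ G3
  have e9 := hU.fine (cT mE)
  -- the reflection at good sets
  have key : ∀ X : Set M, ∃ F : Two N → Two N,
      ((IsD (α X) ∧ ∀ a, k a ∈ X ↔ a < α X) →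
        #(X ∩ Set.univ : Set M) ≤ plus #(Iio (α X)) (n + 1) →
        #(X ∩ Set.range cT : Set M) ≤ plus #(Iio (α X)) n →
        (∀ D : Set (Two N), #D < #(Iio (α X)) → (∀ t ∈ D, cP t ∈ X) → cT (mC D) ∈ X) →
        (∀ t, cR t ∈ X ↔ rho t < α X) → (∀ a ∈ X, G1 a ∈ X) → (∀ a ∈ X, G2 a ∈ X) →
        (∀ a ∈ X, ∀ b ∈ X, G3 a b ∈ X) → cT mE ∈ X → Refl κ cP cN X (α X) F) := by
    intro X
    by_cases hgood : (IsD (α X) ∧ ∀ a, k a ∈ X ↔ a < α X) ∧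
        #(X ∩ Set.univ : Set M) ≤ plus #(Iio (α X)) (n + 1) ∧
        #(X ∩ Set.range cT : Set M) ≤ plus #(Iio (α X)) n ∧
        (∀ D : Set (Two N), #D < #(Iio (α X)) → (∀ t ∈ D, cP t ∈ X) → cT (mC D) ∈ X) ∧
        (∀ t, cR t ∈ X ↔ rho t < α X) ∧ (∀ a ∈ X, G1 a ∈ X) ∧ (∀ a ∈ X, G2 a ∈ X) ∧
        (∀ a ∈ X, ∀ b ∈ X, G3 a b ∈ X) ∧ cT mE ∈ X
    swap
    · exact ⟨id, fun g1 g2 g3 g4 g5 g6 g7 g8 g9 =>
        absurd ⟨g1, g2, g3, g4, g5, g6, g7, g8, g9⟩ hgood⟩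
    obtain ⟨g1, g2, g3, g4, g5, g6, g7, g8, g9⟩ := hgood
    have hiff : ∀ q : Two N, cP q ∈ X ↔ Below (α X) q.1 ∧ q.2 ∈ {x : Θ | cT x ∈ X} := by
      intro q
      rw [below_iff g1.1, ← g5]
      constructor
      · intro hq
        refine ⟨?_, ?_⟩
        · rw [← hG1]
          exact g6 _ hq
        · change cT q.2 ∈ X
          rw [← hG2]
          exact g7 _ hq
      · rintro ⟨hq1, hq2⟩
        rw [← hG3]
        exact g8 _ hq1 _ hq2
    have hA : #{x : Θ | cT x ∈ X} ≤ plus #(Iio (α X)) n := by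
      refine le_trans ?_ g3
      exact mk_le_of_injective (f := fun x => (⟨cT x.1, x.2, x.1, rfl⟩ :
        (X ∩ Set.range cT : Set M))) fun x y hxy => by
          simp only [Subtype.mk.injEq] at hxy
          exact Subtype.ext (cT.injective hxy)
    have hQ : #{q : Two N | Below (α X) q.1 ∧ q.2 ∈ {x : Θ | cT x ∈ X}} ≤
        plus #(Iio (α X)) (n + 1) := by
      refine le_trans ?_ g2
      exact mk_le_of_injective (f := fun q => (⟨cP q.1, (hiff q.1).2 q.2, trivial⟩ :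
        (X ∩ Set.univ : Set M))) fun x y hxy => by
          simp only [Subtype.mk.injEq] at hxy
          exact Subtype.ext (cP.injective hxy)
    have hJ : #X ≤ plus #(Iio (α X)) (n + 1) := by
      rwa [Set.inter_univ] at g2
    obtain ⟨F, f1, f2, f3, f4⟩ := local_refl hκ hC2 N hN g1.1 {x : Θ | cT x ∈ X} ⟨mE, g9⟩ n hA
      mC hmC (fun D hD hDX => g4 D hD fun t ht => (hiff t).2 (hDX t ht)) (n + 1) hQ X hJ
      (fun i => {w | w ∈ meets (cN i.1 (α X)) ∨ w ∈ fnot (meets (cN i.1 (α X)))})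
      (fun i => down_dec _) (fun i => dense_dec _)
    refine ⟨F, fun _ _ _ _ _ _ _ _ _ => ⟨fun q hq => f1 q ((hiff q).1 hq),
      fun q q' hq hq' => f2 q q' ((hiff q).1 hq) ((hiff q').1 hq'), fun i hi q hq => ?_,
      fun q hq w hw => ?_⟩⟩
    · obtain ⟨q', hle, hq', hmem⟩ := f3 ⟨i, hi⟩ q ((hiff q).1 hq)
      exact ⟨q', hle, (hiff q').2 hq', hmem⟩
    · obtain ⟨s0, hle, hs0, h5⟩ := f4 q ((hiff q).1 hq) w hw
      exact ⟨s0, hle, (hiff s0).2 hs0, fun s hs hsX => h5 s hs ((hiff s).1 hsX)⟩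
  choose F hF using key
  refine ⟨M, U, hU, cP, cP.injective, cN, hcN, α, F, hαgt, ?_⟩
  filter_upwards [h1, e2, e3, e4, e5, e6, e7, e8, e9] with X g1 g2 g3 g4 g5 g6 g7 g8 g9
  exact hF X g1 g2 g3 g4 g5 g6 g7 g8 g9

end Pool.Agent.Helper403.SK
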