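import Mathlib
import Pool.Agent.Helper403_SK.Stmts
import Pool.Agent.Helper669.KA2

set_option autoImplicit false

/-!
# Job card: cardinals from `κ` on are preserved
-/

namespace Pool.Agent.Helper403.SK

open Cardinal Set Pool.Agent.Helper669.Forcing Pool.Agent.Helper669.K

/-- job card -/
theorem jobcard : StmtCard := by
  classical
  intro κ hκ P _ hcc q μ ν hκμ hμν q' _ hex
  obtain ⟨r, _, F, hF, honto⟩ := mem_fex.1 hex q' le_rfl
  have hV : ∀ x : μ.out, #{y : ν.out | ∃ q1 ≤ r, q1 ∈ meets (F x y)} ≤ κ := by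
    intro x
    by_contra hcon
    push Not at hcon
    choose f hf1 hf2 using fun y : {y : ν.out | ∃ q1 ≤ r, q1 ∈ meets (F x y)} => y.2
    obtain ⟨i, j, hij, s, hsi, hsj⟩ := hcc _ f hcon
    apply hij
    have hs : s ∈ IsFun F := down_IsFun F _ hF _ (hsi.trans (hf1 i))
    exact Subtype.ext (IsFun.unique hs (down_meets _ _ (hf2 i) _ hsi)
      (down_meets _ _ (hf2 j) _ hsj))
  have hS : #(⋃ x : μ.out, {y : ν.out | ∃ q1 ≤ r, q1 ∈ meets (F x y)} : Set _) ≤ μ := by
    refine (Cardinal.mk_iUnion_le _).trans ?_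
    refine (mul_le_mul' (le_refl _) (ciSup_le' hV)).trans ?_
    rw [Cardinal.mk_out]
    refine (mul_le_mul' (le_refl μ) hκμ).trans ?_
    rw [Cardinal.mul_eq_self (hκ.1.le.trans hκμ)]
  have hall : (⋃ x : μ.out, {y : ν.out | ∃ q1 ≤ r, q1 ∈ meets (F x y)}) = Set.univ := by
    refine Set.eq_univ_of_forall fun y => ?_
    obtain ⟨q1, hq1, x, hx⟩ := mem_fex.1 (honto y) r le_rfl
    exact Set.mem_iUnion.2 ⟨x, q1, hq1, hx⟩
  rw [hall, mk_univ, mk_out] at hS
  exact absurd hμν (not_lt.2 hS)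

end Pool.Agent.Helper403.SK
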