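import Mathlib
import Pool.Agent.Helper403_SK.Jobs
import Pool.Agent.Helper403_SK.T0
import Pool.Agent.Helper403_SK.Tcard
import Pool.Agent.Helper403_SK.TA1
import Pool.Agent.Helper403_SK.TA2
import Pool.Agent.Helper403_SK.TA3
import Pool.Agent.Helper403_SK.TB1
import Pool.Agent.Helper403_SK.TB2a
import Pool.Agent.Helper403_SK.TB2b
import Pool.Agent.Helper403_SK.TB2cd
import Pool.Agent.Helper403_SK.TB3
import Pool.Agent.Helper403_SK.TB4
import Pool.Agent.Helper403_SK.TB5
import Pool.Agent.Helper403_SK.TB6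
import Pool.Agent.Helper403_SK.TB7
import Pool.Agent.Helper403_SK.TC0
import Pool.Agent.Helper403_SK.TC1
import Pool.Agent.Helper403_SK.TC2
import Pool.Agent.Helper403_SK.TC3
import Pool.Agent.Helper403_SK.TC4
import Pool.Agent.Helper403_SK.TC5a
import Pool.Agent.Helper403_SK.TC5b
import Pool.Agent.Helper403_SK.TC6

set_option autoImplicit false

/-!
# The main theorem
-/

namespace Pool.Agent.Helper403.SK

open Cardinal Set Pool.Agent.Helper669.Forcing Pool.Agent.Helper669.K Pool.Agent.W873.Tp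

theorem final (κ : Cardinal.{0}) (hκ : IsSupercompact κ) (hG : GCH) :
    ∃ (P : Type) (_ : Preorder P), Nonempty P ∧ ∀ p : P, p ∈ StaysRegular P κ ∧
      p ∈ PreservesFrom P κ ∧ p ∈ SplittingNumberIs P κ (plusOmega κ) :=
  final_of job0 jobcard jobA1 jobA2 jobA3 jobB1 jobB2a jobB2b TB2cd.jobB2c TB2cd.jobB2d
    jobB3 jobB4 jobB5 jobB6 jobB7 TC0.jobC0 jobC1 TC2.jobC2 jobC3 jobC4
    TC5a.jobC5a jobC5b jobC6 κ hκ hG

end Pool.Agent.Helper403.SK
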