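import Mathlib
import Pool.Agent.Helper403_SK.BStmts

set_option autoImplicit false

/-!
# Different generic sets (job B6)
-/

namespace Pool.Agent.Helper403.SK.TB6

open Cardinal Set Pool.Agent.Helper669.Forcing Pool.Agent.Helper669.K Pool.Agent.Helper403.SK

section

variable {κ : Cardinal.{0}} {L R I : Type} [LinearOrder L] [Preorder R]

theorem addE_rel (W : Wg κ L R I) (hκ : ℵ₀ ≤ κ) (p : BC κ L R I) (ξ : L)
    (i : I ⊕ κ.ord.ToType) (r : R) : r ∈ relW W (addE hκ p ξ i) p :=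
  ⟨Set.subset_insert _ _, fun _ _ _ _ => ⟨id, fun _ _ h1 h2 => absurd h1 (h2 _ le_rfl)⟩⟩

omit [LinearOrder L] [Preorder R] in
theorem small_stem (p : BC κ L R I) (ξ : L) : #{β | ∃ u, (ξ, (β, u)) ∈ p.s} < κ := by
  refine lt_of_le_of_lt (b := #((fun x : L × (κ.ord.ToType × R) => x.2.1) '' p.s)) ?_
    (mk_image_le.trans_lt p.hs)
  refine mk_le_mk_of_subset ?_
  rintro β ⟨u, hu⟩
  exact ⟨_, hu, rfl⟩

/-- the case `ξ < ξ'` -/
theorem key (h3 : StmtB3) [WellFoundedLT L] (hκ : κ.IsInaccessible)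
    (e : I → κ.ord.ToType → Set (R × BC κ L R I)) (b : L → Set (BC κ L R I))
    (S : BSys κ L R I e b) {ξ ξ' : L} (hlt : ξ < ξ') (q : Two (NW S.W S.good)) :
    ∃ q' ≤ q, ∃ β, q' ∈ meets {x : Two (NW S.W S.good) | ∃ u, (ξ, (β, u)) ∈ x.2.s ∧ x.1 ≤ u} ∧
      q' ∈ fnot (meets {x : Two (NW S.W S.good) | ∃ u, (ξ', (β, u)) ∈ x.2.s ∧ x.1 ≤ u}) := by
  obtain ⟨r, p⟩ := q
  obtain ⟨r1, hr1, z, hz, β, hβ, hle⟩ := h3 κ L R I hκ e b S r p ξ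
    {β | ∃ u, (ξ', (β, u)) ∈ p.s} (small_stem p ξ')
  obtain ⟨p1, hp1⟩ : ∃ p1, p1 = amal hκ.1.le z p ξ {(β, r1)} (Set.finite_singleton _) := ⟨_, rfl⟩
  rw [← hp1] at hle
  have hempty : Nm (addE hκ.1.le p1 ξ' (Sum.inr β)) ξ' β = ∅ := by
    ext u
    refine ⟨fun hu => ?_, fun hu => hu.elim⟩
    have hu' : (ξ', (β, u)) ∈ p1.s := hu
    rw [hp1] at hu'
    rcases hu' with (h | h) | h
    · exact absurd (Cond.lt_of_res hz h) (not_lt.2 hlt.le)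
    · exact hβ ⟨u, h.1⟩
    · exact absurd h.1 hlt.ne'
  have hle2 : @LE.le (Two (NW S.W S.good)) _ (r1, addE hκ.1.le p1 ξ' (Sum.inr β)) (r1, p1) :=
    ⟨le_rfl, addE_rel S.W hκ.1.le p1 ξ' (Sum.inr β) r1⟩
  have hle1 : @LE.le (Two (NW S.W S.good)) _ (r1, p1) (r, p) := ⟨hr1, hle⟩
  refine ⟨_, hle2.trans hle1, β, meets_of_mem ⟨r1, ?_, le_rfl⟩, ?_⟩
  · change (ξ, (β, r1)) ∈ p1.s
    rw [hp1]
    exact Or.inr ⟨rfl, rfl⟩
  · intro w hw hmeets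
    obtain ⟨w1, hw1, x, ⟨u, hu, hxu⟩, hwx⟩ := hmeets w le_rfl
    have h1 : w1.1 ∈ meets (Nm x.2 ξ' β) := meets_of_le (show u ∈ Nm x.2 ξ' β from hu)
      (hwx.1.trans hxu)
    have h2 : w1.1 ∈ meets (Nm w1.2 ξ' β) := (hwx.2.2 ξ' β w1.1 le_rfl).1 h1
    have h4 := (hw1.trans hw).2.2 ξ' β w1.1 le_rfl
    have h5 := h4.2 (Sum.inr β) (Set.mem_insert _ _) h2 (by
      intro v _ hv
      rw [hempty] at hv
      exact not_meets_empty v hv)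
    exact (S.inr ξ' β β _).1 h5 rfl

end

/-- job B6 -/
theorem _root_.Pool.Agent.Helper403.SK.jobB6 : StmtB2c → StmtB3 → StmtB6 := by
  intro _ h3 κ L R I _ _ _ hκ e b S ξ ξ' hne q
  rcases lt_or_gt_of_ne hne with hlt | hlt
  · obtain ⟨q', hq', β, h⟩ := key h3 hκ e b S hlt q
    exact ⟨q', hq', β, Or.inl h⟩
  · obtain ⟨q', hq', β, h⟩ := key h3 hκ e b S hlt q
    exact ⟨q', hq', β, Or.inr h⟩

end Pool.Agent.Helper403.SK.TB6
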